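import Mathlib

set_option autoImplicit false

/-!
# KPW: Karp-Purbhoo / Mukhin-Tarasov-Varchenko by elementary linear algebra, definitions
(project SEC, MP_0c25eb_ag, ideas row 1737)

`d = e + 1` colours, `N` slots. A tensor is a function `v : (Fin N → Fin d) → ℂ`.
-/

open scoped BigOperators

namespace Pool.Agent.KPW

noncomputable section

/-- tensors: `N` slots, `d` colours -/
abbrev Tn (d N : ℕ) : Type := (Fin N → Fin d) → ℂ

/-- the bilinear form on tensors -/
def pr {d N : ℕ} (φ v : Tn d N) : ℂ := ∑ i, φ i * v i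

/-- the matrix `L l` acts on the slot `l`, for all `l` -/
def act {d N : ℕ} (L : Fin N → Matrix (Fin d) (Fin d) ℂ) (v : Tn d N) : Tn d N :=
  fun i => ∑ j : Fin N → Fin d, (∏ l, L l (i l) (j l)) * v j

/-- slot permutation -/
def pm {d N : ℕ} (σ : Equiv.Perm (Fin N)) (v : Tn d N) : Tn d N := fun i => v (i ∘ σ)

/-- the diagonal operator: product over the slots of `diag(x) - w l` -/
def Tx {d N : ℕ} (w : Fin N → ℂ) (x : Fin d → ℂ) (v : Tn d N) : Tn d N :=
  fun i => (∏ l, (x (i l) - w l)) * v i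

/-- every colour is used `m` times -/
def Bal {d N : ℕ} (m : ℕ) (i : Fin N → Fin d) : Prop :=
  ∀ a : Fin d, (Finset.univ.filter fun l => i l = a).card = m

/-- balanced tensors -/
def BalT {d N : ℕ} (m : ℕ) (v : Tn d N) : Prop := ∀ i, v i ≠ 0 → Bal m i

lemma act_add {d N : ℕ} (L : Fin N → Matrix (Fin d) (Fin d) ℂ) (v v' : Tn d N) :
    act L (v + v') = act L v + act L v' := by
  funext i
  simp only [act, Pi.add_apply, mul_add, Finset.sum_add_distrib]

lemma act_smul {d N : ℕ} (L : Fin N → Matrix (Fin d) (Fin d) ℂ) (s : ℂ) (v : Tn d N) :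
    act L (s • v) = s • act L v := by
  funext i
  simp only [act, Pi.smul_apply, smul_eq_mul, Finset.mul_sum]
  refine Finset.sum_congr rfl fun j _ => ?_
  ring

lemma act_zero {d N : ℕ} (L : Fin N → Matrix (Fin d) (Fin d) ℂ) : act L (0 : Tn d N) = 0 := by
  funext i
  simp only [act, Pi.zero_apply, mul_zero, Finset.sum_const_zero]

/-- the invariants: `g` acting on all the slots is multiplication by `(det g)^m`, for all matrices `g` -/
def Inv (d m N : ℕ) : Submodule ℂ (Tn d N) where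
  carrier := {v | ∀ g : Matrix (Fin d) (Fin d) ℂ, act (fun _ => g) v = (g.det ^ m) • v}
  add_mem' := by
    intro v v' h h' g
    rw [act_add, h g, h' g, smul_add]
  zero_mem' := by
    intro g
    rw [act_zero, smul_zero]
  smul_mem' := by
    intro s v h g
    rw [act_smul, h g, smul_comm]

/-- the row operator `F_u(x)`: sum over the sets `B` of slots of
`prod_{l not in B} (u - w l) * (x - u)^(|B| + e) / (|B| + e)!` times the sum of the permutations of `B` -/
def Fr {e N : ℕ} (w : Fin N → ℂ) (u x : ℂ) (v : Tn (e + 1) N) : Tn (e + 1) N :=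
  ∑ B : Finset (Fin N), ((∏ l ∈ Bᶜ, (u - w l)) * ((x - u) ^ (B.card + e) / (Nat.factorial (B.card + e) : ℂ))) •
    ∑ σ ∈ (Finset.univ.filter fun σ : Equiv.Perm (Fin N) => ∀ l, l ∉ B → σ l = l), pm σ v

/-- Vandermonde determinant -/
def vdm {n : ℕ} (x : Fin n → ℂ) : ℂ := (Matrix.vandermonde x).det

/-- the functional on polynomials in `r 0, ..., r e`: the monomial `r^ν` goes to
`(prod (ν k)!) t^(|ν| + e) / (|ν| + e)!` (integral over the simplex `sum r = t`) -/
def Lam (e : ℕ) (t : ℂ) : MvPolynomial (Fin (e + 1)) ℂ →ₗ[ℂ] ℂ :=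
  (MvPolynomial.basisMonomials (Fin (e + 1)) ℂ).constr ℂ fun ν =>
    (∏ k, (Nat.factorial (ν k) : ℂ)) * (t ^ ((∑ k, ν k) + e) / (Nat.factorial ((∑ k, ν k) + e) : ℂ))

/-- the point `(x, u, ..., u)` -/
def pt {e : ℕ} (x u : ℂ) : Fin (e + 1) → ℂ := fun k => if k = 0 then x else u

/-- `x` without its `i`-th coordinate -/
def rm {e : ℕ} (x : Fin (e + 2) → ℂ) (i : Fin (e + 2)) : Fin (e + 1) → ℂ := fun k => x (i.succAbove k)

/-- the polynomials `X^(m+a) + sum_{l<m} c a l X^l` -/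
def fp {e m : ℕ} (c : Fin (e + 1) → Fin m → ℂ) (a : Fin (e + 1)) : Polynomial ℂ :=
  Polynomial.X ^ (m + (a : ℕ)) + ∑ l : Fin m, Polynomial.C (c a l) * Polynomial.X ^ (l : ℕ)

/-- `det f_a(x_b)` -/
def dt {e m : ℕ} (c : Fin (e + 1) → Fin m → ℂ) (x : Fin (e + 1) → ℂ) : ℂ :=
  Matrix.det (Matrix.of fun a b : Fin (e + 1) => (fp c a).eval (x b))

/-- the Wronskian of the `f_a` -/
def Wp {e m : ℕ} (c : Fin (e + 1) → Fin m → ℂ) : Polynomial ℂ :=
  Matrix.det (Matrix.of fun a b : Fin (e + 1) => Polynomial.derivative^[(b : ℕ)] (fp c a))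

/-- `w` is the list of the roots of the Wronskian, with multiplicities -/
def Rt {e m N : ℕ} (c : Fin (e + 1) → Fin m → ℂ) (w : Fin N → ℂ) : Prop :=
  Wp c = Polynomial.C (∏ a : Fin (e + 1), (Nat.factorial (a : ℕ) : ℂ)) * ∏ l, (Polynomial.X - Polynomial.C (w l))

/-- `v` is an eigenvector for `V_c` (weak form): `⟨φ, T_x v⟩ = W_c(x) ⟨φ, v⟩` for all invariants `φ` and all `x`,
where `W_c(x) = det f_a(x_b) / Vdm(x)` -/
def Eig {e m N : ℕ} (c : Fin (e + 1) → Fin m → ℂ) (w : Fin N → ℂ) (v : Tn (e + 1) N) : Prop :=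
  v ∈ Inv (e + 1) m N ∧ v ≠ 0 ∧ ∀ φ ∈ Inv (e + 1) m N, ∀ x : Fin (e + 1) → ℂ,
    vdm x * pr φ (Tx w x v) = dt c x * pr φ v

end

end Pool.Agent.KPW
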