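import Pool.Agent.KPW.Targets

/-!
# KPW-ACC: composition of `act`
-/

set_option autoImplicit false

open scoped BigOperators

namespace Pool.Agent.KPW

noncomputable section

theorem p_ACC : T_ACC := by
  intro d N L L' v
  funext i
  unfold act
  simp only [Finset.mul_sum]
  rw [Finset.sum_comm]
  refine Finset.sum_congr rfl fun k _ => ?_
  have h1 : (∏ l, (L l * L' l) (i l) (k l)) =
      ∑ j : Fin N → Fin d, ∏ l, L l (i l) (j l) * L' l (j l) (k l) := by
    simp only [Matrix.mul_apply]
    rw [Finset.prod_univ_sum, Fintype.piFinset_univ]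
  rw [h1, Finset.sum_mul]
  refine Finset.sum_congr rfl fun j _ => ?_
  rw [Finset.prod_mul_distrib]
  ring

end

end Pool.Agent.KPW
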