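import Pool.Agent.KPW.Targets

set_option autoImplicit false

/-!
# KPW-ATR: transposition of `act`
-/

open scoped BigOperators

namespace Pool.Agent.KPW

theorem p_ATR : T_ATR := by
  intro d N L φ v
  simp only [pr, act, Finset.mul_sum, Finset.sum_mul, Matrix.transpose_apply]
  rw [Finset.sum_comm]
  refine Finset.sum_congr rfl fun j _ => Finset.sum_congr rfl fun i _ => ?_
  ring

end Pool.Agent.KPW
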