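import Pool.Agent.KPW.Targets

set_option autoImplicit false

/-!
# KPW-BAL: invariants are balanced
-/

open scoped BigOperators

namespace Pool.Agent.KPW

namespace BAL_

/-- a constant family of diagonal matrices acts by a product over the slots -/
lemma act_diag {d N : ℕ} (t : Fin d → ℂ) (v : Tn d N) (i : Fin N → Fin d) :
    act (fun _ => Matrix.diagonal t) v i = (∏ l, t (i l)) * v i := by
  classical
  simp only [act]
  rw [Finset.sum_eq_single i]
  · simp
  · intro j _ hj
    obtain ⟨l, hl⟩ := Function.ne_iff.1 hj
    have h0 : ∏ l, (Matrix.diagonal t) (i l) (j l) = 0 :=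
      Finset.prod_eq_zero (Finset.mem_univ l) (Matrix.diagonal_apply_ne t (Ne.symm hl))
    rw [h0, zero_mul]
  · intro h
    exact absurd (Finset.mem_univ i) h

end BAL_

/-- KPW-BAL -/
theorem p_BAL : T_BAL := by
  classical
  intro d m N v hv i hi a
  have h := congrFun (hv (Matrix.diagonal fun b => if b = a then (2 : ℂ) else 1)) i
  rw [BAL_.act_diag, Matrix.det_diagonal, Pi.smul_apply, smul_eq_mul] at h
  have h' := mul_right_cancel₀ hi h
  rw [Finset.prod_ite_eq' Finset.univ a, if_pos (Finset.mem_univ a), Finset.prod_ite,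
    Finset.prod_const_one, mul_one, Finset.prod_const] at h'
  have h2 : (2 : ℕ) ^ (Finset.univ.filter fun l => i l = a).card = 2 ^ m := by
    exact_mod_cast h'
  exact Nat.pow_right_injective (le_refl 2) h2

end Pool.Agent.KPW
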