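import Pool.Agent.KPW.Targets

set_option autoImplicit false

/-!
# KPW-CFF: the row operators commute on the invariants (helper95)
-/

open scoped BigOperators

namespace Pool.Agent.KPW

namespace CFF_

theorem pr_sub {d N : ℕ} (φ v v' : Tn d N) : pr φ (v - v') = pr φ v - pr φ v' := by
  simp only [pr, Pi.sub_apply, mul_sub, Finset.sum_sub_distrib]

end CFF_

theorem p_CFF (h_TWO : T_TWO) (h_COM : T_COM) (h_FIN : T_FIN) (h_CJI : T_CJI) : T_CFF := by
  intro e m N w u x u' x' v hv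
  obtain ⟨-, -, hs, hi, -, -⟩ := h_FIN e N w u x
  obtain ⟨-, -, hs', hi', -, -⟩ := h_FIN e N w u' x'
  have h1 : Fr w u x (Fr w u' x' v) ∈ Inv (e + 1) m N := hi m _ (hi' m v hv)
  have h2 : Fr w u' x' (Fr w u x v) ∈ Inv (e + 1) m N := hi' m _ (hi m v hv)
  have key : Fr w u x (Fr w u' x' v) - Fr w u' x' (Fr w u x v) = 0 := by
    refine (h_CJI (e + 1) m N _ (Submodule.sub_mem _ h1 h2)).2.2 ?_
    intro φ hφ
    rw [CFF_.pr_sub, sub_eq_zero, hs, h_TWO e m N w u' x' (Fr w u x φ) (hi m φ hφ) v hv, ← hs,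
      h_COM e m N w u x (pt x' u') φ hφ v hv, h_TWO e m N w u' x' φ hφ (Fr w u x v) (hi m v hv)]
  exact sub_eq_zero.1 key

end Pool.Agent.KPW
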