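import Pool.Agent.KPW.Targets2

set_option autoImplicit false

open scoped BigOperators
open Filter Topology

namespace Pool.Agent.KPW

/-- Taylor coefficients -/
noncomputable def CFL_G {n : ℕ} (g : Fin n → Polynomial ℂ) (u : ℂ) (a : Fin n) (k : ℕ) : ℂ :=
  (Polynomial.taylor u (g a)).coeff k

/-- the tail -/
noncomputable def CFL_H {n : ℕ} (g : Fin n → Polynomial ℂ) (u s : ℂ) : Matrix (Fin n) (Fin n) ℂ :=
  Matrix.of fun a b => ∑ k ∈ Finset.range ((g a).natDegree + 1),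
    CFL_G g u a (n + k) * (s ^ k * ((b : ℕ) : ℂ) ^ (n + k))

lemma CFL_eval {n : ℕ} (g : Fin n → Polynomial ℂ) (u s : ℂ) (a b : Fin n) :
    (g a).eval (u + s * ((b : ℕ) : ℂ)) =
      (∑ k : Fin n, CFL_G g u a (k : ℕ) * (s ^ (k : ℕ) * ((b : ℕ) : ℂ) ^ (k : ℕ))) + s ^ n * CFL_H g u s a b := by
  have h1 : (g a).eval (u + s * ((b : ℕ) : ℂ)) = (Polynomial.taylor u (g a)).eval (s * ((b : ℕ) : ℂ)) := by
    rw [Polynomial.taylor_eval, add_comm]
  have h2 : (Polynomial.taylor u (g a)).natDegree < n + ((g a).natDegree + 1) := by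
    rw [Polynomial.natDegree_taylor]; omega
  rw [h1, Polynomial.eval_eq_sum_range' h2, Finset.sum_range_add, Finset.sum_range, CFL_H, Matrix.of_apply,
    Finset.mul_sum]
  congr 1
  · refine Finset.sum_congr rfl fun k _ => ?_
    rw [CFL_G, mul_pow]
  · refine Finset.sum_congr rfl fun k _ => ?_
    rw [CFL_G, mul_pow, pow_add s n k]
    ring

/-- the Vandermonde matrix of the nodes, transposed -/
noncomputable def CFL_B (n : ℕ) : Matrix (Fin n) (Fin n) ℂ := Matrix.of fun k b => ((b : ℕ) : ℂ) ^ (k : ℕ)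

lemma CFL_B_eq (n : ℕ) : CFL_B n = (Matrix.vandermonde (fun b : Fin n => ((b : ℕ) : ℂ))).transpose := by
  ext i j
  simp [CFL_B, Matrix.vandermonde_apply]

lemma CFL_B_det (n : ℕ) : (CFL_B n).det ≠ 0 := by
  rw [CFL_B_eq, Matrix.det_transpose]
  refine (Matrix.det_vandermonde_ne_zero_iff).2 ?_
  intro a b h
  have : ((a : ℕ) : ℂ) = ((b : ℕ) : ℂ) := h
  exact Fin.ext (by exact_mod_cast this)

/-- the matrix converging to the Taylor matrix -/
noncomputable def CFL_K {n : ℕ} (g : Fin n → Polynomial ℂ) (u s : ℂ) : Matrix (Fin n) (Fin n) ℂ :=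
  (Matrix.of fun a k : Fin n => CFL_G g u a (k : ℕ)) +
    CFL_H g u s * ((CFL_B n)⁻¹ * Matrix.diagonal fun k : Fin n => s ^ (n - (k : ℕ)))

lemma CFL_fact {n : ℕ} (g : Fin n → Polynomial ℂ) (u s : ℂ) :
    (Matrix.of fun a b : Fin n => (g a).eval (u + s * ((b : ℕ) : ℂ))) =
      CFL_K g u s * ((Matrix.diagonal fun k : Fin n => s ^ (k : ℕ)) * CFL_B n) := by
  have hB : (CFL_B n)⁻¹ * CFL_B n = 1 := Matrix.nonsing_inv_mul _ (isUnit_iff_ne_zero.2 (CFL_B_det n))
  have hd : (Matrix.diagonal fun k : Fin n => s ^ (n - (k : ℕ))) * (Matrix.diagonal fun k : Fin n => s ^ (k : ℕ)) =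
      (s ^ n) • (1 : Matrix (Fin n) (Fin n) ℂ) := by
    rw [Matrix.diagonal_mul_diagonal, ← Matrix.diagonal_one, ← Matrix.diagonal_smul]
    congr 1
    funext k
    simp only [Pi.smul_apply, smul_eq_mul, mul_one]
    rw [← pow_add]
    congr 1
    have := k.2
    omega
  have e1 : CFL_K g u s * ((Matrix.diagonal fun k : Fin n => s ^ (k : ℕ)) * CFL_B n) =
      (Matrix.of fun a k : Fin n => CFL_G g u a (k : ℕ)) * ((Matrix.diagonal fun k : Fin n => s ^ (k : ℕ)) * CFL_B n)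
        + s ^ n • CFL_H g u s := by
    rw [CFL_K, Matrix.add_mul]
    congr 1
    calc CFL_H g u s * ((CFL_B n)⁻¹ * Matrix.diagonal fun k : Fin n => s ^ (n - (k : ℕ))) *
          ((Matrix.diagonal fun k : Fin n => s ^ (k : ℕ)) * CFL_B n)
        = CFL_H g u s * ((CFL_B n)⁻¹ * (((Matrix.diagonal fun k : Fin n => s ^ (n - (k : ℕ))) *
          (Matrix.diagonal fun k : Fin n => s ^ (k : ℕ))) * CFL_B n)) := by
          simp only [Matrix.mul_assoc]
      _ = s ^ n • CFL_H g u s := by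
          rw [hd, Matrix.smul_mul, Matrix.one_mul, Matrix.mul_smul, hB, Matrix.mul_smul, Matrix.mul_one]
  rw [e1]
  ext a b
  rw [Matrix.of_apply, CFL_eval, Matrix.add_apply, Matrix.smul_apply, smul_eq_mul, Matrix.mul_apply]
  congr 1
  refine Finset.sum_congr rfl fun k _ => ?_
  rw [Matrix.of_apply, Matrix.diagonal_mul, CFL_B, Matrix.of_apply]

lemma CFL_vdm (n : ℕ) (u s : ℂ) : vdm (fun b : Fin n => u + s * ((b : ℕ) : ℂ)) =
    ((Matrix.diagonal fun k : Fin n => s ^ (k : ℕ)) * CFL_B n).det := by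
  have h1 : vdm (fun b : Fin n => u + s * ((b : ℕ) : ℂ)) = vdm (fun b : Fin n => s * ((b : ℕ) : ℂ)) := by
    unfold vdm
    rw [← Matrix.det_vandermonde_add (fun b : Fin n => s * ((b : ℕ) : ℂ)) u]
    congr 2
    funext b
    ring
  rw [h1]
  unfold vdm
  rw [← Matrix.det_transpose]
  congr 1
  ext k b
  rw [Matrix.transpose_apply, Matrix.vandermonde_apply, Matrix.diagonal_mul, CFL_B, Matrix.of_apply, mul_pow]

lemma CFL_det_quot {n : ℕ} (g : Fin n → Polynomial ℂ) (u s : ℂ) (hs : s ≠ 0) :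
    dG g (fun b => u + s * ((b : ℕ) : ℂ)) / vdm (fun b : Fin n => u + s * ((b : ℕ) : ℂ)) = (CFL_K g u s).det := by
  have h0 : ((Matrix.diagonal fun k : Fin n => s ^ (k : ℕ)) * CFL_B n).det ≠ 0 := by
    rw [Matrix.det_mul, Matrix.det_diagonal]
    exact mul_ne_zero (Finset.prod_ne_zero_iff.2 fun k _ => pow_ne_zero _ hs) (CFL_B_det n)
  rw [CFL_vdm, dG, CFL_fact, Matrix.det_mul, mul_div_assoc, div_self h0, mul_one]

lemma CFL_WrN {n : ℕ} (g : Fin n → Polynomial ℂ) (u : ℂ) :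
    (WrN g).eval u = (∏ a : Fin n, (Nat.factorial (a : ℕ) : ℂ)) *
      (Matrix.of fun a k : Fin n => CFL_G g u a (k : ℕ)).det := by
  rw [← Matrix.det_mul_row, WrN, ← Polynomial.coe_evalRingHom, RingHom.map_det]
  congr 1
  ext a b
  simp only [RingHom.mapMatrix_apply, Matrix.map_apply, Matrix.of_apply, Polynomial.coe_evalRingHom, CFL_G]
  rw [Polynomial.taylor_coeff, ← Polynomial.factorial_smul_hasseDeriv]
  rw [LinearMap.smul_apply, nsmul_eq_mul, Polynomial.eval_mul, Polynomial.eval_natCast]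

lemma CFL_cont {n : ℕ} (g : Fin n → Polynomial ℂ) (u : ℂ) :
    Continuous (fun s : ℝ => (CFL_K g u (s : ℂ)).det) := by
  refine Continuous.matrix_det ?_
  unfold CFL_K
  refine Continuous.add continuous_const ?_
  refine Continuous.mul ?_ ?_
  · refine continuous_matrix fun a b => ?_
    simp only [CFL_H, Matrix.of_apply]
    fun_prop
  · refine Continuous.mul continuous_const ?_
    refine Continuous.matrix_diagonal ?_
    fun_prop

lemma CFL_K0 {n : ℕ} (g : Fin n → Polynomial ℂ) (u : ℂ) :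
    CFL_K g u 0 = (Matrix.of fun a k : Fin n => CFL_G g u a (k : ℕ)) := by
  have h : (Matrix.diagonal fun k : Fin n => (0 : ℂ) ^ (n - (k : ℕ))) = 0 := by
    rw [← Matrix.diagonal_zero]
    congr 1
    funext k
    have := k.2
    exact zero_pow (by omega)
  rw [CFL_K, h, Matrix.mul_zero, Matrix.mul_zero, add_zero]

theorem p_CFL : T_CFL := by
  intro n g u
  have hf : (∏ a : Fin n, (Nat.factorial (a : ℕ) : ℂ)) ≠ 0 :=
    Finset.prod_ne_zero_iff.2 fun a _ => by exact_mod_cast Nat.factorial_ne_zero _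
  have hlim : (WrN g).eval u / ∏ a : Fin n, (Nat.factorial (a : ℕ) : ℂ) = (CFL_K g u ((0 : ℝ) : ℂ)).det := by
    rw [CFL_WrN, mul_comm, mul_div_assoc, div_self hf, mul_one, Complex.ofReal_zero, CFL_K0]
  rw [hlim]
  have h1 : Tendsto (fun s : ℝ => (CFL_K g u (s : ℂ)).det) (𝓝[≠] 0) (𝓝 (CFL_K g u ((0 : ℝ) : ℂ)).det) :=
    ((CFL_cont g u).tendsto 0).mono_left nhdsWithin_le_nhds
  refine h1.congr' ?_
  filter_upwards [self_mem_nhdsWithin] with s hs
  exact (CFL_det_quot g u (s : ℂ) (by exact_mod_cast hs)).symm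

end Pool.Agent.KPW
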