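import Pool.Agent.KPW.Targets

set_option autoImplicit false

/-! Job KPW-CJI: the complex conjugate of an invariant; nondegeneracy. -/

open scoped BigOperators

namespace Pool.Agent.KPW

namespace CJI_

lemma conj_mem {d m N : ℕ} (v : Tn d N) (hv : v ∈ Inv d m N) :
    (fun i => star (v i)) ∈ Inv d m N := by
  intro g
  have h := hv (g.map (starRingEnd ℂ))
  have hdet : (g.map (starRingEnd ℂ)).det = starRingEnd ℂ g.det :=
    ((starRingEnd ℂ).map_det g).symm
  rw [hdet] at h
  funext i
  have h1 := congrArg (starRingEnd ℂ) (congrFun h i)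
  simp only [act, Pi.smul_apply, smul_eq_mul, map_sum, map_mul, map_prod, Matrix.map_apply,
    Complex.conj_conj, map_pow] at h1
  simp only [act, Pi.smul_apply, smul_eq_mul]
  exact h1

lemma pr_conj_ne {d N : ℕ} (v : Tn d N) (hv : v ≠ 0) : pr (fun i => star (v i)) v ≠ 0 := by
  have h1 : pr (fun i => star (v i)) v = ((∑ i, Complex.normSq (v i) : ℝ) : ℂ) := by
    unfold pr
    rw [Complex.ofReal_sum]
    refine Finset.sum_congr rfl fun i _ => ?_
    rw [Complex.normSq_eq_conj_mul_self]
    rfl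
  rw [h1]
  obtain ⟨i, hi⟩ := Function.ne_iff.mp hv
  have h2 : 0 < ∑ i, Complex.normSq (v i) :=
    Finset.sum_pos' (fun j _ => Complex.normSq_nonneg _)
      ⟨i, Finset.mem_univ _, Complex.normSq_pos.mpr hi⟩
  exact Complex.ofReal_ne_zero.mpr h2.ne'

end CJI_

open CJI_ in
theorem p_CJI : T_CJI := by
  intro d m N v hv
  refine ⟨conj_mem v hv, pr_conj_ne v, fun h => ?_⟩
  by_contra hne
  exact pr_conj_ne v hne (h _ (conj_mem v hv))

end Pool.Agent.KPW
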