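import Pool.Agent.KPW.Targets2

set_option autoImplicit false

/-! Job KPW-CMP: every `c` has a joint eigenvector. -/

open scoped BigOperators

namespace Pool.Agent.KPW

namespace CMP_

/-- invariants satisfying the eigenvalue equation at the points of `S` -/
def ES (hF : T_FIN) {e m : ℕ} (c : Fin (e + 1) → Fin m → ℂ) (w : Fin ((e + 1) * m) → ℂ) (S : Finset (ℂ × ℂ)) :
    Submodule ℂ (Tn (e + 1) ((e + 1) * m)) where
  carrier := {v | v ∈ Inv (e + 1) m ((e + 1) * m) ∧ ∀ p ∈ S, Fr w p.1 p.2 v = lm c p.1 p.2 • v}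
  add_mem' := by
    rintro v v' ⟨h1, h2⟩ ⟨h1', h2'⟩
    refine ⟨Submodule.add_mem _ h1 h1', fun p hp => ?_⟩
    rw [(hF e _ w p.1 p.2).1, h2 p hp, h2' p hp, smul_add]
  zero_mem' := by
    refine ⟨Submodule.zero_mem _, fun p _ => ?_⟩
    have h := (hF e _ w p.1 p.2).2.1 0 0
    rw [zero_smul, zero_smul] at h
    rw [h, smul_zero]
  smul_mem' := by
    rintro s v ⟨h1, h2⟩
    refine ⟨Submodule.smul_mem _ s h1, fun p hp => ?_⟩
    rw [(hF e _ w p.1 p.2).2.1, h2 p hp, smul_comm]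

end CMP_

open CMP_ in
theorem p_CMP (h_CMG : T_CMG) (h_EVC : T_EVC) (h_LMC : T_LMC) (h_LMU : T_LMU) (h_FIN : T_FIN) : T_CMP := by
  classical
  intro e m c w hR
  have hne : ∀ S : Finset (ℂ × ℂ), ∃ v ∈ ES h_FIN c w S, v ≠ 0 := by
    intro S
    obtain ⟨v, hv, hv0, hv1⟩ := h_CMG e m c w hR S.card (fun t => (S.equivFin.symm t).1.1)
      (fun t => (S.equivFin.symm t).1.2)
    refine ⟨v, ⟨hv, fun p hp => ?_⟩, hv0⟩
    have h := hv1 (S.equivFin ⟨p, hp⟩)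
    simpa using h
  obtain ⟨S, hS⟩ : ∃ S : Finset (ℂ × ℂ), ∀ S' : Finset (ℂ × ℂ),
      Module.finrank ℂ (ES h_FIN c w S) ≤ Module.finrank ℂ (ES h_FIN c w S') := by
    obtain ⟨n, ⟨S, hS⟩, hmin⟩ := WellFounded.has_min (Nat.lt_wfRel.wf)
      (Set.range fun S : Finset (ℂ × ℂ) => Module.finrank ℂ (ES h_FIN c w S)) ⟨_, ⟨∅, rfl⟩⟩
    refine ⟨S, fun S' => ?_⟩
    have h := hmin _ ⟨S', rfl⟩
    have h2 : ¬ (Module.finrank ℂ (ES h_FIN c w S') < n) := h
    have h3 : Module.finrank ℂ (ES h_FIN c w S) = n := hS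
    omega
  obtain ⟨v, hv, hv0⟩ := hne S
  have hall : ∀ u x : ℂ, Fr w u x v = lm c u x • v := by
    intro u x
    have hle : ES h_FIN c w (insert (u, x) S) ≤ ES h_FIN c w S := by
      rintro y ⟨hy1, hy2⟩
      exact ⟨hy1, fun p hp => hy2 p (Finset.mem_insert_of_mem hp)⟩
    have heq : ES h_FIN c w (insert (u, x) S) = ES h_FIN c w S :=
      Submodule.eq_of_le_of_finrank_le hle (hS _)
    have hv' : v ∈ ES h_FIN c w (insert (u, x) S) := by rw [heq]; exact hv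
    exact hv'.2 (u, x) (Finset.mem_insert_self _ _)
  have hJ : JE m w v := ⟨hv.1, hv0, fun u x => ⟨lm c u x, hall u x⟩⟩
  obtain ⟨c', hc'⟩ := h_EVC e m w v hJ
  have hcc : c = c' := by
    refine h_LMU e m c c' fun u x => ?_
    have h1 := h_LMC e m w v c' hc' u x
    rw [hall u x] at h1
    exact smul_left_injective ℂ hv0 h1
  rw [hcc]
  exact ⟨v, hc'⟩

end Pool.Agent.KPW
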