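import Pool.Agent.KPW.Targets

/-!
# KPW: target CNJ, the conjugation principle
-/

set_option autoImplicit false

open scoped BigOperators

namespace Pool.Agent.KPW

namespace CNJ_

lemma pr_smul_left {d N : ℕ} (s : ℂ) (φ v : Tn d N) : pr (s • φ) v = s * pr φ v := by
  simp only [pr, Pi.smul_apply, smul_eq_mul, Finset.mul_sum]
  exact Finset.sum_congr rfl fun i _ => by ring

lemma pr_smul_right {d N : ℕ} (s : ℂ) (φ v : Tn d N) : pr φ (s • v) = s * pr φ v := by
  simp only [pr, Pi.smul_apply, smul_eq_mul, Finset.mul_sum]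
  exact Finset.sum_congr rfl fun i _ => by ring

end CNJ_

theorem p_CNJ (hACC : T_ACC) (hATR : T_ATR) : T_CNJ := by
  intro d m N G L L' hL φ hφ v hv
  have h1 : pr φ (act (fun l => G * L l) v) = G.det ^ m * pr φ (act L v) := by
    rw [← hACC d N (fun _ => G) L v, hATR d N (fun _ => G) φ (act L v)]
    have h2 : act (fun _ : Fin N => G.transpose) φ = G.det ^ m • φ := by
      have := hφ G.transpose
      rwa [Matrix.det_transpose] at this
    rw [h2, CNJ_.pr_smul_left]
  have h3 : pr φ (act (fun l => L' l * G) v) = G.det ^ m * pr φ (act L' v) := by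
    rw [← hACC d N L' (fun _ => G) v, hv G, act_smul, CNJ_.pr_smul_right]
  have h4 : (fun l => G * L l) = fun l => L' l * G := funext hL
  rw [h4] at h1
  rw [mul_sub, ← h1, ← h3, sub_self]

end Pool.Agent.KPW
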