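import Pool.Agent.KPW.Targets

set_option autoImplicit false

open scoped BigOperators

namespace Pool.Agent.KPW

namespace CNT_

/-- count on a whole finite type -/
lemma count {α : Type} [Fintype α] [DecidableEq α] {d : ℕ} (f g : α → Fin d)
    (h : ∀ k, Fintype.card {a // f a = k} = Fintype.card {a // g a = k}) :
    Fintype.card {σ : Equiv.Perm α // f ∘ σ = g} = ∏ k : Fin d, Nat.factorial (Fintype.card {a // f a = k}) := by
  classical
  have e : ∀ k, {a // g a = k} ≃ {a // f a = k} := fun k => Fintype.equivOfCardEq (h k).symm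
  let s : Equiv.Perm α := Equiv.ofFiberEquiv e
  have hs : ∀ a, f (s a) = g a := fun a => Equiv.ofFiberEquiv_map e a
  rw [← DomMulAct.stabilizer_card f]
  refine Fintype.card_congr ?_
  refine
    { toFun := fun σ => ⟨s.symm.trans σ.1, ?_⟩
      invFun := fun ρ => ⟨s.trans ρ.1, ?_⟩
      left_inv := ?_
      right_inv := ?_ }
  · funext a
    have h1 := congrFun σ.2 (s.symm a)
    simp only [Function.comp_apply] at h1
    simp only [Function.comp_apply, Equiv.trans_apply]
    rw [h1, ← hs, Equiv.apply_symm_apply]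
  · funext a
    have h1 := congrFun ρ.2 (s a)
    simp only [Function.comp_apply] at h1
    simp only [Function.comp_apply, Equiv.trans_apply]
    rw [h1, hs]
  · intro σ
    apply Subtype.ext
    ext a
    simp
  · intro ρ
    apply Subtype.ext
    ext a
    simp

lemma card_sub {N d : ℕ} (B : Finset (Fin N)) (i : Fin N → Fin d) (k : Fin d) :
    Fintype.card {a : {l // l ∈ B} // i a.1 = k} = (B.filter fun l => i l = k).card := by
  classical
  rw [← Fintype.card_coe]
  refine Fintype.card_congr ?_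
  exact
    { toFun := fun a => ⟨a.1.1, Finset.mem_filter.2 ⟨a.1.2, a.2⟩⟩
      invFun := fun a => ⟨⟨a.1, (Finset.mem_filter.1 a.2).1⟩, (Finset.mem_filter.1 a.2).2⟩
      left_inv := fun a => rfl
      right_inv := fun a => rfl }

end CNT_

theorem p_CNT : T_CNT := by
  classical
  intro d N B i j hout hcard
  have h1 := CNT_.count (fun a : {l // l ∈ B} => i a.1) (fun a : {l // l ∈ B} => j a.1)
    (fun k => by rw [CNT_.card_sub B i k, CNT_.card_sub B j k, hcard k])
  have h2 : ∏ k : Fin d, Nat.factorial (Fintype.card {a : {l // l ∈ B} // i a.1 = k}) =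
      ∏ k : Fin d, Nat.factorial (B.filter fun l => i l = k).card :=
    Finset.prod_congr rfl fun k _ => by rw [CNT_.card_sub B i k]
  rw [← h2, ← h1, ← Fintype.card_subtype]
  refine Fintype.card_congr ?_
  let E := Equiv.Perm.subtypeEquivSubtypePerm (fun l : Fin N => l ∈ B)
  refine
    { toFun := fun σ => ⟨E.symm ⟨σ.1, σ.2.1⟩, ?_⟩
      invFun := fun τ => ⟨(E τ.1).1, (E τ.1).2, ?_⟩
      left_inv := ?_
      right_inv := ?_ }
  · funext a
    have h3 : E (E.symm ⟨σ.1, σ.2.1⟩) = ⟨σ.1, σ.2.1⟩ := E.apply_symm_apply _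
    have h4 : ((E.symm ⟨σ.1, σ.2.1⟩) a : Fin N) = σ.1 a.1 := by
      have h5 : (E (E.symm ⟨σ.1, σ.2.1⟩)).1 a.1 = σ.1 a.1 := by rw [h3]
      rw [← h5]
      exact (Equiv.Perm.subtypeEquivSubtypePerm_apply_of_mem (E.symm ⟨σ.1, σ.2.1⟩) a.2).symm
    simp only [Function.comp_apply]
    rw [h4]
    exact congrFun σ.2.2 a.1
  · funext l
    simp only [Function.comp_apply]
    by_cases hl : l ∈ B
    · have h6 : (E τ.1).1 l = (τ.1 ⟨l, hl⟩ : Fin N) :=
        Equiv.Perm.subtypeEquivSubtypePerm_apply_of_mem τ.1 hl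
      rw [h6]
      exact congrFun τ.2 ⟨l, hl⟩
    · rw [(E τ.1).2 l hl]
      exact hout l hl
  · intro σ
    apply Subtype.ext
    change (E (E.symm ⟨σ.1, σ.2.1⟩)).1 = σ.1
    rw [E.apply_symm_apply]
  · intro τ
    apply Subtype.ext
    change E.symm ⟨(E τ.1).1, (E τ.1).2⟩ = τ.1
    exact E.symm_apply_apply τ.1

end Pool.Agent.KPW
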