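import Pool.Agent.KPW.Targets

set_option autoImplicit false

/-!
# KPW-COM: commutation of `Fr` and `Tx`
-/

open scoped BigOperators

namespace Pool.Agent.KPW

lemma COM_sq {d : ℕ} (r : Fin d → ℂ) :
    (Matrix.vecMulVec r (fun _ : Fin d => (1 : ℂ)) : Matrix (Fin d) (Fin d) ℂ) *
      (Matrix.vecMulVec r (fun _ : Fin d => (1 : ℂ)) : Matrix (Fin d) (Fin d) ℂ) =
      (∑ k, r k) • (Matrix.vecMulVec r (fun _ : Fin d => (1 : ℂ)) : Matrix (Fin d) (Fin d) ℂ) := by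
  ext i j
  rw [Matrix.mul_apply]
  simp only [Matrix.vecMulVec_apply, Matrix.smul_apply, smul_eq_mul, mul_one,
    ← Finset.mul_sum]
  ring

lemma COM_bal {d m N : ℕ} (w : Fin N → ℂ) (y : Fin d → ℂ) (v : Tn d N) (h : BalT m v) :
    BalT m (Tx w y v) := by
  intro i hi
  apply h i
  intro h0
  apply hi
  simp [Tx, h0]

lemma COM_zero (h_LAM : T_LAM) (h_YDC : T_YDC) (h_BAL : T_BAL) (h_DIA : T_DIA)
    (e m N : ℕ) (w : Fin N → ℂ) (x : ℂ) (y : Fin (e + 1) → ℂ)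
    (φ : Tn (e + 1) N) (hφ : φ ∈ Inv (e + 1) m N) (v : Tn (e + 1) N)
    (hv : v ∈ Inv (e + 1) m N) :
    pr φ (Fr w 0 x (Tx w y v)) = pr φ (Tx w y (Fr w 0 x v)) := by
  rw [(h_DIA (e + 1) N w y φ (Fr w 0 x v)).2.1]
  obtain ⟨p1, h1, h1'⟩ := h_LAM e m N w x φ (Tx w y v) (h_BAL _ _ _ φ hφ)
    (COM_bal w y v (h_BAL _ _ _ v hv))
  obtain ⟨p2, h2, h2'⟩ := h_LAM e m N w x (Tx w y φ) v
    (COM_bal w y φ (h_BAL _ _ _ φ hφ)) (h_BAL _ _ _ v hv)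
  have hp : p1 = p2 := by
    apply MvPolynomial.funext
    intro r
    have e1 := h1 r (fun _ => 1)
    have e2 := h2 r (fun _ => 1)
    simp only [mul_one] at e1 e2
    rw [e1, e2, ← (h_DIA (e + 1) N w y φ _).2.1,
      ((h_DIA (e + 1) N w y φ v).2.2.2.2 _).1, ((h_DIA (e + 1) N w y φ v).2.2.2.2 _).2]
    exact h_YDC (e + 1) m N w _ (Matrix.diagonal y) (∑ k, r k) (COM_sq r) φ hφ v hv
  rw [← h1', ← h2', hp]

/-- KPW-COM -/
theorem p_COM (h_LAM : T_LAM) (h_YDC : T_YDC) (h_BAL : T_BAL) (h_DIA : T_DIA) (h_FIN : T_FIN) :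
    T_COM := by
  intro e m N w u x y φ hφ v hv
  obtain ⟨_, _, _, _, h5, h6⟩ := h_FIN e N w u x
  rw [h5, h5, h6 y v, h6 y]
  exact COM_zero h_LAM h_YDC h_BAL h_DIA e m N _ _ _ φ hφ v hv

end Pool.Agent.KPW
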