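import Pool.Agent.KPW.Targets2

set_option autoImplicit false

/-!
# KPW-CRM: Cramer argument for alternating functions (project SEC, MP_0c25eb_ag)
-/

open scoped BigOperators

namespace Pool.Agent.KPW

namespace CRM_

/-- removing the coordinate `k + 1` of `(x, y)` is a cycle applied to `update y k x` -/
lemma rm_succ {e : ℕ} (y : Fin (e + 1) → ℂ) (x : ℂ) (k : Fin (e + 1)) :
    rm (Fin.cons x y : Fin (e + 2) → ℂ) k.succ = (Function.update y k x) ∘ (k.cycleRange.symm) := by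
  funext j
  refine Fin.cases ?_ (fun j => ?_) j
  · simp [rm, Fin.cycleRange_symm_zero]
  · rw [Function.comp_apply, Fin.cycleRange_symm_succ, Function.update_of_ne (Fin.succAbove_ne k j)]
    simp [rm, Fin.succ_succAbove_succ]

lemma rm_zero {e : ℕ} (y : Fin (e + 1) → ℂ) (x : ℂ) :
    rm (Fin.cons x y : Fin (e + 2) → ℂ) 0 = y := by
  funext j
  simp [rm]

/-- the linear system -/
lemma sys {e : ℕ} (g : Fin (e + 1) → ℂ → ℂ) (Ψ : (Fin (e + 1) → ℂ) → ℂ)
    (h1 : ∀ (σ : Equiv.Perm (Fin (e + 1))) (y : Fin (e + 1) → ℂ),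
      Ψ (y ∘ σ) = ((Equiv.Perm.sign σ : ℤ) : ℂ) * Ψ y)
    (h2 : ∀ (a : Fin (e + 1)) (x : Fin (e + 2) → ℂ),
      ∑ i : Fin (e + 2), (-1 : ℂ) ^ (i : ℕ) * g a (x i) * Ψ (rm x i) = 0)
    (y : Fin (e + 1) → ℂ) (x : ℂ) (a : Fin (e + 1)) :
    ∑ k, g a (y k) * Ψ (Function.update y k x) = Ψ y * g a x := by
  have h := h2 a (Fin.cons x y)
  rw [Fin.sum_univ_succ] at h
  have h3 : ∀ k : Fin (e + 1),
      (-1 : ℂ) ^ ((k.succ : Fin (e + 2)) : ℕ) * g a ((Fin.cons x y : Fin (e + 2) → ℂ) k.succ) *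
        Ψ (rm (Fin.cons x y : Fin (e + 2) → ℂ) k.succ) = -(g a (y k) * Ψ (Function.update y k x)) := by
    intro k
    rw [rm_succ, h1, Equiv.Perm.sign_symm, Fin.sign_cycleRange, Fin.cons_succ, Fin.val_succ]
    have h4 : ((-1 : ℂ) ^ (k : ℕ)) * ((-1 : ℂ) ^ (k : ℕ)) = 1 := by
      rw [← mul_pow]; simp
    push_cast
    rw [pow_succ]
    linear_combination (-(g a (y k) * Ψ (Function.update y k x))) * h4
  rw [Finset.sum_congr rfl fun k _ => h3 k, Finset.sum_neg_distrib, rm_zero] at h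
  simp only [Fin.val_zero, pow_zero, one_mul, Fin.cons_zero] at h
  linear_combination -h

end CRM_

theorem p_CRM : T_CRM := by
  intro e g Ψ h1 h2 y b x
  set Γ : Matrix (Fin (e + 1)) (Fin (e + 1)) ℂ := Matrix.of fun a k => g a (y k) with hΓ
  have h3 : Γ.mulVec (fun k => Ψ (Function.update y k x)) = Ψ y • (fun a => g a x) := by
    funext a
    exact CRM_.sys g Ψ h1 h2 y x a
  have h4 : Γ.det * Ψ (Function.update y b x) = Ψ y * (Γ.updateCol b (fun a => g a x)).det := by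
    have h5 : Γ.adjugate.mulVec (Γ.mulVec (fun k => Ψ (Function.update y k x))) b =
        Γ.det * Ψ (Function.update y b x) := by
      rw [Matrix.mulVec_mulVec, Matrix.adjugate_mul, Matrix.smul_mulVec, Matrix.one_mulVec]
      rfl
    rw [← h5, h3, Matrix.mulVec_smul, ← Matrix.cramer_eq_adjugate_mulVec, Pi.smul_apply,
      Matrix.cramer_apply, smul_eq_mul]
  rw [h4, mul_comm]
  congr 1
  congr 1
  ext a k
  rw [Matrix.updateCol_apply]
  by_cases hk : k = b
  · subst hk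
    simp
  · simp [hk, hΓ]

end Pool.Agent.KPW
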