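import Pool.Agent.KPW.Targets2

/-!
# KPW-CVN: common eigenvector of commuting endomorphisms
-/

set_option autoImplicit false

open scoped BigOperators
open Filter Topology

namespace Pool.Agent.KPW

noncomputable section

namespace CVN_

theorem aux (n : ℕ) : ∀ (E : Type) [AddCommGroup E] [Module ℂ E] [FiniteDimensional ℂ E]
    [Nontrivial E] (I : Type) (A : I → Module.End ℂ E), (∀ i j, A i * A j = A j * A i) →
    Module.finrank ℂ E = n → ∃ v : E, v ≠ 0 ∧ ∀ i, ∃ lam : ℂ, A i v = lam • v := by
  induction n using Nat.strong_induction_on with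
  | _ n ih =>
    intro E _ _ _ _ I A hA hn
    by_cases h : ∀ i, ∃ μ : ℂ, ∀ v, A i v = μ • v
    · obtain ⟨v, hv⟩ := exists_ne (0 : E)
      refine ⟨v, hv, fun i => ?_⟩
      obtain ⟨μ, hμ⟩ := h i
      exact ⟨μ, hμ v⟩
    · push Not at h
      obtain ⟨i, hi⟩ := h
      obtain ⟨μ, hμ⟩ := Module.End.exists_eigenvalue (A i)
      set V := Module.End.eigenspace (A i) μ with hV
      have hVbot : V ≠ ⊥ := hμ
      have hVtop : V ≠ ⊤ := by
        intro htop
        obtain ⟨v, hv⟩ := hi μ
        apply hv
        have : v ∈ V := by rw [htop]; trivial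
        exact Module.End.mem_eigenspace_iff.1 this
      have hlt : Module.finrank ℂ V < n := by
        rw [← hn]
        exact Submodule.finrank_lt hVtop
      have hinv : ∀ j, ∀ x ∈ V, A j x ∈ V := by
        intro j x hx
        rw [hV, Module.End.mem_eigenspace_iff] at hx ⊢
        have h1 : A i (A j x) = A j (A i x) := by
          rw [← Module.End.mul_apply, hA i j, Module.End.mul_apply]
        rw [h1, hx, map_smul]
      have hnt : Nontrivial V := Submodule.nontrivial_iff_ne_bot.2 hVbot
      obtain ⟨v, hv, hv'⟩ := ih _ hlt V I (fun j => (A j).restrict (hinv j)) (by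
        intro j k
        apply LinearMap.ext
        intro x
        apply Subtype.ext
        have h1 : A j (A k x) = A k (A j x) := by
          rw [← Module.End.mul_apply, hA j k, Module.End.mul_apply]
        exact h1) rfl
      refine ⟨v.1, fun h => hv (Subtype.ext h), fun j => ?_⟩
      obtain ⟨lam, hl⟩ := hv' j
      exact ⟨lam, congrArg Subtype.val hl⟩

end CVN_

theorem p_CVN : T_CVN := by
  intro E _ _ _ _ I A hA
  exact CVN_.aux _ E I A hA rfl

end

end Pool.Agent.KPW
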