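import Pool.Agent.KPW.Targets

set_option autoImplicit false

/-!
# KPW-DEN: density in one variable
-/

namespace Pool.Agent.KPW

theorem p_DEN : T_DEN := by
  intro p hp A B hA hB h
  have hfin : {s | p.IsRoot s}.Finite := Polynomial.finite_setOfPred_isRoot hp
  have hd : Dense (Set.univ \ {s : ℂ | p.IsRoot s}) := dense_univ.sdiff_finite hfin
  refine Continuous.ext_on hd hA hB ?_
  intro s hs
  have h1 : p.eval s ≠ 0 := fun h2 => hs.2 h2
  rcases mul_eq_zero.1 (h s) with h3 | h3
  · exact absurd h3 h1
  · exact sub_eq_zero.1 h3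

end Pool.Agent.KPW
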