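import Pool.Agent.KPW.Targets

set_option autoImplicit false

/-!
# KPW-DIA: the diagonal operator as `act` of diagonal matrices, symmetry, slot permutations
-/

open scoped BigOperators

namespace Pool.Agent.KPW

namespace DIA_

/-- composition with a permutation of the slots -/
def cp {d N : ℕ} (σ : Equiv.Perm (Fin N)) : (Fin N → Fin d) ≃ (Fin N → Fin d) where
  toFun f := f ∘ σ
  invFun f := f ∘ ⇑σ⁻¹
  left_inv f := by
    funext l
    simp
  right_inv f := by
    funext l
    simp

@[simp] lemma cp_apply {d N : ℕ} (σ : Equiv.Perm (Fin N)) (f : Fin N → Fin d) :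
    cp σ f = f ∘ σ := rfl

lemma right {d N : ℕ} (w : Fin N → ℂ) (x : Fin d → ℂ) (v : Tn d N)
    (L : Fin N → Matrix (Fin d) (Fin d) ℂ) :
    act L (Tx w x v) =
      act (fun l => L l * (Matrix.diagonal x - w l • (1 : Matrix (Fin d) (Fin d) ℂ))) v := by
  funext i
  simp only [act, Tx]
  refine Finset.sum_congr rfl fun j _ => ?_
  rw [← mul_assoc, ← Finset.prod_mul_distrib]
  congr 1
  refine Finset.prod_congr rfl fun l _ => ?_
  rw [Matrix.mul_sub, Matrix.sub_apply, Matrix.mul_diagonal, Matrix.mul_smul, Matrix.mul_one,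
    Matrix.smul_apply, smul_eq_mul]
  ring

lemma left {d N : ℕ} (w : Fin N → ℂ) (x : Fin d → ℂ) (v : Tn d N)
    (L : Fin N → Matrix (Fin d) (Fin d) ℂ) :
    Tx w x (act L v) =
      act (fun l => (Matrix.diagonal x - w l • (1 : Matrix (Fin d) (Fin d) ℂ)) * L l) v := by
  funext i
  simp only [act, Tx]
  rw [Finset.mul_sum]
  refine Finset.sum_congr rfl fun j _ => ?_
  rw [← mul_assoc, ← Finset.prod_mul_distrib]
  congr 1
  refine Finset.prod_congr rfl fun l _ => ?_
  rw [Matrix.sub_mul, Matrix.sub_apply, Matrix.diagonal_mul, Matrix.smul_mul, Matrix.one_mul,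
    Matrix.smul_apply, smul_eq_mul]
  ring

lemma act_one {d N : ℕ} (v : Tn d N) : act (fun _ => (1 : Matrix (Fin d) (Fin d) ℂ)) v = v := by
  funext i
  simp only [act]
  rw [Finset.sum_eq_single i]
  · simp
  · intro j _ hj
    obtain ⟨l, hl⟩ : ∃ l, i l ≠ j l := by
      by_contra hc
      push Not at hc
      exact hj (funext fun l => (hc l).symm)
    have h0 : (∏ l, (1 : Matrix (Fin d) (Fin d) ℂ) (i l) (j l)) = 0 :=
      Finset.prod_eq_zero (Finset.mem_univ l) (Matrix.one_apply_ne hl)
    rw [h0, zero_mul]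
  · intro h
    exact absurd (Finset.mem_univ i) h

lemma perm {d N : ℕ} (v : Tn d N) (g : Matrix (Fin d) (Fin d) ℂ) (σ : Equiv.Perm (Fin N)) :
    act (fun _ => g) (pm σ v) = pm σ (act (fun _ => g) v) := by
  funext i
  simp only [act, pm]
  refine Fintype.sum_equiv (cp σ) _ _ fun j => ?_
  simp only [cp_apply, Function.comp_apply]
  congr 1
  exact (Equiv.prod_comp σ fun l => g (i l) (j l)).symm

end DIA_

open DIA_ in
theorem p_DIA : T_DIA := by
  intro d N w x φ v
  refine ⟨?_, ?_, fun g σ => perm v g σ, ?_, fun L => ⟨right w x v L, left w x v L⟩⟩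
  · have h := left w x v (fun _ => (1 : Matrix (Fin d) (Fin d) ℂ))
    rw [act_one] at h
    rw [h]
    simp only [Matrix.mul_one]
  · simp only [pr, Tx]
    refine Finset.sum_congr rfl fun i _ => ?_
    ring
  · intro σ
    simp only [pr, pm]
    refine Fintype.sum_equiv (cp σ) _ _ fun i => ?_
    simp only [cp_apply]
    congr 2
    funext l
    simp

end Pool.Agent.KPW
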