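import Pool.Agent.KPW.Targets2

/-!
# KPW: target DTI, the function `dt c` on real points determines `c`
-/

set_option autoImplicit false

open scoped BigOperators
open Filter Topology

namespace Pool.Agent.KPW

noncomputable section

namespace DTI_

lemma prod_eq_monomial {n : ℕ} (a : Fin n → ℂ) (p : Fin n → ℕ) :
    ∏ b, (a b • (MvPolynomial.X b : MvPolynomial (Fin n) ℂ) ^ p b) =
      MvPolynomial.monomial (Finsupp.equivFunOnFinite.symm p) (∏ b, a b) := by
  have h1 : ∏ b, (a b • (MvPolynomial.X b : MvPolynomial (Fin n) ℂ) ^ p b) =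
      MvPolynomial.C (∏ b, a b) * ∏ b, (MvPolynomial.X b : MvPolynomial (Fin n) ℂ) ^ p b := by
    rw [map_prod, ← Finset.prod_mul_distrib]
    exact Finset.prod_congr rfl fun b _ => MvPolynomial.smul_eq_C_mul _ _
  rw [h1, MvPolynomial.monomial_eq, Finsupp.prod_fintype _ _ (fun i => pow_zero _)]
  rfl

lemma coeff_prod {n : ℕ} (f : Fin n → Polynomial ℂ) (ν : Fin n →₀ ℕ) :
    MvPolynomial.coeff ν (∏ b, Polynomial.aeval (MvPolynomial.X b : MvPolynomial (Fin n) ℂ) (f b)) =
      ∏ b, (f b).coeff (ν b) := by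
  set N : ℕ := (∑ b, (f b).natDegree + ∑ b, ν b) + 1 with hN
  have hd : ∀ b, (f b).natDegree < N := fun b => by
    have := Finset.single_le_sum (f := fun b => (f b).natDegree) (fun i _ => Nat.zero_le _)
      (Finset.mem_univ b)
    omega
  have hν : ∀ b, ν b < N := fun b => by
    have := Finset.single_le_sum (f := fun b => ν b) (fun i _ => Nat.zero_le _)
      (Finset.mem_univ b)
    omega
  have h1 : ∏ b, Polynomial.aeval (MvPolynomial.X b : MvPolynomial (Fin n) ℂ) (f b) =
      ∏ b, ∑ i ∈ Finset.range N, (f b).coeff i • (MvPolynomial.X b : MvPolynomial (Fin n) ℂ) ^ i :=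
    Finset.prod_congr rfl fun b _ => Polynomial.aeval_eq_sum_range' (hd b) _
  rw [h1, Finset.prod_univ_sum, MvPolynomial.coeff_sum]
  have h2 : ∀ p ∈ Fintype.piFinset (fun _ : Fin n => Finset.range N),
      MvPolynomial.coeff ν (∏ b, ((f b).coeff (p b) •
        (MvPolynomial.X b : MvPolynomial (Fin n) ℂ) ^ p b)) =
      if p = (ν : Fin n → ℕ) then ∏ b, (f b).coeff (ν b) else 0 := by
    intro p _
    rw [prod_eq_monomial, MvPolynomial.coeff_monomial]
    by_cases hp : p = (ν : Fin n → ℕ)
    · subst hp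
      rw [if_pos rfl, if_pos]
      exact Finsupp.equivFunOnFinite.symm_apply_apply ν
    · rw [if_neg hp, if_neg]
      intro h
      apply hp
      rw [← h]
      rfl
  rw [Finset.sum_congr rfl h2, Finset.sum_ite_eq', if_pos]
  rw [Fintype.mem_piFinset]
  exact fun b => Finset.mem_range.2 (hν b)

/-- the polynomial whose values are `dt c` -/
def pc {e m : ℕ} (c : Fin (e + 1) → Fin m → ℂ) : MvPolynomial (Fin (e + 1)) ℂ :=
  Matrix.det (Matrix.of fun a b : Fin (e + 1) =>
    Polynomial.aeval (MvPolynomial.X b : MvPolynomial (Fin (e + 1)) ℂ) (fp c a))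

lemma eval_pc {e m : ℕ} (c : Fin (e + 1) → Fin m → ℂ) (x : Fin (e + 1) → ℂ) :
    MvPolynomial.eval x (pc c) = dt c x := by
  unfold pc dt
  rw [RingHom.map_det]
  congr 1
  ext a b
  simp only [RingHom.mapMatrix_apply, Matrix.map_apply, Matrix.of_apply]
  have h1 : MvPolynomial.eval x (Polynomial.aeval
      (MvPolynomial.X b : MvPolynomial (Fin (e + 1)) ℂ) (fp c a)) =
      Polynomial.eval₂ ((MvPolynomial.eval x).comp
        (algebraMap ℂ (MvPolynomial (Fin (e + 1)) ℂ)))
        (MvPolynomial.eval x (MvPolynomial.X b : MvPolynomial (Fin (e + 1)) ℂ)) (fp c a) := by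
    rw [Polynomial.aeval_def, Polynomial.hom_eval₂]
  rw [h1, MvPolynomial.eval_X]
  have h2 : (MvPolynomial.eval x).comp (algebraMap ℂ (MvPolynomial (Fin (e + 1)) ℂ)) =
      RingHom.id ℂ := by
    ext r
    simp
  rw [h2]
  rfl

lemma fp_coeff {e m : ℕ} (c : Fin (e + 1) → Fin m → ℂ) (a : Fin (e + 1)) (n : ℕ) :
    (fp c a).coeff n = (if n = m + (a : ℕ) then 1 else 0) +
      (if h : n < m then c a ⟨n, h⟩ else 0) := by
  unfold fp
  rw [Polynomial.coeff_add, Polynomial.coeff_X_pow, Polynomial.finsetSum_coeff]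
  congr 1
  by_cases h : n < m
  · rw [dif_pos h, Finset.sum_eq_single ⟨n, h⟩]
    · rw [Polynomial.coeff_C_mul, Polynomial.coeff_X_pow, if_pos rfl, mul_one]
    · intro l _ hl
      rw [Polynomial.coeff_C_mul, Polynomial.coeff_X_pow, if_neg, mul_zero]
      intro hh
      exact hl (Fin.ext hh.symm)
    · intro hh
      exact absurd (Finset.mem_univ _) hh
  · rw [dif_neg h]
    apply Finset.sum_eq_zero
    intro l _
    rw [Polynomial.coeff_C_mul, Polynomial.coeff_X_pow, if_neg, mul_zero]
    intro hh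
    exact h (hh ▸ l.2)

lemma coeff_pc {e m : ℕ} (c : Fin (e + 1) → Fin m → ℂ) (a : Fin (e + 1)) (l : Fin m) :
    MvPolynomial.coeff (Finsupp.equivFunOnFinite.symm
      (fun b : Fin (e + 1) => if b = a then (l : ℕ) else m + (b : ℕ))) (pc c) = c a l := by
  set ν : Fin (e + 1) →₀ ℕ := Finsupp.equivFunOnFinite.symm
      (fun b : Fin (e + 1) => if b = a then (l : ℕ) else m + (b : ℕ)) with hν
  have hνb : ∀ b, ν b = if b = a then (l : ℕ) else m + (b : ℕ) := fun b => rfl
  unfold pc
  rw [Matrix.det_apply, MvPolynomial.coeff_sum]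
  rw [Finset.sum_eq_single (1 : Equiv.Perm (Fin (e + 1)))]
  · rw [Equiv.Perm.sign_one, one_smul]
    have h1 : ∏ i, (Matrix.of fun a b : Fin (e + 1) => Polynomial.aeval
        (MvPolynomial.X b : MvPolynomial (Fin (e + 1)) ℂ) (fp c a))
        ((1 : Equiv.Perm (Fin (e + 1))) i) i =
        ∏ b, Polynomial.aeval (MvPolynomial.X b : MvPolynomial (Fin (e + 1)) ℂ) (fp c b) := rfl
    rw [h1, coeff_prod, Finset.prod_eq_single a]
    · rw [hνb, if_pos rfl, fp_coeff, dif_pos l.2, if_neg, zero_add]
      have := l.2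
      omega
    · intro b _ hb
      rw [hνb, if_neg hb, fp_coeff, if_pos rfl, dif_neg (by omega), add_zero]
    · intro h
      exact absurd (Finset.mem_univ _) h
  · intro σ _ hσ
    have h0 : ∃ b, b ≠ a ∧ σ b ≠ b := by
      by_contra hc
      push Not at hc
      apply hσ
      ext b
      rw [Equiv.Perm.one_apply]
      congr 1
      by_cases hb : b = a
      · subst hb
        by_contra hne
        have h2 := hc (σ b) hne
        exact hne (σ.injective h2)
      · exact hc b hb
    obtain ⟨b, hb, hσb⟩ := h0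
    have h1 : ∏ i, (Matrix.of fun a b : Fin (e + 1) => Polynomial.aeval
        (MvPolynomial.X b : MvPolynomial (Fin (e + 1)) ℂ) (fp c a)) (σ i) i =
        ∏ b, Polynomial.aeval (MvPolynomial.X b : MvPolynomial (Fin (e + 1)) ℂ)
          (fp c (σ b)) := rfl
    have h3 : MvPolynomial.coeff ν (∏ b, Polynomial.aeval
        (MvPolynomial.X b : MvPolynomial (Fin (e + 1)) ℂ) (fp c (σ b))) = 0 := by
      rw [coeff_prod]
      apply Finset.prod_eq_zero (Finset.mem_univ b)
      rw [hνb, if_neg hb, fp_coeff, if_neg, dif_neg (by omega), add_zero]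
      intro hh
      apply hσb
      apply Fin.ext
      omega
    rw [h1]
    rcases Int.units_eq_one_or (Equiv.Perm.sign σ) with hs | hs
    · rw [hs, one_smul, h3]
    · rw [hs, Units.neg_smul, one_smul, MvPolynomial.coeff_neg, h3, neg_zero]
  · intro h
    exact absurd (Finset.mem_univ _) h

end DTI_

theorem p_DTI : T_DTI := by
  intro e m c c' h
  have h1 : DTI_.pc c = DTI_.pc c' := by
    refine MvPolynomial.funext_set (fun _ : Fin (e + 1) => Set.range (fun r : ℝ => (r : ℂ)))
      (fun _ => Set.infinite_range_of_injective Complex.ofReal_injective) ?_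
    intro x hx
    have h2 : ∀ k, ∃ r : ℝ, (r : ℂ) = x k := fun k => hx k (Set.mem_univ k)
    choose y hy using h2
    have h3 : x = fun k => (y k : ℂ) := funext fun k => (hy k).symm
    rw [DTI_.eval_pc, DTI_.eval_pc, h3]
    exact h y
  funext a l
  rw [← DTI_.coeff_pc c a l, ← DTI_.coeff_pc c' a l, h1]

end

end Pool.Agent.KPW
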