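import Pool.Agent.KPW.Targets2

set_option autoImplicit false

/-!
# KPW-EGX: the eigenvector identity at all points, repetitions allowed
-/

open scoped BigOperators

namespace Pool.Agent.KPW

namespace EGX_

/-- the moved point -/
def mv {n : ℕ} (x : Fin n → ℂ) (s : ℂ) : Fin n → ℂ := fun k => x k + s * ((k : ℕ) : ℂ)

lemma mv_zero {n : ℕ} (x : Fin n → ℂ) : mv x 0 = x := by
  funext k
  simp [mv]

lemma mv_cont {n : ℕ} (x : Fin n → ℂ) : Continuous (mv x) := by
  refine continuous_pi fun k => ?_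
  unfold mv
  fun_prop

/-- Vandermonde of the moved point as a polynomial in `s` -/
noncomputable def vp {n : ℕ} (x : Fin n → ℂ) : Polynomial ℂ :=
  ∏ i : Fin n, ∏ j ∈ Finset.Ioi i,
    (Polynomial.C (x j - x i) + Polynomial.X * Polynomial.C (((j : ℕ) : ℂ) - ((i : ℕ) : ℂ)))

lemma vp_eval {n : ℕ} (x : Fin n → ℂ) (s : ℂ) : (vp x).eval s = vdm (mv x s) := by
  unfold vp vdm
  rw [Matrix.det_vandermonde, Polynomial.eval_prod]
  refine Finset.prod_congr rfl fun i _ => ?_
  rw [Polynomial.eval_prod]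
  refine Finset.prod_congr rfl fun j _ => ?_
  simp only [Polynomial.eval_add, Polynomial.eval_C, Polynomial.eval_mul, Polynomial.eval_X, mv]
  ring

lemma vp_ne {n : ℕ} (x : Fin n → ℂ) : vp x ≠ 0 := by
  unfold vp
  refine Finset.prod_ne_zero_iff.2 fun i _ => Finset.prod_ne_zero_iff.2 fun j hj => ?_
  intro h
  have h1 := congrArg (fun p => Polynomial.coeff p 1) h
  simp only [Polynomial.coeff_add, Polynomial.coeff_C, Polynomial.coeff_X_mul, Polynomial.coeff_zero] at h1
  rw [if_neg (by norm_num : ¬ (1 : ℕ) = 0), zero_add] at h1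
  have h2 : (i : ℕ) < (j : ℕ) := by
    have := Finset.mem_Ioi.1 hj
    exact this
  have h3 : ((j : ℕ) : ℂ) = ((i : ℕ) : ℂ) := sub_eq_zero.1 h1
  have h4 : (j : ℕ) = (i : ℕ) := by exact_mod_cast h3
  omega

lemma pr_cont {d N : ℕ} (φ : Tn d N) (w : Fin N → ℂ) (v : Tn d N) (X : ℂ → Fin d → ℂ)
    (hX : Continuous X) : Continuous (fun s => pr φ (Tx w (X s) v)) := by
  unfold pr Tx
  refine continuous_finsetSum _ fun i _ => ?_
  refine continuous_const.mul ((continuous_finsetProd _ fun l _ => ?_).mul continuous_const)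
  exact ((continuous_apply (i l)).comp hX).sub continuous_const

end EGX_

open EGX_ in
theorem p_EGX (h_WXV : T_WXV) (h_WXC : T_WXC) (h_DEN : T_DEN) : T_EGX := by
  intro e m c w v hE φ hφ x
  have hW : Continuous (fun s : ℂ => Wx c (mv x s)) := by
    have := h_WXC e m
    exact this.comp (continuous_const.prodMk (mv_cont x))
  have hA : Continuous (fun s : ℂ => pr φ (Tx w (mv x s) v)) := pr_cont φ w v (mv x) (mv_cont x)
  have hB : Continuous (fun s : ℂ => Wx c (mv x s) * pr φ v) := hW.mul continuous_const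
  have key := h_DEN (vp x) (vp_ne x) (fun s => pr φ (Tx w (mv x s) v)) (fun s => Wx c (mv x s) * pr φ v)
    hA hB (by
      intro s
      rw [vp_eval]
      have h1 := hE.2.2 φ hφ (mv x s)
      have h2 := h_WXV e m c (mv x s)
      rw [mul_sub, h1, ← h2]
      ring)
  have h0 := congrFun key 0
  simp only [mv_zero] at h0
  exact h0

end Pool.Agent.KPW
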