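import Pool.Agent.KPW.Targets

set_option autoImplicit false

/-!
# KPW-EXI: a nonzero invariant
-/

open scoped BigOperators

namespace Pool.Agent.KPW

noncomputable section

namespace EXI_

/-- the 0/1 matrix with the rows `e_(I a)` -/
private def dl {d : ℕ} (I : Fin d → Fin d) : Matrix (Fin d) (Fin d) ℂ :=
  Matrix.of fun a b : Fin d => if I a = b then (1 : ℂ) else 0

private lemma dl_mul {d : ℕ} (I : Fin d → Fin d) (g : Matrix (Fin d) (Fin d) ℂ) :
    dl I * g = Matrix.of fun a b : Fin d => g (I a) b := by
  ext a b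
  simp only [dl, Matrix.mul_apply, Matrix.of_apply, ite_mul, one_mul, zero_mul,
    Finset.sum_ite_eq, Finset.mem_univ, if_true]

private lemma key {d : ℕ} (I : Fin d → Fin d) (g : Matrix (Fin d) (Fin d) ℂ) :
    ∑ K : Fin d → Fin d, (∏ a, g (I a) (K a)) * (dl K).det = (dl I).det * g.det := by
  rw [← Matrix.det_mul, dl_mul]
  have h := (Matrix.detRowAlternating (R := ℂ) (n := Fin d)).toMultilinearMap.map_sum
    (fun (a : Fin d) (k : Fin d) => g (I a) k • (fun b : Fin d => if k = b then (1 : ℂ) else 0))
  have h1 : (fun a : Fin d => ∑ k : Fin d, g (I a) k • (fun b : Fin d => if k = b then (1 : ℂ) else 0)) =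
      (Matrix.of fun a b : Fin d => g (I a) b : Matrix (Fin d) (Fin d) ℂ) := by
    funext a b
    simp only [Finset.sum_apply, Pi.smul_apply, smul_eq_mul, mul_ite, mul_one, mul_zero,
      Finset.sum_ite_eq', Finset.mem_univ, if_true, Matrix.of_apply]
  rw [h1] at h
  have h2 : (Matrix.detRowAlternating (R := ℂ) (n := Fin d)).toMultilinearMap
      (Matrix.of fun a b : Fin d => g (I a) b : Matrix (Fin d) (Fin d) ℂ) =
      (Matrix.of fun a b : Fin d => g (I a) b : Matrix (Fin d) (Fin d) ℂ).det := rfl
  rw [h2] at h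
  rw [h]
  refine Finset.sum_congr rfl fun K _ => ?_
  rw [MultilinearMap.map_smul_univ]
  rfl

end EXI_

open EXI_ in
theorem p_EXI : T_EXI := by
  intro d m
  let E : Fin d × Fin m ≃ Fin (d * m) := finProdFinEquiv
  let R : (Fin (d * m) → Fin d) ≃ (Fin m → Fin d → Fin d) :=
    { toFun := fun j c a => j (E (a, c))
      invFun := fun J l => J (E.symm l).2 (E.symm l).1
      left_inv := by
        intro j
        funext l
        simp
      right_inv := by
        intro J
        funext c a
        simp }
  let v : Tn d (d * m) := fun i => ∏ c : Fin m, (dl (R i c)).det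
  refine ⟨v, ?_, ?_⟩
  · intro g
    funext i
    change ∑ j : Fin (d * m) → Fin d, (∏ l, g (i l) (j l)) * v j = g.det ^ m * v i
    have h1 : ∀ j : Fin (d * m) → Fin d, (∏ l, g (i l) (j l)) * v j =
        ∏ c : Fin m, ((∏ a, g (R i c a) (R j c a)) * (dl (R j c)).det) := by
      intro j
      rw [Finset.prod_mul_distrib]
      congr 1
      rw [← E.prod_comp, Fintype.prod_prod_type_right]
      rfl
    rw [Finset.sum_congr rfl fun j _ => h1 j,
      R.sum_comp fun J : Fin m → Fin d → Fin d =>
        ∏ c : Fin m, ((∏ a, g (R i c a) (J c a)) * (dl (J c)).det)]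
    have h2 := (Finset.prod_univ_sum (fun _ : Fin m => (Finset.univ : Finset (Fin d → Fin d)))
      (fun (c : Fin m) (K : Fin d → Fin d) => (∏ a, g (R i c a) (K a)) * (dl K).det))
    rw [Fintype.piFinset_univ] at h2
    rw [← h2]
    have h3 : ∀ c : Fin m, ∑ K : Fin d → Fin d, (∏ a, g (R i c a) (K a)) * (dl K).det =
        g.det * (dl (R i c)).det := by
      intro c
      rw [key, mul_comm]
    rw [Finset.prod_congr rfl fun c _ => h3 c, Finset.prod_mul_distrib, Finset.prod_const,
      Finset.card_univ, Fintype.card_fin]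
  · intro h
    have h1 := congrFun h (fun l => (E.symm l).1)
    have h2 : v (fun l => (E.symm l).1) = 1 := by
      change ∏ c : Fin m, (dl (R (fun l => (E.symm l).1) c)).det = 1
      apply Finset.prod_eq_one
      intro c _
      have : dl (R (fun l => (E.symm l).1) c) = (1 : Matrix (Fin d) (Fin d) ℂ) := by
        ext a b
        simp [dl, R, Matrix.one_apply]
      rw [this, Matrix.det_one]
    rw [h2] at h1
    exact one_ne_zero h1

end

end Pool.Agent.KPW
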