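import Pool.Agent.KPW.Targets

/-!
# KPW: the row operators are linear, symmetric and preserve the invariants; shifts
-/

set_option autoImplicit false

open scoped BigOperators

namespace Pool.Agent.KPW

namespace FIN_

lemma pm_add {d N : ℕ} (σ : Equiv.Perm (Fin N)) (v v' : Tn d N) :
    pm σ (v + v') = pm σ v + pm σ v' := rfl

lemma pm_smul {d N : ℕ} (σ : Equiv.Perm (Fin N)) (s : ℂ) (v : Tn d N) :
    pm σ (s • v) = s • pm σ v := rfl

lemma pr_smul_right {d N : ℕ} (s : ℂ) (φ v : Tn d N) : pr φ (s • v) = s * pr φ v := by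
  simp only [pr, Pi.smul_apply, smul_eq_mul, Finset.mul_sum]
  exact Finset.sum_congr rfl fun i _ => by ring

lemma pr_smul_left {d N : ℕ} (s : ℂ) (φ v : Tn d N) : pr (s • φ) v = s * pr φ v := by
  simp only [pr, Pi.smul_apply, smul_eq_mul, Finset.mul_sum]
  exact Finset.sum_congr rfl fun i _ => by ring

lemma pr_sum_right {d N : ℕ} {ι : Type} (S : Finset ι) (φ : Tn d N) (v : ι → Tn d N) :
    pr φ (∑ k ∈ S, v k) = ∑ k ∈ S, pr φ (v k) := by
  simp only [pr, Finset.sum_apply, Finset.mul_sum]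
  exact Finset.sum_comm

lemma pr_sum_left {d N : ℕ} {ι : Type} (S : Finset ι) (φ : ι → Tn d N) (v : Tn d N) :
    pr (∑ k ∈ S, φ k) v = ∑ k ∈ S, pr (φ k) v := by
  simp only [pr, Finset.sum_apply, Finset.sum_mul]
  exact Finset.sum_comm

/-- the permutations of `B` -/
lemma inv_mem {N : ℕ} (B : Finset (Fin N)) (σ : Equiv.Perm (Fin N)) (h : ∀ l, l ∉ B → σ l = l) :
    ∀ l, l ∉ B → σ⁻¹ l = l := by
  intro l hl
  rw [Equiv.Perm.inv_eq_iff_eq]
  exact (h l hl).symm

lemma sum_inv {d N : ℕ} (B : Finset (Fin N)) (φ v : Tn d N) :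
    ∑ σ ∈ (Finset.univ.filter fun σ : Equiv.Perm (Fin N) => ∀ l, l ∉ B → σ l = l),
      pr (pm σ⁻¹ φ) v =
    ∑ σ ∈ (Finset.univ.filter fun σ : Equiv.Perm (Fin N) => ∀ l, l ∉ B → σ l = l),
      pr (pm σ φ) v := by
  refine Finset.sum_nbij' (fun σ => σ⁻¹) (fun σ => σ⁻¹) ?_ ?_ ?_ ?_ ?_
  · intro σ hσ
    rw [Finset.mem_filter] at hσ ⊢
    exact ⟨Finset.mem_univ _, inv_mem B σ hσ.2⟩
  · intro σ hσ
    rw [Finset.mem_filter] at hσ ⊢
    exact ⟨Finset.mem_univ _, inv_mem B σ hσ.2⟩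
  · intro σ _
    exact inv_inv σ
  · intro σ _
    exact inv_inv σ
  · intro σ _
    rfl

lemma pm_mem {d m N : ℕ} (h_DIA : T_DIA) (σ : Equiv.Perm (Fin N)) (v : Tn d N)
    (hv : v ∈ Inv d m N) : pm σ v ∈ Inv d m N := by
  intro g
  rw [(h_DIA d N (fun _ => 0) (fun _ => 0) v v).2.2.1 g σ, hv g, pm_smul]

end FIN_

open FIN_ in
/-- linearity, symmetry, invariants, shifts -/
theorem p_FIN (h_DIA : T_DIA) : T_FIN := by
  intro e N w u x
  refine ⟨?_, ?_, ?_, ?_, ?_, ?_⟩
  · intro v v'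
    simp only [Fr, pm_add, Finset.sum_add_distrib, smul_add]
  · intro s v
    simp only [Fr, pm_smul, ← Finset.smul_sum]
    rw [Finset.smul_sum]
    exact Finset.sum_congr rfl fun B _ => smul_comm _ _ _
  · intro φ v
    simp only [Fr]
    rw [pr_sum_right, pr_sum_left]
    refine Finset.sum_congr rfl fun B _ => ?_
    rw [pr_smul_right, pr_smul_left, pr_sum_right, pr_sum_left, ← sum_inv B φ v]
    congr 1
    exact Finset.sum_congr rfl fun σ _ => (h_DIA (e + 1) N w (fun _ => 0) φ v).2.2.2.1 σ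
  · intro m v hv
    exact Submodule.sum_mem _ fun B _ => Submodule.smul_mem _ _
      (Submodule.sum_mem _ fun σ _ => pm_mem h_DIA σ v hv)
  · intro v
    simp only [Fr]
    refine Finset.sum_congr rfl fun B _ => ?_
    congr 2
    · exact Finset.prod_congr rfl fun l _ => by ring
    · rw [sub_zero]
  · intro y v
    funext i
    simp only [Tx]
    congr 1
    exact Finset.prod_congr rfl fun l _ => by ring

end Pool.Agent.KPW
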