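import Pool.Agent.KPW.Targets2

set_option autoImplicit false

open scoped BigOperators
open Filter Topology

namespace Pool.Agent.KPW

lemma FPM_pm_smul {d N : ℕ} (σ : Equiv.Perm (Fin N)) (s : ℂ) (v : Tn d N) :
    pm σ (s • v) = s • pm σ v := by
  funext i
  simp only [pm, Pi.smul_apply]

lemma FPM_pr {d N : ℕ} (σ : Equiv.Perm (Fin N)) (φ v : Tn d N) : pr (pm σ φ) (pm σ v) = pr φ v := by
  unfold pr pm
  exact Fintype.sum_bijective (fun i : Fin N → Fin d => i ∘ σ)
    ((Equiv.arrowCongr σ.symm (Equiv.refl (Fin d))).bijective) _ _ (fun i => rfl)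

theorem FPM_inner {d N : ℕ} (σ : Equiv.Perm (Fin N)) (v : Tn d N) (B : Finset (Fin N)) (i : Fin N → Fin d) :
    ∑ τ ∈ (Finset.univ.filter fun τ : Equiv.Perm (Fin N) => ∀ l, l ∉ B → τ l = l), v (i ∘ σ ∘ τ) =
    ∑ τ ∈ (Finset.univ.filter fun τ : Equiv.Perm (Fin N) => ∀ l, l ∉ B.map σ.toEmbedding → τ l = l),
      v (i ∘ τ ∘ σ) := by
  refine Finset.sum_bij' (fun τ _ => σ * τ * σ⁻¹) (fun τ _ => σ⁻¹ * τ * σ) ?_ ?_ ?_ ?_ ?_
  · intro τ hτ
    rw [Finset.mem_filter] at hτ ⊢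
    refine ⟨Finset.mem_univ _, fun l hl => ?_⟩
    have h1 : σ⁻¹ l ∉ B := by
      intro h
      apply hl
      rw [Finset.mem_map]
      exact ⟨σ⁻¹ l, h, by simp⟩
    have h2 := hτ.2 _ h1
    simp only [Equiv.Perm.mul_apply, h2]
    exact σ.apply_symm_apply l
  · intro τ hτ
    rw [Finset.mem_filter] at hτ ⊢
    refine ⟨Finset.mem_univ _, fun l hl => ?_⟩
    have h1 : σ l ∉ B.map σ.toEmbedding := by
      intro h
      rw [Finset.mem_map] at h
      obtain ⟨a, ha, hb⟩ := h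
      have : a = l := σ.injective hb
      exact hl (this ▸ ha)
    have h2 := hτ.2 _ h1
    simp only [Equiv.Perm.mul_apply, h2]
    exact σ.symm_apply_apply l
  · intro τ _
    group
  · intro τ _
    group
  · intro τ _
    congr 1
    funext l
    simp [Function.comp, Equiv.Perm.mul_apply]

theorem p_FPM (h_DIA : T_DIA) : T_FPM := by
  intro e m N σ w φ v
  refine ⟨?_, ?_, FPM_pr σ φ v⟩
  · intro hv g
    have h := (h_DIA (e + 1) N w (fun _ => 0) φ v).2.2.1 g σ
    rw [h, hv g, FPM_pm_smul]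
  · intro u x
    funext i
    have e1 : pm σ (Fr w u x v) i = ∑ B : Finset (Fin N),
        ((∏ l ∈ Bᶜ, (u - w l)) * ((x - u) ^ (B.card + e) / (Nat.factorial (B.card + e) : ℂ))) *
        ∑ τ ∈ (Finset.univ.filter fun τ : Equiv.Perm (Fin N) => ∀ l, l ∉ B → τ l = l), v (i ∘ σ ∘ τ) := by
      simp only [pm, Fr, Finset.sum_apply, Pi.smul_apply, smul_eq_mul]
      rfl
    have e2 : Fr (w ∘ σ.symm) u x (pm σ v) i = ∑ B : Finset (Fin N),
        ((∏ l ∈ Bᶜ, (u - w (σ.symm l))) * ((x - u) ^ (B.card + e) / (Nat.factorial (B.card + e) : ℂ))) *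
        ∑ τ ∈ (Finset.univ.filter fun τ : Equiv.Perm (Fin N) => ∀ l, l ∉ B → τ l = l), v (i ∘ τ ∘ σ) := by
      simp only [pm, Fr, Finset.sum_apply, Pi.smul_apply, smul_eq_mul]
      rfl
    rw [e1, e2]
    refine Fintype.sum_equiv (Equiv.finsetCongr σ) _ _ ?_
    intro B
    rw [Equiv.finsetCongr_apply, Finset.card_map, FPM_inner]
    congr 2
    refine Finset.prod_bij' (fun l _ => σ l) (fun l _ => σ.symm l) ?_ ?_ ?_ ?_ ?_
    · intro l hl
      rw [Finset.mem_compl] at hl ⊢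
      intro h
      rw [Finset.mem_map] at h
      obtain ⟨a, ha, hb⟩ := h
      have : a = l := σ.injective hb
      exact hl (this ▸ ha)
    · intro l hl
      rw [Finset.mem_compl] at hl ⊢
      intro h
      apply hl
      rw [Finset.mem_map]
      exact ⟨σ.symm l, h, by simp⟩
    · intro l _
      simp
    · intro l _
      simp
    · intro l _
      simp

end Pool.Agent.KPW
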