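import Pool.Agent.KPW.Targets2

set_option autoImplicit false

/-!
# KPW-GLO: global proportionality to `dt c`
-/

open Filter Topology

namespace Pool.Agent.KPW

theorem GLO_poly {e m : ℕ} (c : Fin (e + 1) → Fin m → ℂ) (q : Fin (e + 1) → Polynomial ℂ) (t : ℂ) :
    (Matrix.det (Matrix.of fun a k : Fin (e + 1) => (fp c a).comp (q k))).eval t =
      dt c (fun k => (q k).eval t) := by
  have h := RingHom.map_det (Polynomial.evalRingHom t)
    (Matrix.of fun a k : Fin (e + 1) => (fp c a).comp (q k))
  rw [Polynomial.coe_evalRingHom] at h
  rw [h]
  unfold dt
  congr 1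
  ext a k
  simp [Polynomial.eval_comp]

theorem p_GLO (h_DEN : T_DEN) : T_GLO := by
  intro e m c Ψ hΨ h y0 hy0
  have key : ∀ j : ℕ, j ≤ e + 1 → ∀ y : Fin (e + 1) → ℂ, (∀ k : Fin (e + 1), j ≤ (k : ℕ) → y k = y0 k) →
      dt c y0 * Ψ y = Ψ y0 * dt c y := by
    intro j
    induction j with
    | zero =>
      intro _ y hy
      have : y = y0 := funext fun k => hy k (Nat.zero_le _)
      rw [this, mul_comm]
    | succ j ih =>
      intro hj y hy
      have hj' : j < e + 1 := hj
      set b : Fin (e + 1) := ⟨j, hj'⟩ with hb
      set q : Fin (e + 1) → Polynomial ℂ := fun k =>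
        Polynomial.C (y0 k) + Polynomial.X * Polynomial.C (y k - y0 k) with hq
      set q' : Fin (e + 1) → Polynomial ℂ := Function.update q b (Polynomial.C (y0 b)) with hq'
      set z : ℂ → Fin (e + 1) → ℂ := fun t k => (q k).eval t with hz
      set z' : ℂ → Fin (e + 1) → ℂ := fun t k => (q' k).eval t with hz'
      have hz1 : ∀ t k, z t k = y0 k + t * (y k - y0 k) := by
        intro t k
        simp [hz, hq]
      have hz'1 : ∀ t, z' t = Function.update (z t) b (y0 b) := by
        intro t
        funext k
        by_cases hk : k = b
        · subst hk
          simp [hz', hq']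
        · simp [hz', hq', hz, Function.update_of_ne hk]
      have hup : ∀ t, Function.update (z' t) b (z t b) = z t := by
        intro t
        rw [hz'1, Function.update_idem, Function.update_eq_self]
      have h1 : ∀ t, dt c y0 * Ψ (z' t) = Ψ y0 * dt c (z' t) := by
        intro t
        refine ih (by omega) (z' t) ?_
        intro k hk
        rw [hz'1]
        by_cases hkb : k = b
        · subst hkb
          simp
        · rw [Function.update_of_ne hkb, hz1]
          have hk2 : j + 1 ≤ (k : ℕ) := by
            have : (k : ℕ) ≠ j := fun h3 => hkb (Fin.ext h3)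
            omega
          rw [hy k hk2]
          ring
      have h2 : ∀ t, dt c (z' t) * Ψ (z t) = dt c (z t) * Ψ (z' t) := by
        intro t
        have := h (z' t) b (z t b)
        rwa [hup t] at this
      set p : Polynomial ℂ := Matrix.det (Matrix.of fun a k : Fin (e + 1) => (fp c a).comp (q' k)) with hp
      have hpe : ∀ t, p.eval t = dt c (z' t) := fun t => GLO_poly c q' t
      have hz0 : z' 0 = y0 := by
        rw [hz'1]
        funext k
        by_cases hk : k = b
        · subst hk
          simp
        · rw [Function.update_of_ne hk, hz1]
          ring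
      have hp0 : p ≠ 0 := by
        intro h0
        have := hpe 0
        rw [h0, Polynomial.eval_zero, hz0] at this
        exact hy0 this.symm
      have hzc : Continuous z := by
        refine continuous_pi fun k => ?_
        exact (q k).continuous
      have hA : Continuous fun t => dt c y0 * Ψ (z t) := continuous_const.mul (hΨ.comp hzc)
      have hB : Continuous fun t => Ψ y0 * dt c (z t) := by
        have : (fun t => Ψ y0 * dt c (z t)) = fun t => Ψ y0 *
            (Matrix.det (Matrix.of fun a k : Fin (e + 1) => (fp c a).comp (q k))).eval t := by
          funext t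
          rw [GLO_poly]
        rw [this]
        exact continuous_const.mul (Polynomial.continuous _)
      have h3 := h_DEN p hp0 (fun t => dt c y0 * Ψ (z t)) (fun t => Ψ y0 * dt c (z t)) hA hB (by
        intro t
        rw [hpe]
        have e1 := h1 t
        have e2 := h2 t
        linear_combination (dt c y0) * e2 + (dt c (z t)) * e1)
      have h4 := congrFun h3 1
      have hzy : z 1 = y := by
        funext k
        rw [hz1]
        ring
      simpa [hzy] using h4
  intro y
  exact key (e + 1) le_rfl y fun k hk => absurd k.2 (by omega)

end Pool.Agent.KPW
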