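import Pool.Agent.KPW.Targets

set_option autoImplicit false

/-!
# KPW-HHH: the identity (H) for all points
-/

open scoped BigOperators

namespace Pool.Agent.KPW

noncomputable section

namespace HHH_

lemma vdm_shift {n : ℕ} (x : Fin n → ℂ) (u : ℂ) : vdm (fun k => x k - u) = vdm x := by
  simp only [vdm, Matrix.det_vandermonde, sub_sub_sub_cancel_right]

/-- the case of distinct nonzero coordinates -/
lemma core (h_HHX : T_HHX) (h_VRM : T_VRM) (e m N : ℕ) (w : Fin N → ℂ) (x : Fin (e + 2) → ℂ)
    (hx : Function.Injective x) (h0 : ∀ k, x k ≠ 0) (φ v : Tn (e + 1) N)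
    (hφ : φ ∈ Inv (e + 1) m N) (hv : v ∈ Inv (e + 1) m N) :
    ∑ i : Fin (e + 2), (-1 : ℂ) ^ (i : ℕ) * vdm (rm x i) *
      pr φ (Fr w 0 (x i) (Tx w (rm x i) v)) = 0 := by
  have h := h_HHX e m N w x hx h0 φ hφ v hv
  have h2 : ∑ i : Fin (e + 2), ((-1 : ℂ) ^ (e + 1) * vdm x) * (1 / (∏ k, (x i - rm x i k)) *
      pr φ (Fr w 0 (x i) (Tx w (rm x i) v))) = 0 := by
    rw [← Finset.mul_sum, h, mul_zero]
  refine Eq.trans ?_ h2
  refine Finset.sum_congr rfl fun i _ => ?_
  have hp : (∏ k, (x i - rm x i k)) ≠ 0 := by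
    rw [Finset.prod_ne_zero_iff]
    intro k _
    rw [sub_ne_zero]
    intro hk
    exact (Fin.succAbove_ne i k) (hx hk).symm
  rw [← h_VRM e x i]
  field_simp

/-- the case `u = 0` -/
lemma zero (h_HHX : T_HHX) (h_VRM : T_VRM) (h_DEN : T_DEN) (e m N : ℕ) (w : Fin N → ℂ)
    (x : Fin (e + 2) → ℂ) (φ v : Tn (e + 1) N)
    (hφ : φ ∈ Inv (e + 1) m N) (hv : v ∈ Inv (e + 1) m N) :
    ∑ i : Fin (e + 2), (-1 : ℂ) ^ (i : ℕ) * vdm (rm x i) *
      pr φ (Fr w 0 (x i) (Tx w (rm x i) v)) = 0 := by
  classical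
  let y : ℂ → Fin (e + 2) → ℂ := fun s k => x k + s * ((k : ℕ) + 1 : ℂ)
  let A : ℂ → ℂ := fun s => ∑ i : Fin (e + 2), (-1 : ℂ) ^ (i : ℕ) * vdm (rm (y s) i) *
      pr φ (Fr w 0 (y s i) (Tx w (rm (y s) i) v))
  let p : Polynomial ℂ := (∏ i : Fin (e + 2), ∏ k : Fin (e + 2), if i = k then 1 else
      (Polynomial.C (x k - x i) + Polynomial.C (((k : ℕ) : ℂ) - ((i : ℕ) : ℂ)) * Polynomial.X)) *
      ∏ k : Fin (e + 2), (Polynomial.C (x k) + Polynomial.C ((k : ℕ) + 1 : ℂ) * Polynomial.X)
  have hlin : ∀ a b : ℂ, b ≠ 0 →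
      (Polynomial.C a + Polynomial.C b * Polynomial.X : Polynomial ℂ) ≠ 0 := by
    intro a b hb h
    have := congrArg (fun q : Polynomial ℂ => q.coeff 1) h
    simp at this
    exact hb this
  have hp : p ≠ 0 := by
    refine mul_ne_zero ?_ ?_
    · rw [Finset.prod_ne_zero_iff]
      intro i _
      rw [Finset.prod_ne_zero_iff]
      intro k _
      split_ifs with hik
      · exact one_ne_zero
      · refine hlin _ _ ?_
        rw [sub_ne_zero]
        intro h
        exact hik (Fin.ext (by exact_mod_cast h.symm))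
    · rw [Finset.prod_ne_zero_iff]
      intro k _
      exact hlin _ _ (by exact_mod_cast Nat.succ_ne_zero (k : ℕ))
  have hy : ∀ i : Fin (e + 2), Continuous fun s => y s i := by
    intro i
    exact continuous_const.add (continuous_id.mul continuous_const)
  have hA : Continuous A := by
    refine continuous_finsetSum _ fun i _ => ?_
    refine (continuous_const.mul ?_).mul ?_
    · simp only [vdm, Matrix.det_vandermonde, rm]
      refine continuous_finsetProd _ fun j _ => continuous_finsetProd _ fun k _ => ?_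
      exact (hy _).sub (hy _)
    · simp only [pr, Fr, Tx, pm, Finset.sum_apply, Pi.smul_apply, smul_eq_mul, rm]
      refine continuous_finsetSum _ fun j _ => continuous_const.mul ?_
      refine continuous_finsetSum _ fun B _ => ?_
      refine (continuous_const.mul ?_).mul ?_
      · exact (((hy _).sub continuous_const).pow _).div_const _
      · refine continuous_finsetSum _ fun σ _ => ?_
        refine Continuous.mul ?_ continuous_const
        refine continuous_finsetProd _ fun l _ => ?_
        exact (hy _).sub continuous_const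
  have h := h_DEN p hp A (fun _ => 0) hA continuous_const (by
    intro s
    by_cases hs : p.eval s = 0
    · rw [hs, zero_mul]
    have hs1 : ∀ i k : Fin (e + 2), i ≠ k →
        (x k - x i) + (((k : ℕ) : ℂ) - ((i : ℕ) : ℂ)) * s ≠ 0 := by
      intro i k hik h0
      apply hs
      simp only [p, Polynomial.eval_mul, Polynomial.eval_prod]
      refine mul_eq_zero_of_left ?_ _
      refine Finset.prod_eq_zero (Finset.mem_univ i) ?_
      refine Finset.prod_eq_zero (Finset.mem_univ k) ?_
      rw [if_neg hik]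
      simpa using h0
    have hs2 : ∀ k : Fin (e + 2), x k + ((k : ℕ) + 1 : ℂ) * s ≠ 0 := by
      intro k h0
      apply hs
      simp only [p, Polynomial.eval_mul, Polynomial.eval_prod]
      refine mul_eq_zero_of_right _ ?_
      refine Finset.prod_eq_zero (Finset.mem_univ k) ?_
      simpa using h0
    have hin : Function.Injective (y s) := by
      intro i k hik
      by_contra hne
      apply hs1 i k hne
      have : x i + s * ((i : ℕ) + 1 : ℂ) = x k + s * ((k : ℕ) + 1 : ℂ) := hik
      linear_combination -this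
    have hnz : ∀ k, y s k ≠ 0 := by
      intro k h0
      apply hs2 k
      have : x k + s * ((k : ℕ) + 1 : ℂ) = 0 := h0
      linear_combination this
    have := core h_HHX h_VRM e m N w (y s) hin hnz φ v hφ hv
    have h3 : A s = 0 := this
    rw [h3, sub_zero, mul_zero])
  have h0 := congrFun h 0
  have hy0 : y 0 = x := by
    funext k
    simp [y]
  have hA0 : A 0 = ∑ i : Fin (e + 2), (-1 : ℂ) ^ (i : ℕ) * vdm (rm x i) *
      pr φ (Fr w 0 (x i) (Tx w (rm x i) v)) := by
    simp only [A, hy0]
  rw [← hA0]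
  exact h0

end HHH_

open HHH_ in
theorem p_HHH (h_HHX : T_HHX) (h_VRM : T_VRM) (h_DEN : T_DEN) (h_FIN : T_FIN) : T_HHH := by
  intro e m N w u x φ hφ v hv
  have h := zero h_HHX h_VRM h_DEN e m N (fun l => w l - u) (fun k => x k - u) φ v hφ hv
  rw [← h]
  refine Finset.sum_congr rfl fun i _ => ?_
  have h5 := (h_FIN e N w u (x i)).2.2.2.2.1
  have h6 := (h_FIN e N w u (x i)).2.2.2.2.2
  have hr : rm (fun k => x k - u) i = fun k => rm x i k - u := rfl
  rw [hr, vdm_shift, ← h6 (rm x i) v, ← h5]

end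

end Pool.Agent.KPW
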