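import Pool.Agent.KPW.Targets

set_option autoImplicit false

/-!
# KPW-HHX: the identity (H) for distinct nonzero points
-/

open scoped BigOperators

namespace Pool.Agent.KPW

noncomputable section

namespace HHX_

/-- the polynomial in `c` -/
def PP {e N : ℕ} (w : Fin N → ℂ) (x : Fin (e + 2) → ℂ) (φ v : Tn (e + 1) N) :
    MvPolynomial (Fin (e + 2)) ℂ :=
  ∑ i : Fin N → Fin (e + 1), MvPolynomial.C (φ i) * ∑ j : Fin N → Fin (e + 1),
    (∏ l, (MvPolynomial.C (rm x 0 (i l) - w l) *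
      (MvPolynomial.X ((0 : Fin (e + 2)).succAbove (i l)) * MvPolynomial.C (x 0 - rm x 0 (j l)) -
        MvPolynomial.C (if i l = j l then w l else 0)))) * MvPolynomial.C (v j)

lemma entry {e : ℕ} (x c : Fin (e + 2) → ℂ) (z : ℂ) (a b : Fin (e + 1)) :
    ((Dm x 0 - z • (1 : Matrix (Fin (e + 1)) (Fin (e + 1)) ℂ)) *
      (Ym x c 0 - z • (1 : Matrix (Fin (e + 1)) (Fin (e + 1)) ℂ))) a b =
    (rm x 0 a - z) * (c ((0 : Fin (e + 2)).succAbove a) * (x 0 - rm x 0 b) -
      (if a = b then z else 0)) := by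
  have h1 : (Dm x 0 - z • (1 : Matrix (Fin (e + 1)) (Fin (e + 1)) ℂ)) =
      Matrix.diagonal (fun k => rm x 0 k - z) := by
    ext p q
    by_cases h : p = q
    · subst h; simp [Dm]
    · simp [Dm, h]
  rw [h1, Matrix.diagonal_mul]
  congr 1
  rw [Matrix.sub_apply, Ym, Matrix.vecMulVec_apply, Matrix.smul_apply, Matrix.one_apply, rm]
  simp only [smul_eq_mul, mul_ite, mul_one, mul_zero]

lemma eval_PP {e N : ℕ} (w : Fin N → ℂ) (x : Fin (e + 2) → ℂ) (φ v : Tn (e + 1) N)
    (c : Fin (e + 2) → ℂ) :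
    MvPolynomial.eval c (PP w x φ v) =
      pr φ (act (fun l => (Dm x 0 - w l • (1 : Matrix (Fin (e + 1)) (Fin (e + 1)) ℂ)) *
        (Ym x c 0 - w l • (1 : Matrix (Fin (e + 1)) (Fin (e + 1)) ℂ))) v) := by
  simp only [PP, pr, act, map_sum, map_mul, map_prod, map_sub, MvPolynomial.eval_C,
    MvPolynomial.eval_X, entry]

lemma eval_aev {n k : ℕ} (r : Fin k → ℂ) (f : Fin n → MvPolynomial (Fin k) ℂ)
    (P : MvPolynomial (Fin n) ℂ) :
    MvPolynomial.eval r (MvPolynomial.aeval f P) =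
      MvPolynomial.eval (fun p => MvPolynomial.eval r (f p)) P := by
  induction P using MvPolynomial.induction_on with
  | C a => simp
  | add p q hp hq => rw [map_add, map_add, map_add, hp, hq]
  | mul_X p i hp =>
    rw [map_mul, map_mul, map_mul, hp, MvPolynomial.aeval_X, MvPolynomial.eval_X]

lemma cf_self {e : ℕ} (x : Fin (e + 2) → ℂ) (i : Fin (e + 2)) (r : Fin (e + 1) → ℂ) :
    MvPolynomial.eval r (cf x i i) =
      ∑ k, (- rm x i k / (x i * (x i - rm x i k))) * r k := by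
  simp [cf, map_sum]

lemma cf_above {e : ℕ} (x : Fin (e + 2) → ℂ) (i : Fin (e + 2)) (k : Fin (e + 1))
    (r : Fin (e + 1) → ℂ) :
    MvPolynomial.eval r (cf x i (i.succAbove k)) = 1 / (x i - rm x i k) * r k := by
  simp [cf]

end HHX_

open HHX_

theorem p_HHX (h_LAM : T_LAM) (h_NFM : T_NFM) (h_LMH : T_LMH) (h_KKK : T_KKK) (h_BAL : T_BAL)
    (h_DIA : T_DIA) : T_HHX := by
  intro e m N w x hx hx0 φ hφ v hv
  have hne : ∀ (i : Fin (e + 2)) (k : Fin (e + 1)), x i - rm x i k ≠ 0 := by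
    intro i k h
    have h1 : x i = x (i.succAbove k) := sub_eq_zero.1 h
    exact (Fin.succAbove_ne i k) (hx h1).symm
  refine Eq.trans (Finset.sum_congr rfl fun i _ => ?_) (h_KKK e x hx hx0 (PP w x φ v))
  congr 1
  have hb : BalT m (Tx w (rm x i) v) := by
    intro j hj
    apply h_BAL _ _ _ v hv
    intro h0
    apply hj
    rw [Tx, h0, mul_zero]
  obtain ⟨p, hp1, hp2⟩ := h_LAM e m N w (x i) φ (Tx w (rm x i) v) (h_BAL _ _ _ φ hφ) hb
  rw [← hp2]
  apply h_LMH
  intro r hr
  rw [eval_aev]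
  set c : Fin (e + 2) → ℂ := fun p => MvPolynomial.eval r (cf x i p) with hc
  have hci : c i = ∑ k, (- rm x i k / (x i * (x i - rm x i k))) * r k := cf_self x i r
  have hca : ∀ k, c (i.succAbove k) = 1 / (x i - rm x i k) * r k := fun k => cf_above x i k r
  have hs1 : ∑ k, c k = 1 := by
    rw [Fin.sum_univ_succAbove _ i, hci, ← Finset.sum_add_distrib]
    rw [← div_self (hx0 i)]
    conv_rhs => rw [← hr]
    have hq : x i ≠ 0 := hx0 i
    rw [hr, Finset.sum_congr rfl (g := fun k => r k / x i), ← Finset.sum_div, hr]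
    intro k _
    rw [hca]
    have := hne i k
    field_simp
    ring
  have hs2 : ∑ k, c k * x k = 0 := by
    rw [Fin.sum_univ_succAbove _ i, hci, Finset.sum_mul, ← Finset.sum_add_distrib]
    refine Finset.sum_eq_zero fun k _ => ?_
    rw [hca]
    have h1 := hne i k
    have h2 := hx0 i
    change _ + _ * rm x i k = 0
    field_simp
    ring
  have hr2 : r = fun k => rm c i k * (x i - rm x i k) := by
    funext k
    change r k = c (i.succAbove k) * (x i - rm x i k)
    rw [hca]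
    have h1 := hne i k
    field_simp
  have e1 : MvPolynomial.eval r p = pr φ (act (fun l => Matrix.vecMulVec (rm c i)
      (fun k => x i - rm x i k) - w l • (1 : Matrix (Fin (e + 1)) (Fin (e + 1)) ℂ))
      (Tx w (rm x i) v)) := by
    rw [← hp1, ← hr2]
  rw [e1, ((h_DIA (e + 1) N w (rm x i) φ v).2.2.2.2 _).1, eval_PP]
  exact h_NFM e m N w x c hs1 hs2 hx hx0 i φ hφ v hv

end

end Pool.Agent.KPW
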