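import Pool.Agent.KPW.Targets2

/-!
# KPW-HPL: the determinant as a polynomial in the coefficients
-/

set_option autoImplicit false

open scoped BigOperators
open Filter Topology

namespace Pool.Agent.KPW

noncomputable section

namespace HPL_

/-- the coefficient ring -/
abbrev R (e m : ℕ) : Type := MvPolynomial (Fin (e + 1) × Fin m) ℂ

section

variable {e m : ℕ}

/-- evaluation at `c` -/
def ec (c : Fin (e + 1) → Fin m → ℂ) : R e m →+* ℂ := MvPolynomial.eval (fun p => c p.1 p.2)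

/-- evaluation at `c`, `w` -/
def ev {N : ℕ} (c : Fin (e + 1) → Fin m → ℂ) (w : Fin N → ℂ) : MvPolynomial (Fin N) (R e m) →+* ℂ :=
  MvPolynomial.eval₂Hom (ec c) w

theorem ec_C (c : Fin (e + 1) → Fin m → ℂ) (s : ℂ) : ec c (MvPolynomial.C s) = s := by
  simp [ec]

theorem ec_X (c : Fin (e + 1) → Fin m → ℂ) (a : Fin (e + 1)) (l : Fin m) :
    ec c (MvPolynomial.X (a, l)) = c a l := by
  simp [ec]

theorem ev_C {N : ℕ} (c : Fin (e + 1) → Fin m → ℂ) (w : Fin N → ℂ) (s : R e m) :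
    ev c w (MvPolynomial.C s) = ec c s := by
  simp [ev]

theorem ev_X {N : ℕ} (c : Fin (e + 1) → Fin m → ℂ) (w : Fin N → ℂ) (l : Fin N) :
    ev c w (MvPolynomial.X l : MvPolynomial (Fin N) (R e m)) = w l := by
  simp [ev]

theorem ext_ev {N : ℕ} {p q : MvPolynomial (Fin N) (R e m)}
    (h : ∀ (c : Fin (e + 1) → Fin m → ℂ) (w : Fin N → ℂ), ev c w p = ev c w q) : p = q := by
  apply MvPolynomial.ext
  intro d
  apply MvPolynomial.funext
  intro c'
  have h1 : MvPolynomial.map (ec fun a l => c' (a, l)) p =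
      MvPolynomial.map (ec fun a l => c' (a, l)) q := by
    apply MvPolynomial.funext
    intro w
    rw [MvPolynomial.eval_map, MvPolynomial.eval_map]
    exact h (fun a l => c' (a, l)) w
  have h2 := congrArg (MvPolynomial.coeff d) h1
  rw [MvPolynomial.coeff_map, MvPolynomial.coeff_map] at h2
  exact h2

/-! ### `lm` as a polynomial in `c` -/

/-- the value of a linear functional on `fp` -/
def lin (l : Polynomial ℂ →ₗ[ℂ] ℂ) (a : Fin (e + 1)) : R e m :=
  MvPolynomial.C (l (Polynomial.X ^ (m + (a : ℕ)))) +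
    ∑ k : Fin m, MvPolynomial.X (a, k) * MvPolynomial.C (l (Polynomial.X ^ (k : ℕ)))

theorem ec_lin (l : Polynomial ℂ →ₗ[ℂ] ℂ) (a : Fin (e + 1)) (c : Fin (e + 1) → Fin m → ℂ) :
    ec c (lin l a) = l (fp c a) := by
  unfold lin fp
  rw [map_add, map_add, ec_C, map_sum, map_sum]
  congr 1
  refine Finset.sum_congr rfl fun k _ => ?_
  rw [map_mul, ec_C, ec_X, Polynomial.C_mul', map_smul, smul_eq_mul]

/-- the functional of the column `b` -/
def fn (u x : ℂ) (b : Fin (e + 1)) : Polynomial ℂ →ₗ[ℂ] ℂ :=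
  if b = Fin.last e then Polynomial.leval x
    else (Polynomial.leval u).comp ((Polynomial.derivative : Polynomial ℂ →ₗ[ℂ] Polynomial ℂ) ^ (b : ℕ))

theorem fn_apply (u x : ℂ) (b : Fin (e + 1)) (p : Polynomial ℂ) :
    fn u x b p = if b = Fin.last e then p.eval x else (Polynomial.derivative^[(b : ℕ)] p).eval u := by
  unfold fn
  split_ifs
  · rfl
  · rw [LinearMap.comp_apply, Module.End.pow_apply]
    rfl

/-- `lm` as a polynomial -/
def lmR (m : ℕ) (u x : ℂ) : R e m :=
  MvPolynomial.C ((∏ a : Fin (e + 1), (Nat.factorial (a : ℕ) : ℂ))⁻¹) *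
    Matrix.det (Matrix.of fun a b : Fin (e + 1) => (lin (fn u x b) a : R e m))

theorem ec_lmR (u x : ℂ) (c : Fin (e + 1) → Fin m → ℂ) : ec c (lmR m u x) = lm c u x := by
  unfold lmR lm
  rw [map_mul, ec_C, RingHom.map_det, div_eq_inv_mul]
  congr 2
  ext a b
  rw [RingHom.mapMatrix_apply, Matrix.map_apply, Matrix.of_apply, Matrix.of_apply, ec_lin, fn_apply]

/-! ### the form of `Fr` as a polynomial in `w` -/

theorem pr_sum {d N : ℕ} {ι : Type} (s : Finset ι) (φ : Tn d N) (v : ι → Tn d N) :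
    pr φ (∑ k ∈ s, v k) = ∑ k ∈ s, pr φ (v k) := by
  unfold pr
  simp only [Finset.sum_apply, Finset.mul_sum]
  exact Finset.sum_comm

theorem pr_smul {d N : ℕ} (s : ℂ) (φ v : Tn d N) : pr φ (s • v) = s * pr φ v := by
  unfold pr
  simp only [Pi.smul_apply, smul_eq_mul, Finset.mul_sum]
  exact Finset.sum_congr rfl fun i _ => by ring

theorem pr_sub {d N : ℕ} (φ v v' : Tn d N) : pr φ (v - v') = pr φ v - pr φ v' := by
  unfold pr
  simp only [Pi.sub_apply, mul_sub, Finset.sum_sub_distrib]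

theorem pr_comm {d N : ℕ} (φ v : Tn d N) : pr φ v = pr v φ :=
  Finset.sum_congr rfl fun _ _ => mul_comm _ _

/-- the form of `Fr` -/
def FpR (m : ℕ) {N : ℕ} (u x : ℂ) (φ v : Tn (e + 1) N) : MvPolynomial (Fin N) (R e m) :=
  ∑ B : Finset (Fin N), (∏ l ∈ Bᶜ, (MvPolynomial.C (MvPolynomial.C u) - MvPolynomial.X l)) *
    MvPolynomial.C (MvPolynomial.C (((x - u) ^ (B.card + e) / (Nat.factorial (B.card + e) : ℂ)) *
      pr φ (∑ σ ∈ (Finset.univ.filter fun σ : Equiv.Perm (Fin N) => ∀ l, l ∉ B → σ l = l), pm σ v)))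

theorem ev_FpR {N : ℕ} (u x : ℂ) (φ v : Tn (e + 1) N) (c : Fin (e + 1) → Fin m → ℂ)
    (w : Fin N → ℂ) : ev c w (FpR m u x φ v) = pr φ (Fr w u x v) := by
  unfold FpR Fr
  rw [map_sum, pr_sum]
  refine Finset.sum_congr rfl fun B _ => ?_
  rw [map_mul, map_prod, ev_C, ec_C, pr_smul, mul_assoc]
  congr 1
  refine Finset.prod_congr rfl fun l _ => ?_
  rw [map_sub, ev_C, ec_C, ev_X]

/-! ### the endomorphism -/

/-- `Fr` as a linear map -/
def FrL (hF : T_FIN) {N : ℕ} (w : Fin N → ℂ) (u x : ℂ) : Tn (e + 1) N →ₗ[ℂ] Tn (e + 1) N where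
  toFun := Fr w u x
  map_add' := (hF e N w u x).1
  map_smul' := (hF e N w u x).2.1

/-- the combination -/
def SL (hF : T_FIN) {N K : ℕ} (u x y : Fin K → ℂ) (c : Fin (e + 1) → Fin m → ℂ) (w : Fin N → ℂ) :
    Tn (e + 1) N →ₗ[ℂ] Tn (e + 1) N :=
  ∑ t, y t • (FrL hF w (u t) (x t) - lm c (u t) (x t) • LinearMap.id)

theorem SL_apply (hF : T_FIN) {N K : ℕ} (u x y : Fin K → ℂ) (c : Fin (e + 1) → Fin m → ℂ)
    (w : Fin N → ℂ) (v : Tn (e + 1) N) :
    SL hF u x y c w v = ∑ t, y t • (Fr w (u t) (x t) v - lm c (u t) (x t) • v) := by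
  unfold SL
  rw [LinearMap.sum_apply]
  rfl

theorem SL_mem (hF : T_FIN) {N K : ℕ} (u x y : Fin K → ℂ) (c : Fin (e + 1) → Fin m → ℂ)
    (w : Fin N → ℂ) : ∀ v ∈ Inv (e + 1) m N, SL hF u x y c w v ∈ Inv (e + 1) m N := by
  intro v hv
  rw [SL_apply]
  refine Submodule.sum_mem _ fun t _ => Submodule.smul_mem _ _ (Submodule.sub_mem _ ?_ ?_)
  · exact (hF e N w (u t) (x t)).2.2.2.1 m v hv
  · exact Submodule.smul_mem _ _ hv

/-- the endomorphism of the space of invariants -/
def SR (hF : T_FIN) {N K : ℕ} (u x y : Fin K → ℂ) (c : Fin (e + 1) → Fin m → ℂ)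
    (w : Fin N → ℂ) : Inv (e + 1) m N →ₗ[ℂ] Inv (e + 1) m N :=
  (SL hF u x y c w).restrict (SL_mem hF u x y c w)

/-- slot permutations as linear equivalences of the space of invariants -/
def pE (hP : T_FPM) (N m : ℕ) (σ : Equiv.Perm (Fin N)) :
    Inv (e + 1) m N ≃ₗ[ℂ] Inv (e + 1) m N where
  toFun v := ⟨pm σ v.1, (hP e m N σ 0 0 v.1).1 v.2⟩
  invFun v := ⟨pm σ.symm v.1, (hP e m N σ.symm 0 0 v.1).1 v.2⟩
  map_add' v v' := rfl
  map_smul' s v := rfl
  left_inv v := by
    apply Subtype.ext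
    funext i
    change v.1 ((i ∘ σ.symm) ∘ σ) = v.1 i
    exact congrArg v.1 (funext fun l => by simp)
  right_inv v := by
    apply Subtype.ext
    funext i
    change v.1 ((i ∘ σ) ∘ σ.symm) = v.1 i
    exact congrArg v.1 (funext fun l => by simp)

theorem det_SR_perm (hF : T_FIN) (hP : T_FPM) {N K : ℕ} (u x y : Fin K → ℂ)
    (c : Fin (e + 1) → Fin m → ℂ) (w : Fin N → ℂ) (σ : Equiv.Perm (Fin N)) :
    LinearMap.det (SR (m := m) hF u x y c (w ∘ σ)) = LinearMap.det (SR (m := m) hF u x y c w) := by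
  rw [← LinearMap.det_conj (SR (m := m) hF u x y c w) (pE hP N m σ.symm)]
  congr 1
  apply LinearMap.ext
  intro v
  obtain ⟨v', rfl⟩ := (pE hP N m σ.symm).surjective v
  rw [LinearMap.comp_apply, LinearMap.comp_apply, LinearEquiv.coe_coe, LinearEquiv.coe_coe,
    LinearEquiv.symm_apply_apply]
  apply Subtype.ext
  change SL hF u x y c (w ∘ σ) (pm σ.symm v'.1) = pm σ.symm (SL hF u x y c w v'.1)
  rw [SL_apply, SL_apply]
  have h : ∀ t, Fr (w ∘ σ) (u t) (x t) (pm σ.symm v'.1) = pm σ.symm (Fr w (u t) (x t) v'.1) := by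
    intro t
    exact ((hP e m N σ.symm w 0 v'.1).2.1 (u t) (x t)).symm
  funext i
  simp only [Finset.sum_apply, h, pm]
  rfl

end

/-! ### Vieta -/

section

variable {e m : ℕ}

/-- the polynomials `fp` over the coefficient ring -/
def fpR (m : ℕ) (a : Fin (e + 1)) : Polynomial (R e m) :=
  Polynomial.X ^ (m + (a : ℕ)) +
    ∑ l : Fin m, Polynomial.C (MvPolynomial.X (a, l)) * Polynomial.X ^ (l : ℕ)

/-- the Wronskian over the coefficient ring -/
def WpR (e m : ℕ) : Polynomial (R e m) :=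
  Matrix.det (Matrix.of fun a b : Fin (e + 1) => Polynomial.derivative^[(b : ℕ)] (fpR m a))

theorem map_fpR (c : Fin (e + 1) → Fin m → ℂ) (a : Fin (e + 1)) :
    Polynomial.map (ec c) (fpR m a) = fp c a := by
  unfold fpR fp
  rw [Polynomial.map_add, Polynomial.map_pow, Polynomial.map_X, Polynomial.map_sum]
  congr 1
  refine Finset.sum_congr rfl fun l _ => ?_
  rw [Polynomial.map_mul, Polynomial.map_C, Polynomial.map_pow, Polynomial.map_X, ec_X]

theorem map_WpR (c : Fin (e + 1) → Fin m → ℂ) : Polynomial.map (ec c) (WpR e m) = Wp c := by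
  unfold WpR Wp
  rw [← Polynomial.coe_mapRingHom, RingHom.map_det]
  congr 1
  ext1 a b
  rw [RingHom.mapMatrix_apply, Matrix.map_apply, Matrix.of_apply, Matrix.of_apply,
    Polynomial.coe_mapRingHom, ← Polynomial.iterate_derivative_map, map_fpR]

/-- the elementary symmetric functions as polynomials in `c` -/
def E (e m : ℕ) (k : ℕ) : R e m :=
  MvPolynomial.C ((∏ a : Fin (e + 1), (Nat.factorial (a : ℕ) : ℂ))⁻¹ * (-1) ^ k) *
    (WpR e m).coeff ((e + 1) * m - k)

theorem ec_E (c : Fin (e + 1) → Fin m → ℂ) (w : Fin ((e + 1) * m) → ℂ) (h : Rt c w) (k : ℕ)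
    (hk : k ≤ (e + 1) * m) : ec c (E e m k) = (Multiset.map w Finset.univ.val).esymm k := by
  have h1 : ec c ((WpR e m).coeff ((e + 1) * m - k)) = (Wp c).coeff ((e + 1) * m - k) := by
    rw [← map_WpR, Polynomial.coeff_map]
  have h2 : (∏ l, (Polynomial.X - Polynomial.C (w l))) =
      (Multiset.map (fun t => Polynomial.X - Polynomial.C t) (Multiset.map w Finset.univ.val)).prod := by
    rw [Multiset.map_map]
    rfl
  have hcard : (Multiset.map w (Finset.univ.val : Multiset (Fin ((e + 1) * m)))).card =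
      (e + 1) * m := by
    rw [Multiset.card_map]
    simp
  unfold Rt at h
  unfold E
  rw [map_mul, ec_C, h1, h, Polynomial.coeff_C_mul, h2, Multiset.prod_X_sub_C_coeff, hcard]
  · have h3 : (e + 1) * m - ((e + 1) * m - k) = k := by omega
    rw [h3]
    have h4 : (∏ a : Fin (e + 1), (Nat.factorial (a : ℕ) : ℂ)) ≠ 0 := by
      rw [Finset.prod_ne_zero_iff]
      intro a _
      exact_mod_cast Nat.factorial_ne_zero _
    have h5 : ((-1 : ℂ) ^ k) * (-1) ^ k = 1 := by
      rw [← mul_pow]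
      norm_num
    calc _ = ((∏ a : Fin (e + 1), (Nat.factorial (a : ℕ) : ℂ))⁻¹ *
        (∏ a : Fin (e + 1), (Nat.factorial (a : ℕ) : ℂ))) * (((-1 : ℂ) ^ k) * (-1) ^ k) *
        (Multiset.map w Finset.univ.val).esymm k := by ring
      _ = _ := by rw [h5, inv_mul_cancel₀ h4, one_mul, one_mul]
  · rw [hcard]
    omega

theorem ev_esymm {N : ℕ} (c : Fin (e + 1) → Fin m → ℂ) (w : Fin N → ℂ) (k : ℕ) :
    ev c w (MvPolynomial.esymm (Fin N) (R e m) k) = (Multiset.map w Finset.univ.val).esymm k := by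
  rw [← MvPolynomial.aeval_esymm_eq_multiset_esymm (Fin N) ℂ k w]
  unfold MvPolynomial.esymm
  rw [map_sum, map_sum]
  refine Finset.sum_congr rfl fun A _ => ?_
  rw [map_prod, map_prod]
  refine Finset.prod_congr rfl fun l _ => ?_
  rw [ev_X, MvPolynomial.aeval_X]

end

end HPL_

open HPL_ in
theorem p_HPL (h_FPM : T_FPM) (h_SMP : T_SMP) (h_FIN : T_FIN) (h_CJI : T_CJI) : T_HPL := by
  intro e m K u x y
  let b := Module.finBasis ℂ (Inv (e + 1) m ((e + 1) * m))
  -- the Gram matrix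
  let Q : Matrix (Fin (Module.finrank ℂ (Inv (e + 1) m ((e + 1) * m))))
      (Fin (Module.finrank ℂ (Inv (e + 1) m ((e + 1) * m)))) ℂ := Matrix.of fun i j => pr (b i).1 (b j).1
  have hprb : ∀ (φ : Tn (e + 1) ((e + 1) * m)) (v : Inv (e + 1) m ((e + 1) * m)),
      pr φ v.1 = ∑ j, pr φ (b j).1 * b.repr v j := by
    intro φ v
    have h1 : v.1 = ∑ j, b.repr v j • (b j).1 := by
      conv_lhs => rw [← b.sum_repr v]
      rw [Submodule.coe_sum]
      rfl
    conv_lhs => rw [h1]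
    rw [pr_sum]
    refine Finset.sum_congr rfl fun j _ => ?_
    rw [pr_smul, mul_comm]
  have hQ : Q.det ≠ 0 := by
    intro h0
    obtain ⟨a, ha, hQa⟩ := Matrix.exists_mulVec_eq_zero_iff.2 h0
    have hv : ∑ j, a j • b j ≠ 0 := by
      intro h
      apply ha
      have h1 := Fintype.linearIndependent_iff.1 b.linearIndependent a h
      funext j
      exact h1 j
    apply hv
    set v := ∑ j, a j • b j with hvdef
    have hrep : ∀ j, b.repr v j = a j := by
      intro j
      rw [hvdef, b.repr_sum_self]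
    apply Subtype.ext
    refine (h_CJI (e + 1) m ((e + 1) * m) v.1 v.2).2.2 fun φ hφ => ?_
    have h2 : ∀ i, pr (b i).1 v.1 = 0 := by
      intro i
      rw [hprb]
      have := congrFun hQa i
      simp only [Matrix.mulVec, dotProduct, Pi.zero_apply] at this
      rw [← this]
      exact Finset.sum_congr rfl fun j _ => by rw [hrep]; rfl
    rw [pr_comm, hprb v.1 ⟨φ, hφ⟩]
    refine Finset.sum_eq_zero fun j _ => ?_
    rw [pr_comm, h2, zero_mul]
  -- the determinant as a polynomial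
  let H : MvPolynomial (Fin ((e + 1) * m)) (R e m) := Matrix.det (Matrix.of fun i j =>
    ∑ t, MvPolynomial.C (MvPolynomial.C (y t)) * (FpR m (u t) (x t) (b i).1 (b j).1 -
      MvPolynomial.C (lmR m (u t) (x t)) * MvPolynomial.C (MvPolynomial.C (pr (b i).1 (b j).1))))
  have hH : ∀ (c : Fin (e + 1) → Fin m → ℂ) (w : Fin ((e + 1) * m) → ℂ),
      ev c w H = Q.det * LinearMap.det (SR (m := m) h_FIN u x y c w) := by
    intro c w
    rw [← LinearMap.det_toMatrix b, ← Matrix.det_mul, RingHom.map_det]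
    congr 1
    ext i j
    rw [RingHom.mapMatrix_apply, Matrix.map_apply, Matrix.of_apply, Matrix.mul_apply]
    have h1 : ∑ k, Q i k * (LinearMap.toMatrix b b (SR (m := m) h_FIN u x y c w)) k j =
        pr (b i).1 (SL h_FIN u x y c w (b j).1) := by
      have h2 := hprb (b i).1 (SR (m := m) h_FIN u x y c w (b j))
      have h3 : (SR (m := m) h_FIN u x y c w (b j)).1 = SL h_FIN u x y c w (b j).1 := rfl
      rw [h3] at h2
      rw [h2]
      refine Finset.sum_congr rfl fun k _ => ?_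
      rw [LinearMap.toMatrix_apply]
      rfl
    rw [h1, SL_apply, map_sum, pr_sum]
    refine Finset.sum_congr rfl fun t _ => ?_
    rw [map_mul, map_sub, map_mul, ev_C, ev_C, ev_C, ec_C, ec_C, ec_lmR, ev_FpR, pr_smul, pr_sub,
      pr_smul]
  have hsym : ∀ σ : Equiv.Perm (Fin ((e + 1) * m)), MvPolynomial.rename σ H = H := by
    intro σ
    apply ext_ev
    intro c w
    have h1 : ev c w (MvPolynomial.rename σ H) = ev c (w ∘ σ) H :=
      MvPolynomial.eval₂_rename (ec c) σ w H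
    rw [h1, hH, hH, det_SR_perm h_FIN h_FPM]
  obtain ⟨q, hq⟩ := h_SMP (R e m) ((e + 1) * m) H hsym
  refine ⟨MvPolynomial.eval (fun i : Fin ((e + 1) * m) => E e m (i + 1)) q, fun c w hR => ?_⟩
  have h1 : MvPolynomial.eval (fun p => c p.1 p.2)
      (MvPolynomial.eval (fun i : Fin ((e + 1) * m) => E e m (i + 1)) q) = ev c w H := by
    rw [hq]
    have a1 : MvPolynomial.eval (fun p => c p.1 p.2)
        (MvPolynomial.eval (fun i : Fin ((e + 1) * m) => E e m (i + 1)) q) =
        MvPolynomial.eval₂ (ec c) (fun i : Fin ((e + 1) * m) => ec c (E e m (i + 1))) q := by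
      change ec c (MvPolynomial.eval₂ (RingHom.id (R e m)) _ q) = _
      rw [MvPolynomial.eval₂_comp_left]
      rfl
    have a2 : ev c w (MvPolynomial.aeval
        (fun i : Fin ((e + 1) * m) => MvPolynomial.esymm (Fin ((e + 1) * m)) (R e m) (i + 1)) q) =
        MvPolynomial.eval₂ (ec c) (fun i : Fin ((e + 1) * m) =>
          ev c w (MvPolynomial.esymm (Fin ((e + 1) * m)) (R e m) (i + 1))) q := by
      have a3 : (ev c w).comp (algebraMap (R e m) (MvPolynomial (Fin ((e + 1) * m)) (R e m))) =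
          ec c := RingHom.ext fun s => ev_C c w s
      rw [MvPolynomial.aeval_def, MvPolynomial.eval₂_comp_left, a3]
      rfl
    rw [a1, a2]
    congr 1
    funext i
    rw [ec_E c w hR _ (by omega), ev_esymm]
  rw [h1, hH, mul_eq_zero, or_iff_right hQ, LinearMap.det_eq_zero_iff_ker_ne_bot,
    Submodule.ne_bot_iff]
  constructor
  · rintro ⟨v, hv, hv0⟩
    refine ⟨v.1, v.2, fun h => hv0 (Subtype.ext h), ?_⟩
    rw [← SL_apply h_FIN]
    exact congrArg Subtype.val (LinearMap.mem_ker.1 hv)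
  · rintro ⟨v, hv, hv0, h⟩
    refine ⟨⟨v, hv⟩, ?_, fun h => hv0 (congrArg Subtype.val h)⟩
    rw [LinearMap.mem_ker]
    apply Subtype.ext
    change SL h_FIN u x y c w v = 0
    rw [SL_apply]
    exact h

end

end Pool.Agent.KPW
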