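import Pool.Agent.KPW.Targets

/-!
# KPW-HQZ: vanishing of the sum of the complete homogeneous polynomials
-/

set_option autoImplicit false

open scoped BigOperators

namespace Pool.Agent.KPW

namespace HQZ_

open Polynomial in
/-- the linear factor -/
noncomputable def lf (η : ℂ) : Polynomial ℂ := 1 - C η * X

lemma eval_lf (η s : ℂ) : (lf η).eval s = 1 - s * η := by
  simp only [lf, Polynomial.eval_sub, Polynomial.eval_one, Polynomial.eval_mul,
    Polynomial.eval_C, Polynomial.eval_X]
  ring

/-- the geometric series -/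
lemma lf_mul (η : ℂ) :
    ((lf η : Polynomial ℂ) : PowerSeries ℂ) * (PowerSeries.mk fun j => η ^ j) = 1 := by
  have h : ((lf η : Polynomial ℂ) : PowerSeries ℂ) = 1 - PowerSeries.C η * PowerSeries.X := by
    simp [lf]
  rw [h]
  ext n
  rw [sub_mul, one_mul, map_sub, mul_assoc, PowerSeries.coeff_C_mul]
  cases n with
  | zero => simp
  | succ n =>
    rw [PowerSeries.coeff_succ_X_mul, PowerSeries.coeff_mk, PowerSeries.coeff_mk, pow_succ',
      sub_self, PowerSeries.coeff_one, if_neg (Nat.succ_ne_zero n)]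

variable {e : ℕ}

/-- the basic identity -/
lemma key_id (x θ : Fin (e + 2) → ℂ) (hx : Function.Injective x) (i : Fin (e + 2))
    (k : Fin (e + 1)) (s : ℂ) :
    (x i - rm x i k) * (1 - s * En x θ i k) =
      x i * rm (fun p => 1 - s * θ p) i k - rm x i k * (1 - s * θ i) := by
  have h : x i - rm x i k ≠ 0 := by
    rw [sub_ne_zero]
    intro h
    exact (Fin.succAbove_ne i k).symm (hx h)
  have h2 : (x i - rm x i k) * En x θ i k = rm θ i k * x i - θ i * rm x i k := by
    rw [En, mul_div_cancel₀ _ h]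
  have h3 : rm (fun p => 1 - s * θ p) i k = 1 - s * rm θ i k := rfl
  rw [h3]
  linear_combination (-s) * h2

end HQZ_

open HQZ_ in
/-- KPW-HQZ -/
theorem p_HQZ (h_LGR : T_LGR) : T_HQZ := by
  classical
  intro e q x θ hx
  set A : Fin (e + 2) → ℂ := fun i => x i ^ e / ∏ k, (x i - rm x i k) with hA
  set η : Fin (e + 2) → Fin (e + 1) → ℂ := fun i k => En x θ i k with hη
  have hne : ∀ i k, x i - rm x i k ≠ 0 := by
    intro i k
    rw [sub_ne_zero]
    intro h
    exact (Fin.succAbove_ne i k).symm (hx h)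
  -- the polynomial identity
  set R : Polynomial ℂ := ∑ i, Polynomial.C (A i) *
    ∏ j ∈ Finset.univ.erase i, ∏ k, lf (η j k) with hR
  set Q : Polynomial ℂ := ∏ j, ∏ k, lf (η j k) with hQ
  set T : Polynomial ℂ := ∏ p, lf (θ p) with hT
  have hQ0 : Q ≠ 0 := by
    intro h
    have := congrArg (Polynomial.eval 0) h
    rw [hQ, Polynomial.eval_prod] at this
    simp only [Polynomial.eval_prod, eval_lf, zero_mul, sub_zero, Finset.prod_const_one,
      Polynomial.eval_zero] at this
    exact one_ne_zero this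
  have hT0 : T ≠ 0 := by
    intro h
    have := congrArg (Polynomial.eval 0) h
    rw [hT, Polynomial.eval_prod] at this
    simp only [eval_lf, zero_mul, sub_zero, Finset.prod_const_one, Polynomial.eval_zero] at this
    exact one_ne_zero this
  have hRs : ∀ s : ℂ, Q.eval s ≠ 0 → T.eval s ≠ 0 → R.eval s = 0 := by
    intro s hQs hTs
    have h1 : ∀ j k, 1 - s * η j k ≠ 0 := by
      intro j k h
      apply hQs
      rw [hQ, Polynomial.eval_prod]
      refine Finset.prod_eq_zero (Finset.mem_univ j) ?_
      rw [Polynomial.eval_prod]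
      refine Finset.prod_eq_zero (Finset.mem_univ k) ?_
      rw [eval_lf, h]
    have h2 : ∀ p, 1 - s * θ p ≠ 0 := by
      intro p h
      apply hTs
      rw [hT, Polynomial.eval_prod]
      refine Finset.prod_eq_zero (Finset.mem_univ p) ?_
      rw [eval_lf, h]
    have h3 : ∀ i p, i ≠ p → x i * (1 - s * θ p) - x p * (1 - s * θ i) ≠ 0 := by
      intro i p hip
      obtain ⟨k, rfl⟩ := Fin.exists_succAbove_eq hip.symm
      have := key_id x θ hx i k s
      have h4 : (x i - rm x i k) * (1 - s * En x θ i k) ≠ 0 := mul_ne_zero (hne i k) (h1 i k)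
      rw [this] at h4
      exact h4
    have h5 := h_LGR e x (fun p => 1 - s * θ p) h2 h3
    have h6 : R.eval s = Q.eval s * ∑ i, x i ^ e /
        ∏ k, (x i * rm (fun p => 1 - s * θ p) i k - rm x i k * (1 - s * θ i)) := by
      rw [hR, Polynomial.eval_finsetSum, Finset.mul_sum]
      refine Finset.sum_congr rfl fun i _ => ?_
      have h7 : Q = (∏ k, lf (η i k)) * ∏ j ∈ Finset.univ.erase i, ∏ k, lf (η j k) := by
        rw [hQ]
        exact (Finset.mul_prod_erase Finset.univ (fun j => ∏ k, lf (η j k))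
          (Finset.mem_univ i)).symm
      have h8 : ∏ k, (x i * rm (fun p => 1 - s * θ p) i k - rm x i k * (1 - s * θ i)) =
          (∏ k, (x i - rm x i k)) * ∏ k, (1 - s * η i k) := by
        rw [← Finset.prod_mul_distrib]
        exact Finset.prod_congr rfl fun k _ => (key_id x θ hx i k s).symm
      have h9 : (∏ k, (1 - s * η i k)) ≠ 0 := Finset.prod_ne_zero_iff.2 fun k _ => h1 i k
      have h10 : (∏ k, (x i - rm x i k)) ≠ 0 := Finset.prod_ne_zero_iff.2 fun k _ => hne i k
      rw [h8, h7, Polynomial.eval_mul, Polynomial.eval_mul, Polynomial.eval_C]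
      have h11 : (∏ k, lf (η i k)).eval s = ∏ k, (1 - s * η i k) := by
        rw [Polynomial.eval_prod]
        exact Finset.prod_congr rfl fun k _ => eval_lf _ _
      rw [h11, hA]
      field_simp
    rw [h6, h5, mul_zero]
  have hR0 : R = 0 := by
    have h : R * (Q * T) = 0 := by
      apply Polynomial.funext
      intro s
      rw [Polynomial.eval_mul, Polynomial.eval_mul, Polynomial.eval_zero]
      by_cases h1 : Q.eval s = 0
      · rw [h1, zero_mul, mul_zero]
      by_cases h2 : T.eval s = 0
      · rw [h2, mul_zero, mul_zero]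
      rw [hRs s h1 h2, zero_mul]
    exact (mul_eq_zero.1 h).resolve_right (mul_ne_zero hQ0 hT0)
  -- power series
  set S : PowerSeries ℂ := ∑ i, PowerSeries.C (A i) *
    ∏ k, (PowerSeries.mk fun j => η i k ^ j : PowerSeries ℂ) with hS
  have hQS : (Q : PowerSeries ℂ) * S = (R : PowerSeries ℂ) := by
    have c1 : ∀ {ι : Type} (s : Finset ι) (f : ι → Polynomial ℂ),
        ((∏ i ∈ s, f i : Polynomial ℂ) : PowerSeries ℂ) = ∏ i ∈ s, (f i : PowerSeries ℂ) := by
      intro ι s f
      exact map_prod Polynomial.coeToPowerSeries.ringHom f s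
    have c2 : ∀ {ι : Type} (s : Finset ι) (f : ι → Polynomial ℂ),
        ((∑ i ∈ s, f i : Polynomial ℂ) : PowerSeries ℂ) = ∑ i ∈ s, (f i : PowerSeries ℂ) := by
      intro ι s f
      exact map_sum Polynomial.coeToPowerSeries.ringHom f s
    rw [hS, hR, c2, Finset.mul_sum]
    refine Finset.sum_congr rfl fun i _ => ?_
    have h7 : Q = (∏ k, lf (η i k)) * ∏ j ∈ Finset.univ.erase i, ∏ k, lf (η j k) := by
      rw [hQ]
      exact (Finset.mul_prod_erase Finset.univ (fun j => ∏ k, lf (η j k))
        (Finset.mem_univ i)).symm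
    have h8 : ((∏ k, lf (η i k) : Polynomial ℂ) : PowerSeries ℂ) *
        ∏ k, (PowerSeries.mk fun j => η i k ^ j : PowerSeries ℂ) = 1 := by
      rw [c1, ← Finset.prod_mul_distrib]
      exact Finset.prod_eq_one fun k _ => lf_mul _
    rw [h7, Polynomial.coe_mul, Polynomial.coe_mul, Polynomial.coe_C]
    linear_combination (PowerSeries.C (A i) *
      ((∏ j ∈ Finset.univ.erase i, ∏ k, lf (η j k) : Polynomial ℂ) : PowerSeries ℂ)) * h8
  have hS0 : S = 0 := by
    rw [hR0, Polynomial.coe_zero] at hQS
    refine (mul_eq_zero.1 hQS).resolve_left ?_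
    exact fun h => hQ0 (Polynomial.coe_eq_zero_iff.1 h)
  have h := congrArg (PowerSeries.coeff q) hS0
  rw [hS, map_sum, map_zero] at h
  simp only [PowerSeries.coeff_C_mul] at h
  exact h

end Pool.Agent.KPW
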