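import Pool.Agent.KPW.Targets

set_option autoImplicit false

/-! # KPW-IDT (MP_0c25eb_ag) -/

open scoped BigOperators

namespace Pool.Agent.KPW

theorem p_IDT : T_IDT := by
  intro e x c hc hx i hi hdet
  obtain ⟨y, hy, hGy⟩ := Matrix.exists_mulVec_eq_zero_iff.mpr hdet
  apply hy
  set lam : Fin (e + 1) → ℂ := fun k => (rm x i k - x i) * y k with hlam
  set g : Fin (e + 2) → ℂ := fun q =>
    ∑ k, lam k * ((if q = i.succAbove k then 1 else 0) - c q) with hg
  have h1 : ∀ j : Fin (e + 1), g j.succ = 0 := by
    intro j
    have h := congrFun hGy j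
    simp only [Matrix.mulVec, dotProduct, Pi.zero_apply, Gm, Matrix.of_apply] at h
    rw [← h]
    simp only [hg, hlam]
    refine Finset.sum_congr rfl fun k _ => ?_
    ring
  have hsum : ∑ q, g q = 0 := by
    simp only [hg]
    rw [Finset.sum_comm]
    refine Finset.sum_eq_zero fun k _ => ?_
    rw [← Finset.mul_sum, Finset.sum_sub_distrib, hc, Finset.sum_ite_eq' Finset.univ (i.succAbove k)]
    simp
  have h0 : g 0 = 0 := by
    rw [Fin.sum_univ_succ] at hsum
    rw [Finset.sum_eq_zero (fun j _ => h1 j), add_zero] at hsum
    exact hsum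
  have hall : ∀ q, g q = 0 := by
    intro q
    refine Fin.cases h0 h1 q
  have hL : ∑ k, lam k = 0 := by
    have h := hall i
    simp only [hg] at h
    have h2 : ∑ k, lam k * ((if i = i.succAbove k then 1 else 0) - c i) = (∑ k, lam k) * (- c i) := by
      rw [Finset.sum_mul]
      refine Finset.sum_congr rfl fun k _ => ?_
      rw [if_neg (Fin.succAbove_ne i k).symm]
      ring
    rw [h2] at h
    rcases mul_eq_zero.mp h with h | h
    · exact h
    · exact absurd (neg_eq_zero.mp h) hi
  funext k
  have h := hall (i.succAbove k)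
  simp only [hg] at h
  have h2 : ∑ k', lam k' * ((if i.succAbove k = i.succAbove k' then 1 else 0) - c (i.succAbove k))
      = lam k - (∑ k', lam k') * c (i.succAbove k) := by
    simp only [mul_sub, Finset.sum_sub_distrib, Finset.sum_mul]
    congr 1
    rw [Finset.sum_eq_single k]
    · simp
    · intro b _ hb
      rw [if_neg]
      · ring
      · intro hh
        exact hb (Fin.succAbove_right_injective hh).symm
    · intro hk
      exact absurd (Finset.mem_univ k) hk
  rw [h2, hL, zero_mul, sub_zero] at h
  simp only [hlam] at h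
  rcases mul_eq_zero.mp h with h | h
  · exfalso
    have h3 : x (i.succAbove k) = x i := sub_eq_zero.mp h
    exact Fin.succAbove_ne i k (hx h3)
  · simpa using h

end Pool.Agent.KPW
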