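import Pool.Agent.KPW.Targets

/-! KPW-INT : the matrix identity of the intertwiner. -/

set_option autoImplicit false

open scoped BigOperators

namespace Pool.Agent.KPW

namespace INT_

theorem sum_delta {n : ℕ} (f : Fin n → ℂ) (q : Fin n) :
    ∑ p, f p * (if q = p then (1 : ℂ) else 0) = f q := by
  simp

theorem sum1 {n : ℕ} (x c : Fin n → ℂ) (hc : ∑ k, c k = 1) (hx : ∑ k, c k * x k = 0)
    (i q : Fin n) :
    ∑ p, (x p - x i) * ((if q = p then (1 : ℂ) else 0) - c q) * c p = x q * c q := by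
  have h1 : ∀ p, (x p - x i) * ((if q = p then (1 : ℂ) else 0) - c q) * c p =
      (x p - x i) * c p * (if q = p then (1 : ℂ) else 0) - c q * (c p * x p) +
        c q * x i * c p := by
    intro p
    ring
  simp only [h1]
  rw [Finset.sum_add_distrib, Finset.sum_sub_distrib, ← Finset.mul_sum, ← Finset.mul_sum, hc, hx,
    sum_delta (fun p => (x p - x i) * c p) q]
  ring

theorem sum2 {n : ℕ} (x c : Fin n → ℂ) (hc : ∑ k, c k = 1) (hx : ∑ k, c k * x k = 0)
    (o q : Fin n) :
    ∑ p, (x o - x p) * ((if p = q then (1 : ℂ) else 0) - c p) = -x q := by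
  have h1 : ∀ p, (x o - x p) * ((if p = q then (1 : ℂ) else 0) - c p) =
      (x o - x p) * (if q = p then (1 : ℂ) else 0) + c p * x p - x o * c p := by
    intro p
    have h2 : (if p = q then (1 : ℂ) else 0) = (if q = p then (1 : ℂ) else 0) := by
      by_cases h : p = q
      · rw [if_pos h, if_pos h.symm]
      · rw [if_neg h, if_neg fun h' => h h'.symm]
    rw [h2]
    ring
  simp only [h1]
  rw [Finset.sum_sub_distrib, Finset.sum_add_distrib, ← Finset.mul_sum, hc, hx,
    sum_delta (fun p => x o - x p) q]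
  ring

theorem sub_one {e : ℕ} (x : Fin (e + 2) → ℂ) (i : Fin (e + 2)) (z : ℂ) :
    Dm x i - z • 1 = Matrix.diagonal fun k => rm x i k - z := by
  ext j k
  by_cases h : j = k
  · subst h
    simp [Dm]
  · simp [Dm, h]

theorem mulY {e : ℕ} (x c : Fin (e + 2) → ℂ) (hc : ∑ k, c k = 1) (hx : ∑ k, c k * x k = 0)
    (i : Fin (e + 2)) (j k : Fin (e + 1)) :
    (Gm x c i * Ym x c i) j k = x j.succ * c j.succ * (x i - x (i.succAbove k)) := by
  have h1 := sum1 x c hc hx i j.succ
  rw [Fin.sum_univ_succAbove _ i] at h1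
  simp only [sub_self, zero_mul, zero_add] at h1
  rw [Matrix.mul_apply, ← h1, Finset.sum_mul]
  refine Finset.sum_congr rfl fun q _ => ?_
  simp only [Gm, Ym, Matrix.of_apply, Matrix.vecMulVec_apply, rm]
  ring

theorem Ymul {e : ℕ} (x c : Fin (e + 2) → ℂ) (hc : ∑ k, c k = 1) (hx : ∑ k, c k * x k = 0)
    (i : Fin (e + 2)) (j k : Fin (e + 1)) :
    (Ym x c 0 * Gm x c i) j k =
      c j.succ * (x i - x (i.succAbove k)) * x (i.succAbove k) := by
  have h1 := sum2 x c hc hx 0 (i.succAbove k)
  rw [Fin.sum_univ_succ] at h1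
  simp only [sub_self, zero_mul, zero_add] at h1
  have h2 : c j.succ * (x i - x (i.succAbove k)) * x (i.succAbove k) =
      c j.succ * (x (i.succAbove k) - x i) * -x (i.succAbove k) := by ring
  rw [Matrix.mul_apply, h2, ← h1, Finset.mul_sum]
  refine Finset.sum_congr rfl fun q _ => ?_
  simp only [Gm, Ym, Matrix.of_apply, Matrix.vecMulVec_apply, rm, Fin.zero_succAbove]
  ring

end INT_

open INT_

theorem p_INT : T_INT := by
  intro e x c hc hx i z
  rw [sub_one, sub_one]
  have hL : Gm x c i * ((Ym x c i - z • 1) * Matrix.diagonal fun k => rm x i k - z) =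
      (Gm x c i * Ym x c i - z • Gm x c i) * Matrix.diagonal fun k => rm x i k - z := by
    rw [← Matrix.mul_assoc, Matrix.mul_sub, Matrix.mul_smul, Matrix.mul_one]
  have hR : ((Matrix.diagonal fun k => rm x 0 k - z) * (Ym x c 0 - z • 1)) * Gm x c i =
      (Matrix.diagonal fun k => rm x 0 k - z) * (Ym x c 0 * Gm x c i - z • Gm x c i) := by
    rw [Matrix.mul_assoc, Matrix.sub_mul, Matrix.smul_mul, Matrix.one_mul]
  rw [hL, hR]
  ext j k
  rw [Matrix.mul_diagonal, Matrix.diagonal_mul, Matrix.sub_apply, Matrix.sub_apply,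
    mulY x c hc hx, Ymul x c hc hx, Matrix.smul_apply, smul_eq_mul]
  simp only [rm, Fin.zero_succAbove, Gm, Matrix.of_apply]
  by_cases h : j.succ = i.succAbove k
  · rw [if_pos h, ← h]
    ring
  · rw [if_neg h]
    ring

end Pool.Agent.KPW
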