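import Pool.Agent.KPW.Targets

set_option autoImplicit false

/-!
# KPW: the vanishing of the sum of `Lam`
-/

open scoped BigOperators

namespace Pool.Agent.KPW

namespace KKK_

private lemma hq_scale {n : ℕ} (q : ℕ) (η : Fin n → ℂ) (c : ℂ) :
    hq q (fun k => η k / c) = hq q η / c ^ q := by
  unfold hq
  have h : (∏ k, (PowerSeries.mk fun j => (η k / c) ^ j : PowerSeries ℂ)) =
      PowerSeries.rescale c⁻¹ (∏ k, (PowerSeries.mk fun j => η k ^ j : PowerSeries ℂ)) := by
    rw [map_prod]
    refine Finset.prod_congr rfl fun k _ => ?_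
    ext j
    rw [PowerSeries.coeff_rescale, PowerSeries.coeff_mk, PowerSeries.coeff_mk, div_pow, inv_pow,
      div_eq_mul_inv, mul_comm]
  rw [h, PowerSeries.coeff_rescale, inv_pow, div_eq_mul_inv, mul_comm]

private lemma sum_cf {e : ℕ} (x θ : Fin (e + 2) → ℂ) (hx : Function.Injective x)
    (h0 : ∀ k, x k ≠ 0) (i : Fin (e + 2)) :
    ∑ p, MvPolynomial.C (θ p) * cf x i p =
      ∑ k, MvPolynomial.C (En x θ i k / x i) * MvPolynomial.X k := by
  rw [Fin.sum_univ_succAbove _ i]
  simp only [cf, Fin.insertNth_apply_same, Fin.insertNth_apply_succAbove, Finset.mul_sum]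
  rw [← Finset.sum_add_distrib]
  refine Finset.sum_congr rfl fun k _ => ?_
  rw [← mul_assoc, ← mul_assoc, ← map_mul, ← map_mul, ← add_mul, ← map_add]
  congr 2
  have hne : x i - rm x i k ≠ 0 := by
    rw [sub_ne_zero]
    intro h
    exact (Fin.succAbove_ne i k) (hx h).symm
  have hi := h0 i
  simp only [En, rm] at *
  field_simp
  ring

end KKK_

open KKK_ in
theorem p_KKK (h_LPW : T_LPW) (h_HQZ : T_HQZ) (h_POL : T_POL) : T_KKK := by
  intro e x hx h0 P
  let K : MvPolynomial (Fin (e + 2)) ℂ →ₗ[ℂ] ℂ :=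
    ∑ i, (1 / (∏ k, (x i - rm x i k))) •
      (Lam e (x i)).comp (MvPolynomial.aeval (cf x i)).toLinearMap
  have hK : ∀ P, K P =
      ∑ i, 1 / (∏ k, (x i - rm x i k)) * Lam e (x i) (MvPolynomial.aeval (cf x i) P) := by
    intro P
    simp only [K, LinearMap.sum_apply, LinearMap.smul_apply, LinearMap.comp_apply,
      AlgHom.toLinearMap_apply, smul_eq_mul]
  have h : K = 0 := by
    refine h_POL (e + 2) K fun q θ => ?_
    rw [hK]
    have key : ∀ i : Fin (e + 2), 1 / (∏ k, (x i - rm x i k)) * Lam e (x i)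
        (MvPolynomial.aeval (cf x i) ((∑ p, MvPolynomial.C (θ p) * MvPolynomial.X p) ^ q)) =
        (Nat.factorial q : ℂ) / (Nat.factorial (q + e) : ℂ) *
          (x i ^ e / (∏ k, (x i - rm x i k)) * hq q (En x θ i)) := by
      intro i
      have h1 : MvPolynomial.aeval (cf x i)
          ((∑ p, MvPolynomial.C (θ p) * MvPolynomial.X p : MvPolynomial (Fin (e + 2)) ℂ) ^ q) =
          (∑ k, MvPolynomial.C (En x θ i k / x i) * MvPolynomial.X k) ^ q := by
        rw [map_pow, ← sum_cf x θ hx h0 i, map_sum]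
        congr 1
        refine Finset.sum_congr rfl fun p _ => ?_
        rw [map_mul, MvPolynomial.aeval_X, MvPolynomial.aeval_C, MvPolynomial.algebraMap_eq]
      rw [h1, h_LPW e q (x i) fun k => En x θ i k / x i, hq_scale, pow_add]
      have hi : x i ^ q ≠ 0 := pow_ne_zero _ (h0 i)
      field_simp
    rw [Finset.sum_congr rfl fun i _ => key i, ← Finset.mul_sum, h_HQZ e q x θ hx, mul_zero]
  rw [← hK, h, LinearMap.zero_apply]

end Pool.Agent.KPW
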