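import Pool.Agent.KPW.Targets

set_option autoImplicit false

/-!
# KPW-LAM: the functional `Lam` and the row operator
-/

open scoped BigOperators

namespace Pool.Agent.KPW

lemma LAM_count {d N m : ℕ} (i j : Fin N → Fin d) (B : Finset (Fin N)) (hi : Bal m i)
    (hj : Bal m j) (h : ∀ l, l ∉ B → i l = j l) (k : Fin d) :
    (B.filter fun l => i l = k).card = (B.filter fun l => j l = k).card := by
  classical
  have h1 := hi k
  have h2 := hj k
  rw [Finset.card_filter, ← Finset.sum_add_sum_compl B] at h1 h2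
  have h3 : ∑ l ∈ Bᶜ, (if i l = k then 1 else 0) = ∑ l ∈ Bᶜ, (if j l = k then 1 else 0) := by
    refine Finset.sum_congr rfl fun l hl => ?_
    rw [h l (by simpa using hl)]
  rw [Finset.card_filter, Finset.card_filter]
  omega

lemma LAM_prod {d N : ℕ} (i : Fin N → Fin d) (B : Finset (Fin N)) (b : Fin d → ℂ) :
    ∏ l ∈ B, b (i l) = ∏ k, b k ^ (B.filter fun l => i l = k).card := by
  classical
  rw [← Finset.prod_fiberwise B i]
  refine Finset.prod_congr rfl fun k _ => ?_
  rw [← Finset.prod_const]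
  refine Finset.prod_congr rfl fun l hl => ?_
  rw [(Finset.mem_filter.mp hl).2]

lemma LAM_mono {e N : ℕ} (t : ℂ) (i : Fin N → Fin (e + 1)) (B : Finset (Fin N)) :
    Lam e t (∏ l ∈ B, MvPolynomial.X (i l)) =
      (∏ k, (Nat.factorial (B.filter fun l => i l = k).card : ℂ)) *
        (t ^ (B.card + e) / (Nat.factorial (B.card + e) : ℂ)) := by
  classical
  have h1 : (∏ l ∈ B, MvPolynomial.X (i l) : MvPolynomial (Fin (e + 1)) ℂ) =
      MvPolynomial.monomial (∑ l ∈ B, Finsupp.single (i l) 1) 1 := by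
    rw [MvPolynomial.monomial_sum_one]
    rfl
  have h2 : ∀ k, (∑ l ∈ B, Finsupp.single (i l) 1 : Fin (e + 1) →₀ ℕ) k =
      (B.filter fun l => i l = k).card := by
    intro k
    rw [Finsupp.finsetSum_apply, Finset.card_filter]
    refine Finset.sum_congr rfl fun l _ => ?_
    rw [Finsupp.single_apply]
  have h3 : ∑ k, (∑ l ∈ B, Finsupp.single (i l) 1 : Fin (e + 1) →₀ ℕ) k = B.card := by
    simp only [h2]
    rw [Finset.card_eq_sum_card_fiberwise (f := i) (t := Finset.univ)]
    intro x _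
    simp
  rw [h1]
  have h4 : (MvPolynomial.monomial (∑ l ∈ B, Finsupp.single (i l) 1) 1 :
      MvPolynomial (Fin (e + 1)) ℂ) =
      (MvPolynomial.basisMonomials (Fin (e + 1)) ℂ) (∑ l ∈ B, Finsupp.single (i l) 1) := by
    rw [MvPolynomial.coe_basisMonomials]
  rw [h4, Lam, Module.Basis.constr_basis, h3]
  simp only [h2]

lemma LAM_sum {d N : ℕ} (i : Fin N → Fin d) (S : Finset (Equiv.Perm (Fin N))) (ξ : Tn d N) :
    ∑ σ ∈ S, pm σ ξ i = ∑ j, ((S.filter fun σ : Equiv.Perm (Fin N) => i ∘ σ = j).card : ℂ) * ξ j := by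
  classical
  have h1 : ∀ σ ∈ S, pm σ ξ i = ∑ j, if i ∘ σ = j then ξ j else 0 := by
    intro σ _
    rw [Finset.sum_ite_eq]
    simp [pm]
  rw [Finset.sum_congr rfl h1, Finset.sum_comm]
  refine Finset.sum_congr rfl fun j _ => ?_
  rw [← Finset.sum_filter, Finset.sum_const, nsmul_eq_mul]

open Classical in
theorem p_LAM (h_CNT : T_CNT) : T_LAM := by
  intro e m N w t φ ξ hφ hξ
  refine ⟨∑ i, ∑ j, ∑ B : Finset (Fin N),
    if ((∀ l, l ∉ B → i l = j l) ∧ Bal m i ∧ Bal m j) then
      MvPolynomial.C (φ i * ξ j * ∏ l ∈ Bᶜ, (- w l)) * ∏ l ∈ B, MvPolynomial.X (i l) else 0,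
    ?_, ?_⟩
  · intro a b
    rw [map_sum]
    unfold pr act
    refine Finset.sum_congr rfl fun i _ => ?_
    rw [map_sum, Finset.mul_sum]
    refine Finset.sum_congr rfl fun j _ => ?_
    have h1 : ∏ l, (Matrix.vecMulVec a b - w l • (1 : Matrix (Fin (e + 1)) (Fin (e + 1)) ℂ))
        (i l) (j l) = ∑ B : Finset (Fin N), (∏ l ∈ B, a (i l) * b (j l)) *
          ∏ l ∈ Bᶜ, (- (w l * if i l = j l then 1 else 0)) := by
      have h2 : ∀ l, (Matrix.vecMulVec a b - w l • (1 : Matrix (Fin (e + 1)) (Fin (e + 1)) ℂ))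
          (i l) (j l) = a (i l) * b (j l) + (- (w l * if i l = j l then 1 else 0)) := by
        intro l
        rw [Matrix.sub_apply, Matrix.vecMulVec_apply, Matrix.smul_apply, Matrix.one_apply,
          smul_eq_mul, sub_eq_add_neg]
      simp only [h2]
      rw [Finset.prod_add, Finset.powerset_univ]
      rfl
    rw [h1, map_sum, Finset.sum_mul, Finset.mul_sum]
    refine Finset.sum_congr rfl fun B _ => ?_
    by_cases hc : (∀ l, l ∉ B → i l = j l) ∧ Bal m i ∧ Bal m j
    · rw [if_pos hc]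
      obtain ⟨hc1, hc2, hc3⟩ := hc
      have h3 : ∏ l ∈ B, b (j l) = ∏ l ∈ B, b (i l) := by
        rw [LAM_prod j, LAM_prod i]
        refine Finset.prod_congr rfl fun k _ => ?_
        rw [LAM_count i j B hc2 hc3 hc1 k]
      have h4 : ∏ l ∈ Bᶜ, (- (w l * if i l = j l then (1 : ℂ) else 0)) =
          ∏ l ∈ Bᶜ, (- w l) := by
        refine Finset.prod_congr rfl fun l hl => ?_
        rw [if_pos (hc1 l (by simpa using hl)), mul_one]
      rw [map_mul, MvPolynomial.eval_C, map_prod]
      simp only [MvPolynomial.eval_X]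
      rw [Finset.prod_mul_distrib, Finset.prod_mul_distrib, h3, h4]
      ring
    · rw [if_neg hc, map_zero]
      by_cases hφi : φ i = 0
      · rw [hφi, zero_mul]
      by_cases hξj : ξ j = 0
      · rw [hξj, mul_zero, mul_zero]
      have h5 : ¬ ∀ l, l ∉ B → i l = j l := fun h => hc ⟨h, hφ i hφi, hξ j hξj⟩
      push Not at h5
      obtain ⟨l, hl, hne⟩ := h5
      have h6 : ∏ l ∈ Bᶜ, (- (w l * if i l = j l then (1 : ℂ) else 0)) = 0 := by
        refine Finset.prod_eq_zero (i := l) (by simpa using hl) ?_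
        rw [if_neg hne, mul_zero, neg_zero]
      rw [h6, mul_zero, zero_mul, mul_zero]
  · rw [map_sum]
    unfold pr Fr
    refine Finset.sum_congr rfl fun i _ => ?_
    rw [map_sum, Finset.sum_apply, Finset.mul_sum]
    simp only [map_sum]
    rw [Finset.sum_comm]
    refine Finset.sum_congr rfl fun B _ => ?_
    rw [Pi.smul_apply, Finset.sum_apply, smul_eq_mul, LAM_sum, Finset.mul_sum, Finset.mul_sum]
    refine Finset.sum_congr rfl fun j _ => ?_
    rw [Finset.filter_filter]
    by_cases hc : (∀ l, l ∉ B → i l = j l) ∧ Bal m i ∧ Bal m j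
    · rw [if_pos hc]
      obtain ⟨hc1, hc2, hc3⟩ := hc
      have h7 := h_CNT (e + 1) N B i j hc1 (fun k => LAM_count i j B hc2 hc3 hc1 k)
      rw [← MvPolynomial.smul_eq_C_mul, map_smul, smul_eq_mul, LAM_mono, sub_zero]
      have h8 : ((Finset.univ.filter fun σ : Equiv.Perm (Fin N) =>
          (∀ l, l ∉ B → σ l = l) ∧ i ∘ σ = j).card : ℂ) =
          ∏ k, (Nat.factorial (B.filter fun l => i l = k).card : ℂ) := by
        rw [← Nat.cast_prod, Nat.cast_inj]
        convert h7
      simp only [zero_sub]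
      rw [h8]
      ring
    · rw [if_neg hc, map_zero]
      by_cases hφi : φ i = 0
      · rw [hφi, zero_mul]
      by_cases hξj : ξ j = 0
      · rw [hξj, mul_zero, mul_zero, mul_zero]
      have h5 : ¬ ∀ l, l ∉ B → i l = j l := fun h => hc ⟨h, hφ i hφi, hξ j hξj⟩
      have h9 : (Finset.univ.filter fun σ : Equiv.Perm (Fin N) =>
          (∀ l, l ∉ B → σ l = l) ∧ i ∘ σ = j) = ∅ := by
        rw [Finset.filter_eq_empty_iff]
        rintro σ _ ⟨h10, h11⟩
        refine h5 fun l hl => ?_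
        rw [← h11, Function.comp_apply, h10 l hl]
      rw [h9, Finset.card_empty, Nat.cast_zero, zero_mul, mul_zero, mul_zero]

end Pool.Agent.KPW
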