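import Pool.Agent.KPW.Targets

set_option autoImplicit false

/-!
# KPW: the Lagrange identity
-/

open scoped BigOperators

namespace Pool.Agent.KPW

noncomputable section

namespace LGR_

lemma erase_prod {e : ℕ} (i : Fin (e + 2)) (f : Fin (e + 2) → ℂ) :
    ∏ j ∈ Finset.univ.erase i, f j = ∏ k : Fin (e + 1), f (i.succAbove k) := by
  have h : Finset.univ.erase i = Finset.univ.image i.succAbove := by
    ext j
    simp only [Finset.mem_erase, Finset.mem_univ, and_true, Finset.mem_image, true_and]
    exact Fin.exists_succAbove_eq_iff.symm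
  rw [h, Finset.prod_image]
  intro a _ b _ hab
  exact Fin.succAbove_right_injective hab

lemma lagr (e : ℕ) (v : Fin (e + 2) → ℂ) (hv : Function.Injective v) :
    ∑ i, v i ^ e / ∏ k : Fin (e + 1), (v i - v (i.succAbove k)) = 0 := by
  have h := Lagrange.coeff_eq_sum (s := (Finset.univ : Finset (Fin (e + 2)))) (v := v)
    (hv.injOn) (P := (Polynomial.X ^ e : Polynomial ℂ)) (by
      rw [Polynomial.degree_X_pow, Finset.card_univ, Fintype.card_fin]
      exact_mod_cast (by omega : e < e + 2))
  rw [Finset.card_univ, Fintype.card_fin, Polynomial.coeff_X_pow, if_neg (by omega)] at h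
  rw [h]
  refine Finset.sum_congr rfl fun i _ => ?_
  rw [erase_prod i (fun j => v i - v j), Polynomial.eval_pow, Polynomial.eval_X]

end LGR_

open LGR_ in
/-- the target -/
theorem p_LGR : T_LGR := by
  intro e x y hy hxy
  set v : Fin (e + 2) → ℂ := fun k => x k / y k with hv
  have hinj : Function.Injective v := by
    intro i k hik
    by_contra hne
    apply hxy i k hne
    have h1 : x i / y i = x k / y k := hik
    rw [div_eq_div_iff (hy i) (hy k)] at h1
    rw [h1, sub_self]
  have h0 := lagr e v hinj
  have hY : (∏ k, y k) ≠ 0 := Finset.prod_ne_zero_iff.2 fun k _ => hy k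
  have key : ∀ i, x i ^ e / ∏ k, (x i * rm y i k - rm x i k * y i) =
      (∏ k, y k)⁻¹ * (v i ^ e / ∏ k : Fin (e + 1), (v i - v (i.succAbove k))) := by
    intro i
    have h1 : ∀ k : Fin (e + 1), x i * rm y i k - rm x i k * y i =
        y i * y (i.succAbove k) * (v i - v (i.succAbove k)) := by
      intro k
      have := hy i
      have := hy (i.succAbove k)
      simp only [rm, hv]
      field_simp
    have h2 : ∏ k : Fin (e + 1), (x i * rm y i k - rm x i k * y i) =
        y i ^ e * (∏ k, y k) * ∏ k : Fin (e + 1), (v i - v (i.succAbove k)) := by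
      rw [Finset.prod_congr rfl fun k _ => h1 k, Finset.prod_mul_distrib,
        Finset.prod_mul_distrib, Finset.prod_const, Finset.card_univ, Fintype.card_fin,
        Fin.prod_univ_succAbove y i, pow_succ]
      ring
    rw [h2]
    have h3 : x i = v i * y i := by
      simp only [hv]
      rw [div_mul_cancel₀ _ (hy i)]
    have h4 : y i ^ e ≠ 0 := pow_ne_zero _ (hy i)
    rw [h3, mul_pow, mul_assoc, mul_comm (v i ^ e), mul_div_mul_left _ _ h4, div_mul_eq_div_div_swap,
      div_eq_mul_inv _ (∏ k, y k), mul_comm]
  rw [Finset.sum_congr rfl fun i _ => key i, ← Finset.mul_sum, h0, mul_zero]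

end

end Pool.Agent.KPW
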