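import Pool.Agent.KPW.Targets2

/-! KPW-LIM : asymptotics of `dt c` at `R * eta`. -/

set_option autoImplicit false

open scoped BigOperators
open Filter Topology

namespace Pool.Agent.KPW

namespace LIM_

/-- the scaled matrix, as a function of `t = 1/R` -/
noncomputable def Mt {e m : ℕ} (c : Fin (e + 1) → Fin m → ℂ) (η : Fin (e + 1) → ℂ) (t : ℂ) :
    Matrix (Fin (e + 1)) (Fin (e + 1)) ℂ :=
  Matrix.of fun a b => η b ^ (m + (a : ℕ)) +
    ∑ l : Fin m, c a l * η b ^ (l : ℕ) * t ^ (m + (a : ℕ) - (l : ℕ))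

theorem entry {e m : ℕ} (c : Fin (e + 1) → Fin m → ℂ) (a : Fin (e + 1)) (z r : ℂ) (hr : r ≠ 0) :
    z ^ (m + (a : ℕ)) + ∑ l : Fin m, c a l * z ^ (l : ℕ) * r⁻¹ ^ (m + (a : ℕ) - (l : ℕ)) =
      (r ^ (m + (a : ℕ)))⁻¹ * (fp c a).eval (r * z) := by
  have h0 : r ^ (m + (a : ℕ)) ≠ 0 := pow_ne_zero _ hr
  rw [fp, Polynomial.eval_add, Polynomial.eval_pow, Polynomial.eval_X, Polynomial.eval_finsetSum,
    mul_add, Finset.mul_sum]
  congr 1
  · rw [mul_pow, inv_mul_cancel_left₀ h0]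
  · refine Finset.sum_congr rfl fun l _ => ?_
    have hl : (l : ℕ) ≤ m + (a : ℕ) := l.2.le.trans (Nat.le_add_right _ _)
    have h1 : r ^ (m + (a : ℕ)) = r ^ (m + (a : ℕ) - (l : ℕ)) * r ^ (l : ℕ) := by
      rw [← pow_add, Nat.sub_add_cancel hl]
    rw [Polynomial.eval_mul, Polynomial.eval_C, Polynomial.eval_pow, Polynomial.eval_X, h1,
      inv_pow, mul_pow, mul_inv]
    have h2 : r ^ (l : ℕ) ≠ 0 := pow_ne_zero _ hr
    have h3 : r ^ (m + (a : ℕ) - (l : ℕ)) ≠ 0 := pow_ne_zero _ hr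
    field_simp

theorem det_eq {e m : ℕ} (c : Fin (e + 1) → Fin m → ℂ) (η : Fin (e + 1) → ℂ) (r : ℂ)
    (hr : r ≠ 0) :
    dt c (fun k => r * η k) / r ^ (∑ a : Fin (e + 1), (m + (a : ℕ))) = (Mt c η r⁻¹).det := by
  have h1 : Mt c η r⁻¹ = Matrix.of fun a b : Fin (e + 1) => (r ^ (m + (a : ℕ)))⁻¹ *
      (Matrix.of fun a b : Fin (e + 1) => (fp c a).eval (r * η b)) a b := by
    ext a b
    rw [Mt, Matrix.of_apply, Matrix.of_apply, Matrix.of_apply]
    exact entry c a (η b) r hr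
  rw [h1, Matrix.det_mul_column, dt, Finset.prod_inv_distrib, Finset.prod_pow_eq_pow_sum]
  rw [div_eq_mul_inv, mul_comm]

theorem det_zero {e m : ℕ} (c : Fin (e + 1) → Fin m → ℂ) (η : Fin (e + 1) → ℂ) :
    (Mt c η 0).det = (∏ k, η k) ^ m * vdm η := by
  have h1 : Mt c η 0 = Matrix.of fun a b : Fin (e + 1) => (η b ^ m) *
      (Matrix.vandermonde η).transpose a b := by
    ext a b
    rw [Mt, Matrix.of_apply, Matrix.of_apply, Matrix.transpose_apply, Matrix.vandermonde_apply,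
      ← pow_add]
    have h2 : ∑ l : Fin m, c a l * η b ^ (l : ℕ) * (0 : ℂ) ^ (m + (a : ℕ) - (l : ℕ)) = 0 := by
      refine Finset.sum_eq_zero fun l _ => ?_
      have hl : m + (a : ℕ) - (l : ℕ) ≠ 0 := by
        have := l.2
        omega
      rw [zero_pow hl, mul_zero]
    rw [h2, add_zero]
  rw [h1, Matrix.det_mul_row, Matrix.det_transpose, Finset.prod_pow]
  rfl

theorem cont {e m : ℕ} (c : Fin (e + 1) → Fin m → ℂ) (η : Fin (e + 1) → ℂ) :
    Continuous fun t : ℂ => (Mt c η t).det := by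
  apply Continuous.matrix_det
  apply continuous_matrix
  intro a b
  simp only [Mt, Matrix.of_apply]
  fun_prop

theorem inv_tendsto : Tendsto (fun R : ℝ => ((R : ℂ))⁻¹) atTop (𝓝 0) := by
  have h := (Complex.continuous_ofReal.tendsto 0).comp tendsto_inv_atTop_zero
  simp only [Complex.ofReal_zero] at h
  refine h.congr fun R => ?_
  simp only [Function.comp_apply, Complex.ofReal_inv]

end LIM_

open LIM_

theorem p_LIM : T_LIM := by
  intro e m c η
  rw [← det_zero c η]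
  have h := ((cont c η).tendsto 0).comp inv_tendsto
  refine h.congr' ?_
  filter_upwards [eventually_ne_atTop (0 : ℝ)] with R hR
  have hR' : (R : ℂ) ≠ 0 := by exact_mod_cast hR
  exact (det_eq c η (R : ℂ) hR').symm

end Pool.Agent.KPW
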