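import Pool.Agent.KPW.Targets2

set_option autoImplicit false

open scoped BigOperators
open Filter Topology

namespace Pool.Agent.KPW

/-- the point (x, u, u + s, .., u + s (e-1)) -/
noncomputable def LMC_y (e : ℕ) (u x s : ℂ) : Fin (e + 1) → ℂ :=
  Fin.cons x (fun k : Fin e => u + s * ((k : ℕ) : ℂ))

lemma LMC_vdm_cons {e : ℕ} (x : ℂ) (z : Fin e → ℂ) :
    vdm (Fin.cons x z : Fin (e + 1) → ℂ) = (∏ k, (z k - x)) * vdm z := by
  unfold vdm
  rw [Matrix.det_vandermonde, Matrix.det_vandermonde, Fin.prod_univ_succ]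
  congr 1
  · rw [Fin.prod_Ioi_zero]
    simp
  · refine Finset.prod_congr rfl fun k _ => ?_
    rw [Fin.prod_Ioi_succ]
    simp

lemma LMC_dt_cons {e m : ℕ} (c : Fin (e + 1) → Fin m → ℂ) (x : ℂ) (z : Fin e → ℂ) :
    dt c (Fin.cons x z : Fin (e + 1) → ℂ) =
      ∑ a : Fin (e + 1), (-1 : ℂ) ^ (a : ℕ) * (fp c a).eval x * dG (fun k : Fin e => fp c (a.succAbove k)) z := by
  unfold dt dG
  rw [Matrix.det_succ_column_zero]
  refine Finset.sum_congr rfl fun a _ => ?_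
  congr 1

lemma LMC_WrN_eval {n : ℕ} (g : Fin n → Polynomial ℂ) (u : ℂ) :
    (WrN g).eval u = Matrix.det (Matrix.of fun a b : Fin n => (Polynomial.derivative^[(b : ℕ)] (g a)).eval u) := by
  rw [WrN, ← Polynomial.coe_evalRingHom, RingHom.map_det]
  congr 1

lemma LMC_lm {e m : ℕ} (c : Fin (e + 1) → Fin m → ℂ) (u x : ℂ) :
    lm c u x * ∏ a : Fin (e + 1), (Nat.factorial (a : ℕ) : ℂ) =
      ∑ a : Fin (e + 1), (-1 : ℂ) ^ ((a : ℕ) + e) * (fp c a).eval x *
        (WrN (fun k : Fin e => fp c (a.succAbove k))).eval u := by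
  have hf : (∏ a : Fin (e + 1), (Nat.factorial (a : ℕ) : ℂ)) ≠ 0 :=
    Finset.prod_ne_zero_iff.2 fun a _ => by exact_mod_cast Nat.factorial_ne_zero _
  rw [lm, div_mul_cancel₀ _ hf, Matrix.det_succ_column _ (Fin.last e)]
  refine Finset.sum_congr rfl fun a _ => ?_
  rw [LMC_WrN_eval]
  congr 1
  · simp
  · congr 1
    ext i j
    rw [Matrix.submatrix_apply, Matrix.of_apply, Matrix.of_apply, Fin.succAbove_last]
    rw [if_neg (Fin.castSucc_lt_last j).ne]
    simp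

lemma LMC_key (h_CFL : T_CFL) {e m : ℕ} (w : Fin ((e + 1) * m) → ℂ) (v φ : Tn (e + 1) ((e + 1) * m))
    (c : Fin (e + 1) → Fin m → ℂ)
    (hE : ∀ x : Fin (e + 1) → ℂ, vdm x * pr φ (Tx w x v) = dt c x * pr φ v) (u x : ℂ) :
    (u - x) ^ e * pr φ (Tx w (pt x u) v) =
      (∑ a : Fin (e + 1), (-1 : ℂ) ^ (a : ℕ) * (fp c a).eval x *
        ((WrN (fun k : Fin e => fp c (a.succAbove k))).eval u / ∏ k : Fin e, (Nat.factorial (k : ℕ) : ℂ))) *
        pr φ v := by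
  have hL : Tendsto (fun s : ℝ => (∏ k : Fin e, ((u + (s : ℂ) * ((k : ℕ) : ℂ)) - x)) *
      pr φ (Tx w (LMC_y e u x (s : ℂ)) v)) (𝓝[≠] 0) (𝓝 ((u - x) ^ e * pr φ (Tx w (pt x u) v))) := by
    have hc : Continuous (fun s : ℝ => (∏ k : Fin e, ((u + (s : ℂ) * ((k : ℕ) : ℂ)) - x)) *
      pr φ (Tx w (LMC_y e u x (s : ℂ)) v)) := by
      refine Continuous.mul (by fun_prop) ?_
      unfold pr Tx
      refine continuous_finsetSum _ fun i _ => ?_
      refine Continuous.mul continuous_const (Continuous.mul ?_ continuous_const)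
      refine continuous_finsetProd _ fun l _ => ?_
      refine Continuous.sub ?_ continuous_const
      rcases Fin.eq_zero_or_eq_succ (i l) with h | ⟨j, h⟩
      · rw [h]
        simp only [LMC_y, Fin.cons_zero]
        exact continuous_const
      · rw [h]
        simp only [LMC_y, Fin.cons_succ]
        fun_prop
    have h0 := (hc.tendsto 0).mono_left (nhdsWithin_le_nhds (s := {0}ᶜ))
    have hy : LMC_y e u x ((0 : ℝ) : ℂ) = pt x u := by
      funext k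
      rcases Fin.eq_zero_or_eq_succ k with h | ⟨j, h⟩
      · rw [h]
        simp [LMC_y, pt]
      · rw [h]
        simp [LMC_y, pt, Fin.succ_ne_zero]
    rw [hy] at h0
    simpa using h0
  have hR : Tendsto (fun s : ℝ => (∑ a : Fin (e + 1), (-1 : ℂ) ^ (a : ℕ) * (fp c a).eval x *
        (dG (fun k : Fin e => fp c (a.succAbove k)) (fun b : Fin e => u + (s : ℂ) * ((b : ℕ) : ℂ)) /
          vdm (fun b : Fin e => u + (s : ℂ) * ((b : ℕ) : ℂ)))) * pr φ v) (𝓝[≠] 0)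
      (𝓝 ((∑ a : Fin (e + 1), (-1 : ℂ) ^ (a : ℕ) * (fp c a).eval x *
        ((WrN (fun k : Fin e => fp c (a.succAbove k))).eval u / ∏ k : Fin e, (Nat.factorial (k : ℕ) : ℂ))) *
        pr φ v)) := by
    refine Tendsto.mul_const _ (tendsto_finsetSum _ fun a _ => ?_)
    exact (h_CFL e (fun k : Fin e => fp c (a.succAbove k)) u).const_mul _
  refine tendsto_nhds_unique hL (hR.congr' ?_)
  filter_upwards [self_mem_nhdsWithin] with s hs
  have hs' : (s : ℂ) ≠ 0 := by exact_mod_cast hs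
  have hv : vdm (fun b : Fin e => u + (s : ℂ) * ((b : ℕ) : ℂ)) ≠ 0 := by
    unfold vdm
    refine (Matrix.det_vandermonde_ne_zero_iff).2 ?_
    intro a b h
    have h1 : u + (s : ℂ) * ((a : ℕ) : ℂ) = u + (s : ℂ) * ((b : ℕ) : ℂ) := h
    have h2 : ((a : ℕ) : ℂ) = ((b : ℕ) : ℂ) := mul_left_cancel₀ hs' (add_left_cancel h1)
    exact Fin.ext (by exact_mod_cast h2)
  have h1 := hE (LMC_y e u x (s : ℂ))
  have h2 : dt c (LMC_y e u x (s : ℂ)) = ∑ a : Fin (e + 1), (-1 : ℂ) ^ (a : ℕ) * (fp c a).eval x *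
      dG (fun k : Fin e => fp c (a.succAbove k)) (fun b : Fin e => u + (s : ℂ) * ((b : ℕ) : ℂ)) :=
    LMC_dt_cons c x _
  have h3 : vdm (LMC_y e u x (s : ℂ)) = (∏ k : Fin e, ((u + (s : ℂ) * ((k : ℕ) : ℂ)) - x)) *
      vdm (fun b : Fin e => u + (s : ℂ) * ((b : ℕ) : ℂ)) := LMC_vdm_cons x _
  rw [h2, h3] at h1
  have h4 : (∑ a : Fin (e + 1), (-1 : ℂ) ^ (a : ℕ) * (fp c a).eval x *
        (dG (fun k : Fin e => fp c (a.succAbove k)) (fun b : Fin e => u + (s : ℂ) * ((b : ℕ) : ℂ)) /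
          vdm (fun b : Fin e => u + (s : ℂ) * ((b : ℕ) : ℂ)))) =
      (∑ a : Fin (e + 1), (-1 : ℂ) ^ (a : ℕ) * (fp c a).eval x *
        dG (fun k : Fin e => fp c (a.succAbove k)) (fun b : Fin e => u + (s : ℂ) * ((b : ℕ) : ℂ))) /
          vdm (fun b : Fin e => u + (s : ℂ) * ((b : ℕ) : ℂ)) := by
    rw [Finset.sum_div]
    refine Finset.sum_congr rfl fun a _ => ?_
    rw [mul_div_assoc]
  rw [h4, div_mul_eq_mul_div, ← h1]
  field_simp

theorem p_LMC (h_CFL : T_CFL) (h_TWO : T_TWO) (h_CJI : T_CJI) (h_FIN : T_FIN) : T_LMC := by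
  intro e m w v c hE u x
  obtain ⟨hv, -, hE⟩ := hE
  have hF : Fr w u x v ∈ Inv (e + 1) m ((e + 1) * m) := (h_FIN e _ w u x).2.2.2.1 m v hv
  have hz : Fr w u x v - lm c u x • v ∈ Inv (e + 1) m ((e + 1) * m) :=
    Submodule.sub_mem _ hF (Submodule.smul_mem _ _ hv)
  have h0 := (h_CJI (e + 1) m _ _ hz).2.2 ?_
  · exact sub_eq_zero.1 h0
  intro φ hφ
  have hpr : pr φ (Fr w u x v - lm c u x • v) = pr φ (Fr w u x v) - lm c u x * pr φ v := by
    simp only [pr, Pi.sub_apply, Pi.smul_apply, smul_eq_mul, mul_sub, Finset.sum_sub_distrib, Finset.mul_sum]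
    congr 1
    refine Finset.sum_congr rfl fun i _ => ?_
    ring
  rw [hpr, h_TWO e m _ w u x φ hφ v hv]
  have hk := LMC_key h_CFL w v φ c (hE φ hφ) u x
  have hl := LMC_lm c u x
  have hfe : (Nat.factorial e : ℂ) ≠ 0 := by exact_mod_cast Nat.factorial_ne_zero _
  have hf : (∏ k : Fin e, (Nat.factorial (k : ℕ) : ℂ)) ≠ 0 :=
    Finset.prod_ne_zero_iff.2 fun a _ => by exact_mod_cast Nat.factorial_ne_zero _
  have hp : (∏ a : Fin (e + 1), (Nat.factorial (a : ℕ) : ℂ)) =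
      (∏ k : Fin e, (Nat.factorial (k : ℕ) : ℂ)) * (Nat.factorial e : ℂ) := by
    rw [Fin.prod_univ_castSucc]
    simp
  have hs1 : (∑ a : Fin (e + 1), (-1 : ℂ) ^ ((a : ℕ) + e) * (fp c a).eval x *
        (WrN (fun k : Fin e => fp c (a.succAbove k))).eval u) =
      (-1) ^ e * (∏ k : Fin e, (Nat.factorial (k : ℕ) : ℂ)) *
      (∑ a : Fin (e + 1), (-1 : ℂ) ^ (a : ℕ) * (fp c a).eval x *
        ((WrN (fun k : Fin e => fp c (a.succAbove k))).eval u / ∏ k : Fin e, (Nat.factorial (k : ℕ) : ℂ))) := by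
    rw [Finset.mul_sum]
    refine Finset.sum_congr rfl fun a _ => ?_
    rw [pow_add]
    field_simp
  rw [hs1, hp] at hl
  have hx : (x - u) ^ e = (-1) ^ e * (u - x) ^ e := by
    rw [← mul_pow]; congr 1; ring
  have h5 : lm c u x * (Nat.factorial e : ℂ) = (-1) ^ e *
      (∑ a : Fin (e + 1), (-1 : ℂ) ^ (a : ℕ) * (fp c a).eval x *
        ((WrN (fun k : Fin e => fp c (a.succAbove k))).eval u / ∏ k : Fin e, (Nat.factorial (k : ℕ) : ℂ))) := by
    refine mul_left_cancel₀ hf ?_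
    rw [← sub_eq_zero] at hl ⊢
    rw [← hl]
    ring
  rw [sub_eq_zero, hx, div_mul_eq_mul_div, mul_assoc, hk, div_eq_iff hfe]
  rw [mul_right_comm (lm c u x), h5]
  ring

end Pool.Agent.KPW
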