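import Pool.Agent.KPW.Targets

set_option autoImplicit false

/-!
# KPW-LMH: `Lam e t` only sees the hyperplane `∑ r = t`
-/

open scoped BigOperators

namespace Pool.Agent.KPW

theorem p_LMH (h_LMS : T_LMS) : T_LMH := by
  intro e t p q hpq
  have key : ∃ g : MvPolynomial (Fin (e + 1)) ℂ,
      p - q = (∑ k, MvPolynomial.X k - MvPolynomial.C t) * g := by
    set H := MvPolynomial.finSuccEquiv ℂ e (p - q) with hH
    set ρ : MvPolynomial (Fin e) ℂ := MvPolynomial.C t - ∑ k, MvPolynomial.X k with hρ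
    have h1 : H.eval ρ = 0 := by
      apply MvPolynomial.funext
      intro r
      have h2 := MvPolynomial.eval_eq_eval_mv_eval' r (MvPolynomial.eval r ρ) (p - q)
      rw [← hH] at h2
      have h3 : MvPolynomial.eval r (H.eval ρ) =
          Polynomial.eval (MvPolynomial.eval r ρ) (H.map (MvPolynomial.eval r)) := by
        rw [Polynomial.eval_map, Polynomial.eval₂_hom]
      rw [h3, ← h2, map_zero, map_sub, sub_eq_zero]
      apply hpq
      rw [Fin.sum_univ_succ]
      simp [hρ]
    obtain ⟨G, hG⟩ := Polynomial.dvd_iff_isRoot.2 h1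
    refine ⟨(MvPolynomial.finSuccEquiv ℂ e).symm G, ?_⟩
    apply (MvPolynomial.finSuccEquiv ℂ e).injective
    rw [map_mul, AlgEquiv.apply_symm_apply, ← hH, hG]
    congr 1
    have h4 : MvPolynomial.finSuccEquiv ℂ e (MvPolynomial.C t) =
        Polynomial.C (MvPolynomial.C t) := by
      simp [MvPolynomial.finSuccEquiv_apply]
    have h6 : MvPolynomial.finSuccEquiv ℂ e (∑ k, MvPolynomial.X k) =
        Polynomial.X + Polynomial.C (∑ k, MvPolynomial.X k) := by
      rw [map_sum, Fin.sum_univ_succ, map_sum]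
      simp only [MvPolynomial.finSuccEquiv_X_zero, MvPolynomial.finSuccEquiv_X_succ]
    have h7 : MvPolynomial.finSuccEquiv ℂ e (∑ k, MvPolynomial.X k - MvPolynomial.C t) =
        Polynomial.X + Polynomial.C (∑ k, MvPolynomial.X k) - Polynomial.C (MvPolynomial.C t) := by
      rw [map_sub, h6, h4]
    rw [h7, hρ, Polynomial.C_sub]
    ring
  obtain ⟨g, hg⟩ := key
  have h5 : Lam e t (p - q) = 0 := by
    rw [hg, sub_mul, map_sub, (h_LMS e t).1 g, ← MvPolynomial.smul_eq_C_mul, map_smul, smul_eq_mul,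
      sub_self]
  rw [map_sub, sub_eq_zero] at h5
  exact h5

end Pool.Agent.KPW
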