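import Pool.Agent.KPW.Targets

/-!
# KPW-LMS: `Lam` and the sum of the variables (helper14)
-/

set_option autoImplicit false

open scoped BigOperators

namespace Pool.Agent.KPW

noncomputable section

namespace LMS_

lemma Lam_mon (e : ℕ) (t : ℂ) (ν : Fin (e + 1) →₀ ℕ) :
    Lam e t (MvPolynomial.monomial ν 1) =
      (∏ k, (Nat.factorial (ν k) : ℂ)) *
        (t ^ ((∑ k, ν k) + e) / (Nat.factorial ((∑ k, ν k) + e) : ℂ)) := by
  have h := (MvPolynomial.basisMonomials (Fin (e + 1)) ℂ).constr_basis ℂ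
    (fun ν : Fin (e + 1) →₀ ℕ => (∏ k, (Nat.factorial (ν k) : ℂ)) *
      (t ^ ((∑ k, ν k) + e) / (Nat.factorial ((∑ k, ν k) + e) : ℂ))) ν
  rw [MvPolynomial.coe_basisMonomials] at h
  exact h

lemma prod_fac (e : ℕ) (ν : Fin (e + 1) →₀ ℕ) (k : Fin (e + 1)) :
    ∏ j, (Nat.factorial ((Finsupp.single k 1 + ν : Fin (e + 1) →₀ ℕ) j) : ℂ) =
      ((ν k : ℂ) + 1) * ∏ j, (Nat.factorial (ν j) : ℂ) := by
  rw [← Finset.mul_prod_erase Finset.univ _ (Finset.mem_univ k),
    ← Finset.mul_prod_erase Finset.univ (fun j => (Nat.factorial (ν j) : ℂ)) (Finset.mem_univ k)]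
  have h1 : (Nat.factorial ((Finsupp.single k 1 + ν : Fin (e + 1) →₀ ℕ) k) : ℂ) =
      ((ν k : ℂ) + 1) * (Nat.factorial (ν k) : ℂ) := by
    rw [Finsupp.add_apply, Finsupp.single_eq_same, add_comm 1, Nat.factorial_succ]
    push_cast
    ring
  rw [h1, mul_assoc]
  congr 2
  refine Finset.prod_congr rfl fun j hj => ?_
  rw [Finsupp.add_apply, Finsupp.single_eq_of_ne (Finset.ne_of_mem_erase hj), zero_add]

lemma sum_single (e : ℕ) (ν : Fin (e + 1) →₀ ℕ) (k : Fin (e + 1)) :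
    ∑ j, (Finsupp.single k 1 + ν : Fin (e + 1) →₀ ℕ) j = (∑ j, ν j) + 1 := by
  simp only [Finsupp.add_apply, Finset.sum_add_distrib]
  rw [add_comm]
  congr 1
  rw [Finset.sum_eq_single k]
  · exact Finsupp.single_eq_same
  · intro j _ hj
    exact Finsupp.single_eq_of_ne hj
  · intro h
    exact absurd (Finset.mem_univ k) h

lemma one_mon (e : ℕ) (t : ℂ) (ν : Fin (e + 1) →₀ ℕ) :
    Lam e t ((∑ k, MvPolynomial.X k) * MvPolynomial.monomial ν 1) =
      t * Lam e t (MvPolynomial.monomial ν 1) := by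
  rw [Finset.sum_mul, map_sum, Lam_mon]
  have h1 : ∀ k : Fin (e + 1), Lam e t (MvPolynomial.X k * MvPolynomial.monomial ν 1) =
      ((ν k : ℂ) + 1) * ((∏ j, (Nat.factorial (ν j) : ℂ)) *
        (t ^ ((∑ j, ν j) + 1 + e) / (Nat.factorial ((∑ j, ν j) + 1 + e) : ℂ))) := by
    intro k
    rw [MvPolynomial.X, MvPolynomial.monomial_mul, one_mul, Lam_mon, prod_fac, sum_single,
      mul_assoc]
  rw [Finset.sum_congr rfl fun k _ => h1 k, ← Finset.sum_mul, Finset.sum_add_distrib]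
  have h2 : (∑ j, ν j) + 1 + e = ((∑ j, ν j) + e) + 1 := by ring
  rw [h2, Nat.factorial_succ, pow_succ]
  have h3 : ((Nat.factorial ((∑ j, ν j) + e) : ℕ) : ℂ) ≠ 0 :=
    Nat.cast_ne_zero.2 (Nat.factorial_ne_zero _)
  have h4 : ((((∑ j, ν j) + e) + 1 : ℕ) : ℂ) ≠ 0 := Nat.cast_ne_zero.2 (Nat.succ_ne_zero _)
  have h5 : (∑ j, (ν j : ℂ)) + ∑ _j : Fin (e + 1), (1 : ℂ) =
      ((((∑ j, ν j) + e) + 1 : ℕ) : ℂ) := by
    simp
    ring
  rw [h5, Nat.cast_mul]
  field_simp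

lemma one (e : ℕ) (t : ℂ) (p : MvPolynomial (Fin (e + 1)) ℂ) :
    Lam e t ((∑ k, MvPolynomial.X k) * p) = t * Lam e t p := by
  induction p using MvPolynomial.induction_on' with
  | monomial ν a =>
    have h : MvPolynomial.monomial ν a = a • MvPolynomial.monomial ν (1 : ℂ) := by
      rw [MvPolynomial.smul_monomial, smul_eq_mul, mul_one]
    rw [h, mul_smul_comm, map_smul, map_smul, one_mon, smul_eq_mul, smul_eq_mul]
    ring
  | add p q hp hq => rw [mul_add, map_add, map_add, hp, hq, mul_add]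

lemma Lam_one (e : ℕ) (t : ℂ) : Lam e t 1 = t ^ e / (Nat.factorial e : ℂ) := by
  have h := Lam_mon e t 0
  have h1 : (MvPolynomial.monomial (0 : Fin (e + 1) →₀ ℕ) (1 : ℂ)) = 1 := rfl
  rw [h1] at h
  rw [h]
  simp

lemma Lam_pow (e : ℕ) (t : ℂ) (n : ℕ) :
    Lam e t ((∑ k, MvPolynomial.X k) ^ n) = t ^ n * (t ^ e / (Nat.factorial e : ℂ)) := by
  induction n with
  | zero => rw [pow_zero, pow_zero, one_mul, Lam_one]
  | succ n ih => rw [pow_succ', one, ih, pow_succ]; ring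

end LMS_

/-- KPW-LMS -/
theorem p_LMS : T_LMS := by
  intro e t
  refine ⟨LMS_.one e t, fun q => ?_⟩
  induction q using Polynomial.induction_on' with
  | add p q hp hq => rw [map_add, map_add, hp, hq, Polynomial.eval_add, mul_add]
  | monomial n a =>
    rw [Polynomial.aeval_monomial, Polynomial.eval_monomial, ← Algebra.smul_def, map_smul,
      LMS_.Lam_pow, smul_eq_mul]
    ring

end

end Pool.Agent.KPW
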