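import Pool.Agent.KPW.Targets2

set_option autoImplicit false

/-!
# KPW-LMU: `lm c` determines `c` (MP_0c25eb_ag, project SEC), helper66
-/

open scoped BigOperators
open Filter Topology

namespace Pool.Agent.KPW

noncomputable section

namespace LMU_

/-- low coefficients of `fp c a` -/
theorem coeff_low {e m : ℕ} (c : Fin (e + 1) → Fin m → ℂ) (a : Fin (e + 1)) (l : Fin m) :
    (fp c a).coeff (l : ℕ) = c a l := by
  unfold fp
  rw [Polynomial.coeff_add, Polynomial.coeff_X_pow, Polynomial.finsetSum_coeff]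
  have h1 : ¬ ((l : ℕ) = m + (a : ℕ)) := by
    have := l.isLt
    omega
  rw [if_neg h1, zero_add, Finset.sum_eq_single l]
  · rw [Polynomial.coeff_C_mul, Polynomial.coeff_X_pow, if_pos rfl, mul_one]
  · intro k _ hk
    have h2 : ¬ ((l : ℕ) = (k : ℕ)) := fun h => hk (Fin.ext h.symm)
    rw [Polynomial.coeff_C_mul, Polynomial.coeff_X_pow, if_neg h2, mul_zero]
  · intro h
    exact absurd (Finset.mem_univ l) h

/-- high coefficients of `fp c a` -/
theorem coeff_high {e m : ℕ} (c : Fin (e + 1) → Fin m → ℂ) (a k : Fin (e + 1)) :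
    (fp c a).coeff (m + (k : ℕ)) = if k = a then 1 else 0 := by
  unfold fp
  rw [Polynomial.coeff_add, Polynomial.coeff_X_pow, Polynomial.finsetSum_coeff]
  have h1 : ∑ l : Fin m, (Polynomial.C (c a l) * Polynomial.X ^ (l : ℕ)).coeff (m + (k : ℕ)) = 0 := by
    apply Finset.sum_eq_zero
    intro l _
    have h2 : ¬ (m + (k : ℕ) = (l : ℕ)) := by
      have := l.isLt
      omega
    rw [Polynomial.coeff_C_mul, Polynomial.coeff_X_pow, if_neg h2, mul_zero]
  rw [h1, add_zero]
  by_cases hk : k = a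
  · rw [if_pos hk, if_pos (by rw [hk])]
  · rw [if_neg hk, if_neg]
    intro h
    exact hk (Fin.ext (by omega))

/-- minors -/
def K {e m : ℕ} (c : Fin (e + 1) → Fin m → ℂ) (u : ℂ) (i : Fin (e + 1)) : ℂ :=
  (-1 : ℂ) ^ ((i : ℕ) + ((Fin.last e : Fin (e + 1)) : ℕ)) * Matrix.det (Matrix.of fun a b : Fin e =>
    (Polynomial.derivative^[(b : ℕ)] (fp c (i.succAbove a))).eval u)

/-- expansion along the last column -/
theorem expand {e m : ℕ} (c : Fin (e + 1) → Fin m → ℂ) (u : ℂ) (β : Fin (e + 1) → ℂ) :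
    Matrix.det (Matrix.of fun a b : Fin (e + 1) =>
      if b = Fin.last e then β a else (Polynomial.derivative^[(b : ℕ)] (fp c a)).eval u) =
    ∑ i, K c u i * β i := by
  rw [Matrix.det_succ_column _ (Fin.last e)]
  apply Finset.sum_congr rfl
  intro i _
  unfold K
  have h1 : (Matrix.of fun a b : Fin (e + 1) =>
      if b = Fin.last e then β a else
        (Polynomial.derivative^[(b : ℕ)] (fp c a)).eval u).submatrix i.succAbove
        (Fin.last e).succAbove = Matrix.of fun a b : Fin e =>
        (Polynomial.derivative^[(b : ℕ)] (fp c (i.succAbove a))).eval u := by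
    ext a b
    rw [Matrix.submatrix_apply, Matrix.of_apply, Matrix.of_apply, Fin.succAbove_last,
      if_neg (Fin.castSucc_lt_last b).ne, Fin.val_castSucc]
  rw [h1, Matrix.of_apply, if_pos rfl]
  ring

/-- the functional -/
def ell {e m : ℕ} (c' : Fin (e + 1) → Fin m → ℂ) (l : Fin m) (f : Polynomial ℂ) : ℂ :=
  f.coeff (l : ℕ) - ∑ k : Fin (e + 1), c' k l * f.coeff (m + (k : ℕ))

theorem ell_sum {e m : ℕ} (c' : Fin (e + 1) → Fin m → ℂ) (l : Fin m) (κ : Fin (e + 1) → ℂ)
    (f : Fin (e + 1) → Polynomial ℂ) :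
    ell c' l (∑ i, Polynomial.C (κ i) * f i) = ∑ i, κ i * ell c' l (f i) := by
  unfold ell
  simp only [Polynomial.finsetSum_coeff, Polynomial.coeff_C_mul, mul_sub, Finset.sum_sub_distrib,
    Finset.mul_sum]
  congr 1
  rw [Finset.sum_comm]
  apply Finset.sum_congr rfl
  intro i _
  apply Finset.sum_congr rfl
  intro k _
  ring

theorem ell_fp {e m : ℕ} (c c' : Fin (e + 1) → Fin m → ℂ) (l : Fin m) (a : Fin (e + 1)) :
    ell c' l (fp c a) = c a l - c' a l := by
  unfold ell
  rw [coeff_low]
  simp only [coeff_high]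
  simp

end LMU_

open LMU_ in
theorem p_LMU (h_KAP : T_KAP) : T_LMU := by
  intro e m c c' hlm
  have hfac : (∏ a : Fin (e + 1), (Nat.factorial (a : ℕ) : ℂ)) ≠ 0 := by
    apply Finset.prod_ne_zero_iff.2
    intro a _
    exact_mod_cast Nat.factorial_ne_zero _
  have hpoly : ∀ u : ℂ, ∑ i, Polynomial.C (K c u i) * fp c i =
      ∑ i, Polynomial.C (K c' u i) * fp c' i := by
    intro u
    apply Polynomial.funext
    intro x
    have h1 := hlm u x
    unfold lm at h1
    rw [div_left_inj' hfac, expand, expand] at h1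
    simpa [Polynomial.eval_finsetSum] using h1
  funext a l
  have hβ : (fun a => c a l - c' a l) = (0 : Fin (e + 1) → ℂ) := by
    apply h_KAP e m c
    intro u
    rw [expand]
    have h1 := congrArg (ell c' l) (hpoly u)
    rw [ell_sum, ell_sum] at h1
    simp only [ell_fp, sub_self, mul_zero, Finset.sum_const_zero] at h1
    exact h1
  have := congrFun hβ a
  simpa [sub_eq_zero] using this

end

end Pool.Agent.KPW
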