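import Pool.Agent.KPW.Targets

set_option autoImplicit false

/-!
# KPW-LPW: `Lam` of a power of a linear form
-/

open scoped BigOperators

namespace Pool.Agent.KPW

namespace LPW_

/-- `Lam` of a monomial -/
theorem lam_monomial (e : ℕ) (t : ℂ) (ν : Fin (e + 1) →₀ ℕ) (c : ℂ) :
    Lam e t (MvPolynomial.monomial ν c) = c * ((∏ k, (Nat.factorial (ν k) : ℂ)) *
      (t ^ ((∑ k, ν k) + e) / (Nat.factorial ((∑ k, ν k) + e) : ℂ))) := by
  have h : MvPolynomial.monomial ν c = c • (MvPolynomial.basisMonomials (Fin (e + 1)) ℂ ν) := by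
    rw [MvPolynomial.coe_basisMonomials, MvPolynomial.smul_monomial, smul_eq_mul, mul_one]
  rw [h, map_smul, Lam, Module.Basis.constr_basis, smul_eq_mul]

/-- the product of the monomials -/
theorem prod_eq {n : ℕ} (η : Fin n → ℂ) (ν : Fin n → ℕ) :
    (∏ k, (MvPolynomial.C (η k) * MvPolynomial.X k : MvPolynomial (Fin n) ℂ) ^ ν k) =
      MvPolynomial.monomial (Finsupp.equivFunOnFinite.symm ν) (∏ k, η k ^ ν k) := by
  rw [MvPolynomial.monomial_eq, Finsupp.prod_fintype _ _ (fun i => pow_zero _), map_prod,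
    ← Finset.prod_mul_distrib]
  apply Finset.prod_congr rfl
  intro k _
  rw [mul_pow, map_pow]
  rfl

end LPW_

open LPW_ in
theorem p_LPW : T_LPW := by
  intro e q t η
  have h1 : hq q η = ∑ ν ∈ Finset.piAntidiag (Finset.univ : Finset (Fin (e + 1))) q,
      ∏ k, η k ^ ν k := by
    unfold hq
    rw [PowerSeries.coeff_prod]
    apply Finset.sum_bij' (fun (l : Fin (e + 1) →₀ ℕ) _ => (l : Fin (e + 1) → ℕ))
      (fun ν _ => Finsupp.equivFunOnFinite.symm ν)
    · intro l hl
      rw [Finset.mem_finsuppAntidiag] at hl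
      rw [Finset.mem_piAntidiag]
      exact ⟨hl.1, fun i _ => Finset.mem_univ i⟩
    · intro ν hν
      rw [Finset.mem_piAntidiag] at hν
      rw [Finset.mem_finsuppAntidiag]
      exact ⟨hν.1, Finset.subset_univ _⟩
    · intro l _
      ext i
      rfl
    · intro ν _
      rfl
    · intro l _
      apply Finset.prod_congr rfl
      intro k _
      rw [PowerSeries.coeff_mk]
  rw [h1, Finset.sum_pow_eq_sum_piAntidiag, map_sum, Finset.mul_sum]
  apply Finset.sum_congr rfl
  intro ν hν
  rw [Finset.mem_piAntidiag] at hν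
  have hsum : (∑ k, ν k) = q := hν.1
  have h2 : ((Nat.multinomial Finset.univ ν : ℕ) : MvPolynomial (Fin (e + 1)) ℂ) *
      (∏ k, (MvPolynomial.C (η k) * MvPolynomial.X k : MvPolynomial (Fin (e + 1)) ℂ) ^ ν k) =
      MvPolynomial.monomial (Finsupp.equivFunOnFinite.symm ν)
        ((Nat.multinomial Finset.univ ν : ℂ) * ∏ k, η k ^ ν k) := by
    rw [prod_eq, ← MvPolynomial.C_mul_monomial]
    simp
  have h3 : ((∏ k, (Nat.factorial (ν k) : ℂ))) * (Nat.multinomial Finset.univ ν : ℂ) =
      (Nat.factorial q : ℂ) := by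
    have := Nat.multinomial_spec Finset.univ ν
    rw [hsum] at this
    exact_mod_cast this
  have h4 : ∀ k, (Finsupp.equivFunOnFinite.symm ν : Fin (e + 1) →₀ ℕ) k = ν k := fun _ => rfl
  rw [h2, lam_monomial]
  simp only [h4]
  rw [hsum, ← h3]
  ring

end Pool.Agent.KPW
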