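import Pool.Agent.KPW.Targets2

set_option autoImplicit false

open scoped BigOperators Topology
open Filter

namespace Pool.Agent.KPW

lemma LTX_inv_tendsto : Tendsto (fun R : ℝ => ((R : ℂ))⁻¹) atTop (𝓝 0) := by
  have h := (Complex.continuous_ofReal.tendsto (0 : ℝ)).comp tendsto_inv_atTop_zero
  simpa [Function.comp_def] using h

lemma LTX_bal {e m : ℕ} (η : Fin (e + 1) → ℂ) (i : Fin ((e + 1) * m) → Fin (e + 1))
    (hi : Bal m i) : ∏ l, η (i l) = (∏ k, η k) ^ m := by
  rw [← Finset.prod_fiberwise (s := Finset.univ) (g := i) (f := fun l => η (i l)),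
    ← Finset.prod_pow]
  refine Finset.prod_congr rfl fun k _ => ?_
  have h1 : ∏ l ∈ Finset.univ.filter (fun l => i l = k), η (i l) =
      ∏ _l ∈ Finset.univ.filter (fun l => i l = k), η k := by
    refine Finset.prod_congr rfl fun l hl => ?_
    rw [(Finset.mem_filter.mp hl).2]
  rw [h1, Finset.prod_const, hi k]

lemma LTX_term {e m : ℕ} (w : Fin ((e + 1) * m) → ℂ) (η : Fin (e + 1) → ℂ)
    (φ v : Tn (e + 1) ((e + 1) * m)) (hv : BalT m v) (i : Fin ((e + 1) * m) → Fin (e + 1)) :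
    Tendsto (fun R : ℝ => φ i * ((∏ l, ((R : ℂ) * η (i l) - w l)) * v i) /
      (R : ℂ) ^ ((e + 1) * m)) atTop (𝓝 ((∏ k, η k) ^ m * (φ i * v i))) := by
  by_cases h0 : v i = 0
  · simp [h0]
  · have hb := LTX_bal η i (hv i h0)
    have h1 : Tendsto (fun R : ℝ => ∏ l, (η (i l) - w l * ((R : ℂ))⁻¹)) atTop
        (𝓝 (∏ l, (η (i l) - w l * 0))) := by
      refine tendsto_finsetProd _ fun l _ => ?_
      exact tendsto_const_nhds.sub (tendsto_const_nhds.mul LTX_inv_tendsto)
    have h2 : Tendsto (fun R : ℝ => (∏ l, (η (i l) - w l * ((R : ℂ))⁻¹)) * (φ i * v i)) atTop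
        (𝓝 ((∏ k, η k) ^ m * (φ i * v i))) := by
      have h3 := h1.mul (tendsto_const_nhds (x := φ i * v i))
      simpa [hb] using h3
    refine h2.congr' ?_
    filter_upwards [eventually_gt_atTop (0 : ℝ)] with R hR
    have hR' : (R : ℂ) ≠ 0 := by exact_mod_cast hR.ne'
    have h4 : ∏ l, ((R : ℂ) * η (i l) - w l) =
        (R : ℂ) ^ ((e + 1) * m) * ∏ l, (η (i l) - w l * ((R : ℂ))⁻¹) := by
      have h5 : (R : ℂ) ^ ((e + 1) * m) = ∏ _l : Fin ((e + 1) * m), (R : ℂ) := by simp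
      rw [h5, ← Finset.prod_mul_distrib]
      refine Finset.prod_congr rfl fun l _ => ?_
      field_simp
    rw [h4]
    have hR2 : (R : ℂ) ^ ((e + 1) * m) ≠ 0 := pow_ne_zero _ hR'
    rw [eq_div_iff hR2]
    ring

theorem p_LTX : T_LTX := by
  intro e m w η φ v hv
  constructor
  · have h : Tendsto (fun R : ℝ => ∑ i, φ i * ((∏ l, ((R : ℂ) * η (i l) - w l)) * v i) /
        (R : ℂ) ^ ((e + 1) * m)) atTop (𝓝 (∑ i, (∏ k, η k) ^ m * (φ i * v i))) :=
      tendsto_finsetSum _ fun i _ => LTX_term w η φ v hv i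
    have h2 : (∑ i, (∏ k, η k) ^ m * (φ i * v i)) = (∏ k, η k) ^ m * pr φ v := by
      rw [pr, Finset.mul_sum]
    rw [h2] at h
    refine h.congr fun R => ?_
    simp only [pr, Tx, Finset.sum_div]
  · intro R
    have h1 : Matrix.vandermonde (fun k => R * η k) =
        Matrix.of fun i j : Fin (e + 1) => R ^ (j : ℕ) * Matrix.vandermonde η i j := by
      ext i j
      simp [Matrix.vandermonde_apply, mul_pow]
    rw [vdm, h1, Matrix.det_mul_row, Finset.prod_pow_eq_pow_sum, vdm]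

end Pool.Agent.KPW
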