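import Pool.Agent.KPW.Targets

set_option autoImplicit false

/-!
# KPW-NFM: the form at `i` equals the form at `0`
-/

open scoped BigOperators

namespace Pool.Agent.KPW

noncomputable section

/-- continuity of `s ↦ pr φ (act (L s) v)` if the entries are continuous -/
lemma NFM_cont {d N : ℕ} (φ v : Tn d N) (L : ℂ → Fin N → Matrix (Fin d) (Fin d) ℂ)
    (hL : ∀ l a b, Continuous fun s => L s l a b) : Continuous fun s => pr φ (act (L s) v) := by
  unfold pr act
  refine continuous_finsetSum _ fun i _ => continuous_const.mul ?_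
  refine continuous_finsetSum _ fun j _ => Continuous.mul ?_ continuous_const
  exact continuous_finsetProd _ fun l _ => hL l _ _

/-- the generic case -/
lemma NFM_ne (h_INT : T_INT) (h_IDT : T_IDT) (h_CNJ : T_CNJ) (e m N : ℕ) (w : Fin N → ℂ)
    (x c : Fin (e + 2) → ℂ) (hc : ∑ k, c k = 1) (hcx : ∑ k, c k * x k = 0)
    (hx : Function.Injective x) (i : Fin (e + 2)) (hci : c i ≠ 0)
    (φ : Tn (e + 1) N) (hφ : φ ∈ Inv (e + 1) m N) (v : Tn (e + 1) N) (hv : v ∈ Inv (e + 1) m N) :
    pr φ (act (fun l => (Ym x c i - w l • 1) * (Dm x i - w l • 1)) v) =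
      pr φ (act (fun l => (Dm x 0 - w l • 1) * (Ym x c 0 - w l • 1)) v) := by
  have h1 := h_CNJ (e + 1) m N (Gm x c i) (fun l => (Ym x c i - w l • 1) * (Dm x i - w l • 1))
    (fun l => (Dm x 0 - w l • 1) * (Ym x c 0 - w l • 1))
    (fun l => h_INT e x c hc hcx i (w l)) φ hφ v hv
  have h2 : (Gm x c i).det ^ m ≠ 0 := pow_ne_zero _ (h_IDT e x c hc hx i hci)
  rcases mul_eq_zero.mp h1 with h3 | h3
  · exact absurd h3 h2
  · exact sub_eq_zero.mp h3

theorem p_NFM (h_INT : T_INT) (h_IDT : T_IDT) (h_CNJ : T_CNJ) (h_DEN : T_DEN) : T_NFM := by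
  intro e m N w x c hc hcx hx hx0 i φ hφ v hv
  by_cases hci : c i ≠ 0
  · exact NFM_ne h_INT h_IDT h_CNJ e m N w x c hc hcx hx i hci φ hφ v hv
  push Not at hci
  -- another index
  obtain ⟨p, hp⟩ : ∃ p : Fin (e + 2), p ≠ i := exists_ne i
  have hip : x i - x p ≠ 0 := sub_ne_zero.mpr fun h => hp (hx h).symm
  -- the second point
  set c1 : Fin (e + 2) → ℂ := fun k =>
    (if k = i then - x p / (x i - x p) else 0) + (if k = p then x i / (x i - x p) else 0) with hc1
  have hc1s : ∑ k, c1 k = 1 := by
    simp only [hc1, Finset.sum_add_distrib, Finset.sum_ite_eq', Finset.mem_univ, if_true]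
    field_simp
    ring
  have hc1x : ∑ k, c1 k * x k = 0 := by
    simp only [hc1, add_mul, ite_mul, zero_mul, Finset.sum_add_distrib, Finset.sum_ite_eq',
      Finset.mem_univ, if_true]
    field_simp
    ring
  have hc1i : c1 i ≠ 0 := by
    simp only [hc1, if_true, if_neg (Ne.symm hp), add_zero]
    exact div_ne_zero (neg_ne_zero.mpr (hx0 p)) hip
  -- the line
  set cs : ℂ → Fin (e + 2) → ℂ := fun s k => c k + s * (c1 k - c k) with hcs
  have hcss : ∀ s, ∑ k, cs s k = 1 := by
    intro s
    simp only [hcs, Finset.sum_add_distrib, ← Finset.mul_sum, Finset.sum_sub_distrib, hc, hc1s]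
    ring
  have hcsx : ∀ s, ∑ k, cs s k * x k = 0 := by
    intro s
    have : ∀ k, cs s k * x k = c k * x k + s * (c1 k * x k - c k * x k) := fun k => by
      simp only [hcs]; ring
    simp only [this, Finset.sum_add_distrib, ← Finset.mul_sum, Finset.sum_sub_distrib, hcx, hc1x]
    ring
  have hcont : ∀ k, Continuous fun s => cs s k := fun k => by
    simp only [hcs]; fun_prop
  have key := h_DEN Polynomial.X Polynomial.X_ne_zero
    (fun s => pr φ (act (fun l => (Ym x (cs s) i - w l • 1) * (Dm x i - w l • 1)) v))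
    (fun s => pr φ (act (fun l => (Dm x 0 - w l • 1) * (Ym x (cs s) 0 - w l • 1)) v))
    (NFM_cont φ v _ fun l a b => by
      simp only [Matrix.mul_apply, Ym, Matrix.sub_apply, Matrix.vecMulVec_apply, rm]
      refine continuous_finsetSum _ fun j _ => Continuous.mul ?_ continuous_const
      exact ((hcont _).mul continuous_const).sub continuous_const)
    (NFM_cont φ v _ fun l a b => by
      simp only [Matrix.mul_apply, Ym, Matrix.sub_apply, Matrix.vecMulVec_apply, rm]
      refine continuous_finsetSum _ fun j _ => continuous_const.mul ?_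
      exact ((hcont _).mul continuous_const).sub continuous_const)
    (by
      intro s
      rw [Polynomial.eval_X]
      by_cases hs : s = 0
      · rw [hs, zero_mul]
      · have h1 : cs s i ≠ 0 := by
          simp only [hcs, hci, zero_add, sub_zero]
          exact mul_ne_zero hs hc1i
        rw [NFM_ne h_INT h_IDT h_CNJ e m N w x (cs s) (hcss s) (hcsx s) hx i h1 φ hφ v hv]
        simp only [sub_self, mul_zero])
  have h0 := congrFun key 0
  have hcs0 : cs 0 = c := by funext k; simp only [hcs, zero_mul, add_zero]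
  simp only [hcs0] at h0
  exact h0

end

end Pool.Agent.KPW
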