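import Pool.Agent.KPW.Targets2

/-!
# KPW: target NUL, a polynomial map cannot carry a hypersurface onto everything
-/

set_option autoImplicit false

open scoped BigOperators
open Filter Topology

namespace Pool.Agent.KPW

noncomputable section

namespace NUL_

/-- evaluation of polynomials over the polynomial ring at `(P, F)` -/
def phi {ι : Type} (F : MvPolynomial ι ℂ) (P : ι → MvPolynomial ι ℂ) :
    Polynomial (MvPolynomial ι ℂ) →+* MvPolynomial ι ℂ :=
  Polynomial.eval₂RingHom (MvPolynomial.aeval P : MvPolynomial ι ℂ →ₐ[ℂ] MvPolynomial ι ℂ).toRingHom F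

lemma exists_dep {ι : Type} [Fintype ι] (F : MvPolynomial ι ℂ) (P : ι → MvPolynomial ι ℂ) :
    ∃ B : Polynomial (MvPolynomial ι ℂ), B ≠ 0 ∧ phi F P B = 0 := by
  have hx : ¬ AlgebraicIndependent ℂ (fun o : Option ι => o.elim F P) := by
    intro h
    have h1 := h.cardinalMk_le_trdeg
    rw [MvPolynomial.trdeg_of_isDomain, Cardinal.lift_id, Cardinal.mk_fintype,
      Cardinal.mk_fintype, Nat.cast_le, Fintype.card_option] at h1
    omega
  rw [algebraicIndependent_iff] at hx
  push Not at hx
  obtain ⟨A, hA, hA0⟩ := hx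
  refine ⟨MvPolynomial.optionEquivLeft ℂ ι A, ?_, ?_⟩
  · exact (map_ne_zero_iff _ (MvPolynomial.optionEquivLeft ℂ ι).injective).2 hA0
  · have h2 : (phi F P).comp (MvPolynomial.optionEquivLeft ℂ ι).toAlgHom.toRingHom =
        (MvPolynomial.aeval (fun o : Option ι => o.elim F P) :
          MvPolynomial (Option ι) ℂ →ₐ[ℂ] MvPolynomial ι ℂ).toRingHom := by
      apply MvPolynomial.ringHom_ext
      · intro r
        simp [phi]
      · intro o
        cases o with
        | none => simp [phi]
        | some i => simp [phi]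
    have h3 := RingHom.congr_fun h2 A
    have h4 : phi F P (MvPolynomial.optionEquivLeft ℂ ι A) =
      MvPolynomial.aeval (fun o : Option ι => o.elim F P) A := h3
    rw [h4, hA]

lemma exists_dep' {ι : Type} [Fintype ι] (F : MvPolynomial ι ℂ) (P : ι → MvPolynomial ι ℂ)
    (hF : F ≠ 0) :
    ∃ B : Polynomial (MvPolynomial ι ℂ), B.coeff 0 ≠ 0 ∧ phi F P B = 0 := by
  obtain ⟨B, hB, hB0⟩ := exists_dep F P
  induction h : B.natDegree using Nat.strong_induction_on generalizing B with
  | _ n ih =>
    by_cases h0 : B.coeff 0 = 0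
    · obtain ⟨B', rfl⟩ := Polynomial.X_dvd_iff.2 h0
      have h1 : B' ≠ 0 := right_ne_zero_of_mul hB
      have h2 : phi F P B' = 0 := by
        rw [map_mul] at hB0
        have h3 : phi F P Polynomial.X = F := by simp [phi]
        rw [h3] at hB0
        exact (mul_eq_zero.1 hB0).resolve_left hF
      refine ih B'.natDegree ?_ B' h1 h2 rfl
      rw [← h, Polynomial.natDegree_X_mul h1]
      omega
    · exact ⟨B, h0, hB0⟩

end NUL_

theorem p_NUL : T_NUL := by
  intro ι _ _ F P hF
  obtain ⟨B, hB, hB0⟩ := NUL_.exists_dep' F P hF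
  have h1 : ∃ t : ι → ℂ, MvPolynomial.eval t (B.coeff 0) ≠ 0 := by
    by_contra hc
    push Not at hc
    exact hB (MvPolynomial.funext fun t => by rw [hc t, map_zero])
  obtain ⟨t, ht⟩ := h1
  refine ⟨t, fun c hc hF0 => ht ?_⟩
  have h2 : MvPolynomial.eval c (NUL_.phi F P B) =
      Polynomial.eval₂ ((MvPolynomial.eval c).comp
        (MvPolynomial.aeval P : MvPolynomial ι ℂ →ₐ[ℂ] MvPolynomial ι ℂ).toRingHom) 0 B := by
    have h3 : NUL_.phi F P B = Polynomial.eval₂
      (MvPolynomial.aeval P : MvPolynomial ι ℂ →ₐ[ℂ] MvPolynomial ι ℂ).toRingHom F B := rfl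
    rw [h3, Polynomial.hom_eval₂, hF0]
  rw [hB0, map_zero, Polynomial.eval₂_at_zero] at h2
  have h4 : ((MvPolynomial.eval c).comp
      (MvPolynomial.aeval P : MvPolynomial ι ℂ →ₐ[ℂ] MvPolynomial ι ℂ).toRingHom) =
      MvPolynomial.eval t := by
    apply MvPolynomial.ringHom_ext
    · intro r
      simp
    · intro i
      simp [hc i]
  rw [h4] at h2
  exact h2.symm

end

end Pool.Agent.KPW
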