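import Pool.Agent.KPW.Targets

set_option autoImplicit false

/-!
# KPW-POL: a linear form which kills all the powers of linear forms is zero
-/

open scoped BigOperators

namespace Pool.Agent.KPW

namespace POL_

/-- the monomial `X^k` for a function `k` -/
lemma prod_pow_eq {n : ℕ} (θ : Fin n → ℂ) (k : Fin n → ℕ) :
    (∏ p, (MvPolynomial.C (θ p) * MvPolynomial.X p : MvPolynomial (Fin n) ℂ) ^ k p) =
      (∏ p, θ p ^ k p) • MvPolynomial.monomial (Finsupp.equivFunOnFinite.symm k) (1 : ℂ) := by
  rw [MvPolynomial.smul_eq_C_mul, MvPolynomial.monomial_eq]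
  simp only [mul_pow, Finset.prod_mul_distrib, map_prod, map_pow, map_one, one_mul]
  congr 1
  rw [Finsupp.prod_fintype _ _ (fun i => by simp)]
  rfl

/-- the value of `K` at the power of a linear form -/
lemma K_pow {n : ℕ} (K : MvPolynomial (Fin n) ℂ →ₗ[ℂ] ℂ) (q : ℕ) (θ : Fin n → ℂ) :
    K ((∑ p, MvPolynomial.C (θ p) * MvPolynomial.X p) ^ q) =
      ∑ k ∈ Finset.piAntidiag (Finset.univ : Finset (Fin n)) q,
        (Nat.multinomial Finset.univ k : ℂ) * ((∏ p, θ p ^ k p) *
          K (MvPolynomial.monomial (Finsupp.equivFunOnFinite.symm k) (1 : ℂ))) := by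
  rw [Finset.sum_pow_eq_sum_piAntidiag, map_sum]
  refine Finset.sum_congr rfl fun k _ => ?_
  rw [prod_pow_eq, ← nsmul_eq_mul, map_nsmul, map_smul, nsmul_eq_mul, smul_eq_mul]

end POL_

open POL_

theorem p_POL : T_POL := by
  intro n K h
  refine (MvPolynomial.basisMonomials (Fin n) ℂ).ext fun ν => ?_
  rw [MvPolynomial.coe_basisMonomials, LinearMap.zero_apply]
  set q : ℕ := ∑ p, ν p with hq
  let P : MvPolynomial (Fin n) ℂ := ∑ k ∈ Finset.piAntidiag (Finset.univ : Finset (Fin n)) q,
    MvPolynomial.monomial (Finsupp.equivFunOnFinite.symm k)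
      ((Nat.multinomial Finset.univ k : ℂ) *
        K (MvPolynomial.monomial (Finsupp.equivFunOnFinite.symm k) (1 : ℂ)))
  have hP : P = 0 := by
    refine MvPolynomial.funext fun θ => ?_
    rw [map_zero, ← h q θ, K_pow, map_sum]
    refine Finset.sum_congr rfl fun k _ => ?_
    rw [MvPolynomial.eval_monomial, Finsupp.prod_fintype _ _ (fun i => by simp)]
    simp only [Finsupp.equivFunOnFinite_symm_apply_apply]
    ring
  have hc : MvPolynomial.coeff ν P = 0 := by rw [hP, MvPolynomial.coeff_zero]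
  have hmem : (ν : Fin n → ℕ) ∈ Finset.piAntidiag (Finset.univ : Finset (Fin n)) q := by
    rw [Finset.mem_piAntidiag]
    exact ⟨hq.symm, fun i _ => Finset.mem_univ i⟩
  have h2 : MvPolynomial.coeff ν P = (Nat.multinomial Finset.univ (ν : Fin n → ℕ) : ℂ) *
      K (MvPolynomial.monomial ν (1 : ℂ)) := by
    simp only [P, MvPolynomial.coeff_sum]
    rw [Finset.sum_eq_single (ν : Fin n → ℕ)]
    · rw [MvPolynomial.coeff_monomial, Finsupp.equivFunOnFinite_symm_coe, if_pos rfl]
    · intro k _ hk
      rw [MvPolynomial.coeff_monomial, if_neg]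
      intro he
      apply hk
      rw [← he]
      rfl
    · intro h'
      exact absurd hmem h'
  rw [h2] at hc
  rcases mul_eq_zero.mp hc with h3 | h3
  · exact absurd h3 (by exact_mod_cast (Nat.multinomial_pos _ _).ne')
  · exact h3

end Pool.Agent.KPW
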