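import Pool.Agent.KPW.Targets2

/-!
# KPW: target WXV (Newton form of the determinant)
-/

set_option autoImplicit false

open scoped BigOperators
open Polynomial

namespace Pool.Agent.KPW

/-- one step of the division -/
theorem WXV_step (f : Polynomial ℂ) (a : ℂ) :
    f = C (f.eval a) + (X - C a) * (f /ₘ (X - C a)) := by
  have h := Polynomial.modByMonic_add_div f (X - C a)
  rw [Polynomial.modByMonic_X_sub_C_eq_C_eval] at h
  exact h.symm

/-- Newton interpolation with remainder -/
theorem WXV_newton (y : ℕ → ℂ) (f : Polynomial ℂ) (z : ℂ) (n : ℕ) :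
    f.eval z = ∑ k ∈ Finset.range n, (dq y f k).eval (y k) * ∏ j ∈ Finset.range k, (z - y j) +
      (dq y f n).eval z * ∏ j ∈ Finset.range n, (z - y j) := by
  induction n with
  | zero => simp [dq]
  | succ n ih =>
    have h1 : (dq y f n).eval z = (dq y f n).eval (y n) + (z - y n) * (dq y f (n + 1)).eval z := by
      have h2 := congrArg (Polynomial.eval z) (WXV_step (dq y f n) (y n))
      simpa [dq] using h2
    rw [ih, Finset.sum_range_succ, Finset.prod_range_succ, h1]
    ring

theorem WXV_range {n : ℕ} (b : Fin n) (g : ℕ → ℂ) :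
    ∏ j ∈ Finset.range b, g j = ∏ i ∈ Finset.Iio b, g i := by
  rw [← Nat.Iio_eq_range, ← Fin.map_valEmbedding_Iio, Finset.prod_map]
  rfl

theorem WXV_ext {e : ℕ} (x : Fin (e + 1) → ℂ) (i : Fin (e + 1)) : ext x i = x i := by
  unfold ext
  rw [dif_pos i.2]

theorem p_WXV : T_WXV := by
  intro e m c x
  set U : Matrix (Fin (e + 1)) (Fin (e + 1)) ℂ :=
    Matrix.of fun k b => ∏ j ∈ Finset.range k, (x b - ext x j) with hU
  have h1 : (Matrix.of fun a b : Fin (e + 1) => (fp c a).eval (x b)) =
      (Matrix.of fun a b : Fin (e + 1) => (dq (ext x) (fp c a) b).eval (x b)) * U := by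
    ext a b
    rw [Matrix.mul_apply, Matrix.of_apply, WXV_newton (ext x) (fp c a) (x b) (e + 1)]
    have h2 : ∏ j ∈ Finset.range (e + 1), (x b - ext x j) = 0 := by
      refine Finset.prod_eq_zero (Finset.mem_range.2 b.2) ?_
      rw [WXV_ext, sub_self]
    rw [h2, mul_zero, add_zero, Finset.sum_range]
    refine Finset.sum_congr rfl fun k _ => ?_
    rw [hU, Matrix.of_apply, Matrix.of_apply, WXV_ext]
  have h3 : U.det = vdm x := by
    have h4 : U.BlockTriangular id := by
      intro k b hkb
      rw [hU, Matrix.of_apply]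
      have hkb' : (b : ℕ) < k := hkb
      refine Finset.prod_eq_zero (Finset.mem_range.2 hkb') ?_
      rw [WXV_ext, sub_self]
    rw [Matrix.det_of_upperTriangular h4]
    unfold vdm
    rw [Matrix.det_vandermonde]
    rw [Finset.prod_comm' (s := Finset.univ) (t := fun i => Finset.Ioi i)
      (s' := fun j => Finset.Iio j) (t' := Finset.univ) (by
        intro i j
        simp)]
    refine Finset.prod_congr rfl fun b _ => ?_
    rw [hU, Matrix.of_apply, WXV_range b fun j => x b - ext x j]
    exact Finset.prod_congr rfl fun i _ => by rw [WXV_ext]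
  unfold dt Wx
  rw [h1, Matrix.det_mul, h3, mul_comm]

end Pool.Agent.KPW
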