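import Pool.Agent.KPW.Targets2
import Pool.Agent.KPW.P_WXV

/-!
# KPW: target REA (real roots of the Wronskian give real coefficients)
-/

set_option autoImplicit false

open scoped BigOperators
open Polynomial

namespace Pool.Agent.KPW

/-- value of the conjugate polynomial at a real point -/
theorem REA_eval {e m : ℕ} (c : Fin (e + 1) → Fin m → ℂ) (a : Fin (e + 1)) (t : ℝ) :
    (fp (fun a l => (starRingEnd ℂ) (c a l)) a).eval (t : ℂ) = (starRingEnd ℂ) ((fp c a).eval (t : ℂ)) := by
  simp only [fp, eval_add, eval_pow, eval_X, eval_finset_sum, eval_mul, eval_C, map_add, map_pow,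
    map_sum, map_mul, Complex.conj_ofReal]

theorem REA_dt {e m : ℕ} (c : Fin (e + 1) → Fin m → ℂ) (x : Fin (e + 1) → ℝ) :
    dt (fun a l => (starRingEnd ℂ) (c a l)) (fun k => (x k : ℂ)) =
      (starRingEnd ℂ) (dt c (fun k => (x k : ℂ))) := by
  unfold dt
  rw [RingHom.map_det]
  congr 1
  ext a b
  simp only [Matrix.of_apply, RingHom.mapMatrix_apply, Matrix.map_apply]
  exact REA_eval c a (x b)

theorem REA_vdm {n : ℕ} (x : Fin n → ℝ) :
    (starRingEnd ℂ) (vdm (fun k => (x k : ℂ))) = vdm (fun k => (x k : ℂ)) := by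
  unfold vdm
  rw [RingHom.map_det]
  congr 1
  ext a b
  simp only [RingHom.mapMatrix_apply, Matrix.map_apply, Matrix.vandermonde_apply, map_pow,
    Complex.conj_ofReal]

theorem p_REA (h_CMP : T_CMP) (h_REV : T_REV) (h_DTI : T_DTI) : T_REA := by
  intro e m c w hw a l
  obtain ⟨v, hv⟩ := h_CMP e m c _ hw
  obtain ⟨μ, _, _, _, _, hμ⟩ := h_REV e m c _ v hv
  have hc : (fun a l => (starRingEnd ℂ) (c a l)) = c := by
    refine h_DTI e m _ c fun x => ?_
    rw [REA_dt, ← p_WXV e m c (fun k => (x k : ℂ)), map_mul, REA_vdm, hμ, map_sum]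
    congr 1
    refine Finset.sum_congr rfl fun i _ => ?_
    simp only [map_mul, map_prod, map_sub, Complex.conj_ofReal]
  have h1 := congrFun (congrFun hc a) l
  exact Complex.conj_eq_iff_im.1 h1

end Pool.Agent.KPW
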