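import Pool.Agent.KPW.Targets2

/-!
# KPW-REV: probability weights on balanced colourings (helper14)
-/

set_option autoImplicit false

open scoped BigOperators

namespace Pool.Agent.KPW

noncomputable section

namespace REV_

lemma act_perm {d N : ℕ} (σ : Equiv.Perm (Fin d)) (v : Tn d N) (i : Fin N → Fin d) :
    act (fun _ => (Matrix.of fun a b => if σ a = b then (1 : ℂ) else 0)) v i = v (σ ∘ i) := by
  unfold act
  rw [Finset.sum_eq_single (σ ∘ i)]
  · have h : ∏ l : Fin N, (Matrix.of fun a b => if σ a = b then (1 : ℂ) else 0) (i l)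
        ((σ ∘ i) l) = 1 := by
      refine Finset.prod_eq_one fun l _ => ?_
      simp
    rw [h, one_mul]
  · intro j _ hj
    have hne : ∃ l, σ (i l) ≠ j l := by
      by_contra hc
      push Not at hc
      exact hj (funext fun l => (hc l).symm)
    obtain ⟨l, hl⟩ := hne
    have h : ∏ l : Fin N, (Matrix.of fun a b => if σ a = b then (1 : ℂ) else 0) (i l)
        (j l) = 0 := by
      refine Finset.prod_eq_zero (Finset.mem_univ l) ?_
      simp [hl]
    rw [h, zero_mul]
  · intro h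
    exact absurd (Finset.mem_univ _) h

lemma det_perm {d : ℕ} (σ : Equiv.Perm (Fin d)) :
    ‖Matrix.det (Matrix.of fun a b => if σ a = b then (1 : ℂ) else 0)‖ = 1 := by
  have h1 : (Matrix.of fun a b => if σ a = b then (1 : ℂ) else 0) *
      (Matrix.of fun a b => if σ a = b then (1 : ℂ) else 0).transpose = 1 := by
    ext a b
    rw [Matrix.mul_apply]
    simp [Matrix.one_apply, σ.injective.eq_iff, eq_comm]
  have h2 := congrArg Matrix.det h1
  rw [Matrix.det_mul, Matrix.det_transpose, Matrix.det_one] at h2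
  have h3 : ‖Matrix.det (Matrix.of fun a b => if σ a = b then (1 : ℂ) else 0)‖ *
      ‖Matrix.det (Matrix.of fun a b => if σ a = b then (1 : ℂ) else 0)‖ = 1 := by
    rw [← norm_mul, h2, norm_one]
  nlinarith [norm_nonneg (Matrix.det (Matrix.of fun a b => if σ a = b then (1 : ℂ) else 0))]

lemma norm_perm {d m N : ℕ} (v : Tn d N) (hv : v ∈ Inv d m N) (σ : Equiv.Perm (Fin d))
    (i : Fin N → Fin d) : ‖v (σ ∘ i)‖ = ‖v i‖ := by
  have h := congrFun (hv (Matrix.of fun a b => if σ a = b then (1 : ℂ) else 0)) i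
  rw [act_perm] at h
  rw [h, Pi.smul_apply, smul_eq_mul, norm_mul, norm_pow, det_perm, one_pow, one_mul]

lemma star_mul (z : ℂ) : star z * z = ((‖z‖ ^ 2 : ℝ) : ℂ) := by
  rw [Complex.star_def, mul_comm, Complex.mul_conj, Complex.normSq_eq_norm_sq]

end REV_

/-- KPW-REV -/
theorem p_REV (h_EGX : T_EGX) (h_CJI : T_CJI) (h_BAL : T_BAL) : T_REV := by
  intro e m c w v hE
  obtain ⟨hv, hv0, _⟩ := id hE
  obtain ⟨S, hS⟩ : ∃ S : ℝ, S = ∑ i, ‖v i‖ ^ 2 := ⟨_, rfl⟩
  have hSpos : 0 < S := by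
    have hex : ∃ i, v i ≠ 0 := by
      by_contra hc
      push Not at hc
      exact hv0 (funext hc)
    obtain ⟨i, hi⟩ := hex
    rw [hS]
    refine Finset.sum_pos' (fun j _ => sq_nonneg _) ⟨i, Finset.mem_univ i, ?_⟩
    have : 0 < ‖v i‖ := norm_pos_iff.2 hi
    positivity
  refine ⟨fun i => ‖v i‖ ^ 2 / S, fun i => by positivity, ?_, ?_, ?_, ?_⟩
  · rw [← Finset.sum_div, ← hS, div_self hSpos.ne']
  · intro i hi
    refine h_BAL (e + 1) m _ v hv i fun h => hi ?_
    simp [h]
  · intro σ i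
    change ‖v (σ ∘ i)‖ ^ 2 / S = ‖v i‖ ^ 2 / S
    rw [REV_.norm_perm v hv]
  · intro x
    have h1 := h_EGX e m c w v hE _ (h_CJI (e + 1) m _ v hv).1 x
    have h2 : pr (fun i => star (v i)) v = ((S : ℝ) : ℂ) := by
      unfold pr
      rw [hS, Complex.ofReal_sum]
      exact Finset.sum_congr rfl fun i _ => REV_.star_mul (v i)
    have h3 : pr (fun i => star (v i)) (Tx w x v) =
        ∑ i, ((‖v i‖ ^ 2 : ℝ) : ℂ) * ∏ l, (x (i l) - w l) := by
      unfold pr Tx
      refine Finset.sum_congr rfl fun i _ => ?_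
      rw [← REV_.star_mul]
      ring
    rw [h2, h3] at h1
    have hS' : ((S : ℝ) : ℂ) ≠ 0 := Complex.ofReal_ne_zero.2 hSpos.ne'
    rw [eq_comm, ← mul_right_inj' hS', mul_comm _ (Wx c x), ← h1, Finset.mul_sum]
    refine Finset.sum_congr rfl fun i _ => ?_
    rw [← mul_assoc]
    congr 1
    rw [← Complex.ofReal_mul, mul_div_cancel₀ _ hSpos.ne']

end

end Pool.Agent.KPW
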