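import Pool.Agent.KPW.Targets2

/-!
# KPW-RTE: existence of the roots of the Wronskian (helper5)
-/

set_option autoImplicit false

open scoped BigOperators
open Polynomial

namespace Pool.Agent.KPW

noncomputable section

namespace RTE_

/-- degree and top coefficient of a product -/
theorem prod_aux {ι : Type*} (s : Finset ι) (q : ι → ℂ[X]) (n : ι → ℕ)
    (h : ∀ i ∈ s, (q i).natDegree ≤ n i) :
    (∏ i ∈ s, q i).natDegree ≤ ∑ i ∈ s, n i ∧
      (∏ i ∈ s, q i).coeff (∑ i ∈ s, n i) = ∏ i ∈ s, (q i).coeff (n i) := by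
  classical
  induction s using Finset.induction_on with
  | empty => simp
  | insert i s hi ih =>
    obtain ⟨h1, h2⟩ := ih fun j hj => h j (Finset.mem_insert_of_mem hj)
    have h3 := h i (Finset.mem_insert_self i s)
    rw [Finset.prod_insert hi, Finset.sum_insert hi, Finset.prod_insert hi]
    refine ⟨natDegree_mul_le_of_le h3 h1, ?_⟩
    rw [coeff_mul_add_eq_of_natDegree_le h3 h1, h2]

/-- degree and top coefficient of a determinant -/
theorem det_aux {n : ℕ} (M : Matrix (Fin n) (Fin n) ℂ[X]) (d : Fin n → ℕ)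
    (h : ∀ a b, (M a b).natDegree ≤ d a) :
    M.det.natDegree ≤ ∑ a, d a ∧
      M.det.coeff (∑ a, d a) = (Matrix.of fun a b => (M a b).coeff (d a)).det := by
  have key : ∀ σ : Equiv.Perm (Fin n), (∏ i, M (σ i) i).natDegree ≤ ∑ a, d a ∧
      (∏ i, M (σ i) i).coeff (∑ a, d a) = ∏ i, (M (σ i) i).coeff (d (σ i)) := by
    intro σ
    have := prod_aux Finset.univ (fun i => M (σ i) i) (fun i => d (σ i)) fun i _ => h _ _
    rwa [Equiv.sum_comp σ d] at this
  rw [Matrix.det_apply, Matrix.det_apply]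
  constructor
  · refine natDegree_sum_le_of_forall_le _ _ fun σ _ => ?_
    exact (natDegree_smul_le _ _).trans (key σ).1
  · rw [finsetSum_coeff]
    refine Finset.sum_congr rfl fun σ _ => ?_
    rw [coeff_smul, (key σ).2]
    rfl

theorem fp_natDegree {e m : ℕ} (c : Fin (e + 1) → Fin m → ℂ) (a : Fin (e + 1)) :
    (fp c a).natDegree ≤ m + a := by
  unfold fp
  refine natDegree_add_le_of_degree_le (natDegree_X_pow_le _) ?_
  refine natDegree_sum_le_of_forall_le _ _ fun l _ => ?_
  refine (natDegree_C_mul_X_pow_le _ _).trans ?_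
  have := l.2
  omega

theorem fp_coeff {e m : ℕ} (c : Fin (e + 1) → Fin m → ℂ) (a : Fin (e + 1)) :
    (fp c a).coeff (m + a) = 1 := by
  unfold fp
  rw [coeff_add, coeff_X_pow, if_pos rfl, finsetSum_coeff]
  rw [Finset.sum_eq_zero, add_zero]
  intro l _
  rw [coeff_C_mul_X_pow, if_neg]
  have := l.2
  omega

theorem entry_deg {e m : ℕ} (c : Fin (e + 1) → Fin m → ℂ) (a b : Fin (e + 1)) :
    (X ^ (b : ℕ) * derivative^[(b : ℕ)] (fp c a)).natDegree ≤ m + a := by
  by_cases h0 : derivative^[(b : ℕ)] (fp c a) = 0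
  · rw [h0]
    simp
  · have h1 : (derivative^[(b : ℕ)] (fp c a)).natDegree + b ≤ (fp c a).natDegree := by
      by_contra hlt
      push Not at hlt
      apply h0
      rw [← leadingCoeff_eq_zero, leadingCoeff, coeff_iterate_derivative,
        coeff_eq_zero_of_natDegree_lt hlt, smul_zero]
    have h2 := natDegree_mul_le (p := (X : ℂ[X]) ^ (b : ℕ)) (q := derivative^[(b : ℕ)] (fp c a))
    rw [natDegree_X_pow] at h2
    have h3 := fp_natDegree c a
    omega

theorem entry_coeff {e m : ℕ} (c : Fin (e + 1) → Fin m → ℂ) (a b : Fin (e + 1)) :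
    (X ^ (b : ℕ) * derivative^[(b : ℕ)] (fp c a)).coeff (m + a) =
      ((m + (a : ℕ)).descFactorial b : ℂ) := by
  by_cases h : (b : ℕ) ≤ m + a
  · obtain ⟨k, hk⟩ := Nat.exists_eq_add_of_le h
    have e1 : m + (a : ℕ) = k + b := by omega
    rw [e1, coeff_X_pow_mul, coeff_iterate_derivative, ← e1, fp_coeff, nsmul_eq_mul, mul_one]
  · push Not at h
    have h2 : derivative^[(b : ℕ)] (fp c a) = 0 := by
      rw [← leadingCoeff_eq_zero, leadingCoeff, coeff_iterate_derivative,
        coeff_eq_zero_of_natDegree_lt, smul_zero]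
      have := fp_natDegree c a
      omega
    rw [h2, mul_zero, coeff_zero, Nat.descFactorial_eq_zero_iff_lt.2 h, Nat.cast_zero]

theorem det_desc (e m : ℕ) :
    (Matrix.of fun a b : Fin (e + 1) => ((m + (a : ℕ)).descFactorial b : ℂ)).det =
      ∏ a : Fin (e + 1), (Nat.factorial (a : ℕ) : ℂ) := by
  have h1 := Matrix.det_eval_matrixOfPolynomials_eq_det_vandermonde (R := ℂ)
    (fun a : Fin (e + 1) => ((m + (a : ℕ) : ℕ) : ℂ)) (fun b => descPochhammer ℂ (b : ℕ))
    (fun b => descPochhammer_natDegree ℂ b) (fun b => monic_descPochhammer ℂ b)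
  simp only [descPochhammer_eval_eq_descFactorial] at h1
  rw [← h1]
  have h2 : (fun a : Fin (e + 1) => ((m + (a : ℕ) : ℕ) : ℂ)) =
      fun a : Fin (e + 1) => ((a : ℕ) : ℂ) + (m : ℂ) := by
    funext a
    push_cast
    ring
  rw [h2, Matrix.det_vandermonde_add, Matrix.det_vandermonde_id_eq_superFactorial,
    ← Nat.prod_range_factorial_succ, Fin.prod_univ_eq_prod_range (fun i => (Nat.factorial i : ℂ)),
    Finset.prod_range_succ']
  push_cast
  simp

theorem sum_aux (e m : ℕ) : ∑ a : Fin (e + 1), (m + (a : ℕ)) =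
    (e + 1) * m + ∑ a : Fin (e + 1), (a : ℕ) := by
  rw [Finset.sum_add_distrib]
  simp

theorem Wp_aux {e m : ℕ} (c : Fin (e + 1) → Fin m → ℂ) :
    (Wp c).natDegree ≤ (e + 1) * m ∧
      (Wp c).coeff ((e + 1) * m) = ∏ a : Fin (e + 1), (Nat.factorial (a : ℕ) : ℂ) := by
  have h1 := det_aux (Matrix.of fun a b : Fin (e + 1) =>
    X ^ (b : ℕ) * derivative^[(b : ℕ)] (fp c a)) (fun a => m + (a : ℕ))
    (by
      intro a b
      rw [Matrix.of_apply]
      exact entry_deg c a b)
  have h2 : (Matrix.of fun a b : Fin (e + 1) =>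
      X ^ (b : ℕ) * derivative^[(b : ℕ)] (fp c a)).det =
      X ^ (∑ a : Fin (e + 1), (a : ℕ)) * Wp c := by
    have := Matrix.det_mul_row (fun b : Fin (e + 1) => (X : ℂ[X]) ^ (b : ℕ))
      (Matrix.of fun a b : Fin (e + 1) => derivative^[(b : ℕ)] (fp c a))
    rw [Finset.prod_pow_eq_pow_sum] at this
    exact this
  rw [h2, sum_aux] at h1
  obtain ⟨h3, h4⟩ := h1
  rw [coeff_X_pow_mul] at h4
  constructor
  · by_cases h0 : Wp c = 0
    · rw [h0]
      simp
    · rw [natDegree_mul (pow_ne_zero _ X_ne_zero) h0, natDegree_X_pow] at h3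
      omega
  · rw [h4, ← det_desc e m]
    congr 1
    ext a b
    exact entry_coeff c a b

end RTE_

theorem p_RTE : T_RTE := by
  intro e m c
  obtain ⟨h1, h2⟩ := RTE_.Wp_aux c
  have h3 : (Wp c).coeff ((e + 1) * m) ≠ 0 := by
    rw [h2, Finset.prod_ne_zero_iff]
    intro a _
    exact_mod_cast Nat.factorial_ne_zero _
  have h4 : (Wp c).natDegree = (e + 1) * m :=
    le_antisymm h1 (le_natDegree_of_ne_zero h3)
  have h5 : (Wp c).leadingCoeff = ∏ a : Fin (e + 1), (Nat.factorial (a : ℕ) : ℂ) := by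
    rw [leadingCoeff, h4, h2]
  have hs : (Wp c).Splits := IsAlgClosed.splits (Wp c)
  have h6 := hs.eq_prod_roots
  have h7 : (Wp c).roots.card = (e + 1) * m := by
    rw [← h4]
    exact hs.natDegree_eq_card_roots.symm
  have h8 : (Wp c).roots.toList.length = (e + 1) * m := by
    rw [Multiset.length_toList, h7]
  refine ⟨fun l => (Wp c).roots.toList.get (l.cast h8.symm), ?_⟩
  unfold Rt
  rw [← h5]
  conv_lhs => rw [h6]
  congr 1
  have h9 : (Multiset.map (fun x => X - C x) (Wp c).roots).prod =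
      ((Wp c).roots.toList.map fun x => X - C x).prod := by
    conv_lhs => rw [← Multiset.coe_toList (Wp c).roots]
    rw [Multiset.map_coe, Multiset.prod_coe]
  rw [h9, ← List.prod_ofFn]
  congr 1
  apply List.ext_get
  · simp [h8]
  · intro n h10 h11
    simp

end

end Pool.Agent.KPW
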