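import Pool.Agent.KPW.Targets2

set_option autoImplicit false

/-! Job KPW-RTS: the roots of the Wronskian of an eigenvector. -/

open scoped BigOperators
open Filter Topology

namespace Pool.Agent.KPW

namespace RTS_

lemma pr_const {e N : ℕ} (w : Fin N → ℂ) (u : ℂ) (φ v : Tn (e + 1) N) :
    pr φ (Tx w (fun _ => u) v) = (∏ l, (u - w l)) * pr φ v := by
  unfold pr Tx
  rw [Finset.mul_sum]
  refine Finset.sum_congr rfl fun i _ => ?_
  ring

lemma cont {e N : ℕ} (w : Fin N → ℂ) (u : ℂ) (φ v : Tn (e + 1) N) :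
    Continuous (fun s : ℝ => pr φ (Tx w (fun b : Fin (e + 1) => u + (s : ℂ) * ((b : ℕ) : ℂ)) v)) := by
  unfold pr Tx
  refine continuous_finset_sum _ fun i _ => ?_
  refine continuous_const.mul (Continuous.mul ?_ continuous_const)
  refine continuous_finset_prod _ fun l _ => ?_
  have h : Continuous (fun s : ℝ => (s : ℂ)) := Complex.continuous_ofReal
  exact (continuous_const.add (h.mul continuous_const)).sub continuous_const

lemma vdm_ne {e : ℕ} (u : ℂ) (s : ℝ) (hs : s ≠ 0) :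
    vdm (fun b : Fin (e + 1) => u + (s : ℂ) * ((b : ℕ) : ℂ)) ≠ 0 := by
  unfold vdm
  rw [Matrix.det_vandermonde_ne_zero_iff]
  intro a b hab
  have h1 : (s : ℂ) * ((a : ℕ) : ℂ) = (s : ℂ) * ((b : ℕ) : ℂ) := add_left_cancel hab
  have h2 : ((a : ℕ) : ℂ) = ((b : ℕ) : ℂ) := mul_left_cancel₀ (Complex.ofReal_ne_zero.mpr hs) h1
  exact Fin.ext (Nat.cast_injective h2)

end RTS_

open RTS_ in
theorem p_RTS (h_CFL : T_CFL) (h_CJI : T_CJI) : T_RTS := by
  intro e m w v c hE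
  obtain ⟨hv, hne, hE⟩ := hE
  obtain ⟨hφ, hκ, -⟩ := h_CJI (e + 1) m ((e + 1) * m) v hv
  set φ : Tn (e + 1) ((e + 1) * m) := fun i => star (v i) with hφd
  have hκ' : pr φ v ≠ 0 := hκ hne
  have hfac : (∏ a : Fin (e + 1), (Nat.factorial (a : ℕ) : ℂ)) ≠ 0 :=
    Finset.prod_ne_zero_iff.mpr fun a _ => Nat.cast_ne_zero.mpr (Nat.factorial_ne_zero _)
  unfold Rt
  refine Polynomial.funext fun u => ?_
  rw [Polynomial.eval_mul, Polynomial.eval_C, Polynomial.eval_prod]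
  simp only [Polynomial.eval_sub, Polynomial.eval_X, Polynomial.eval_C]
  have h1 : Tendsto (fun s : ℝ => pr φ (Tx w (fun b : Fin (e + 1) => u + (s : ℂ) * ((b : ℕ) : ℂ)) v))
      (𝓝[≠] 0) (𝓝 ((Wp c).eval u / (∏ a : Fin (e + 1), (Nat.factorial (a : ℕ) : ℂ)) * pr φ v)) := by
    have h := (h_CFL (e + 1) (fp c) u).mul_const (pr φ v)
    refine Tendsto.congr' ?_ h
    filter_upwards [self_mem_nhdsWithin] with s hs
    have hs' : s ≠ 0 := hs
    have h2 := hE φ hφ (fun b : Fin (e + 1) => u + (s : ℂ) * ((b : ℕ) : ℂ))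
    have h3 := vdm_ne (e := e) u s hs'
    have h4 : dG (fp c) (fun b : Fin (e + 1) => u + (s : ℂ) * ((b : ℕ) : ℂ)) =
        dt c (fun b : Fin (e + 1) => u + (s : ℂ) * ((b : ℕ) : ℂ)) := rfl
    rw [h4, div_mul_eq_mul_div, ← h2, mul_div_assoc, mul_div_cancel₀]
    exact h3
  have h2 : Tendsto (fun s : ℝ => pr φ (Tx w (fun b : Fin (e + 1) => u + (s : ℂ) * ((b : ℕ) : ℂ)) v))
      (𝓝[≠] 0) (𝓝 ((∏ l, (u - w l)) * pr φ v)) := by
    have h := ((cont w u φ v).tendsto 0).mono_left (nhdsWithin_le_nhds (s := {0}ᶜ))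
    have h3 : pr φ (Tx w (fun b : Fin (e + 1) => u + ((0 : ℝ) : ℂ) * ((b : ℕ) : ℂ)) v) =
        (∏ l, (u - w l)) * pr φ v := by
      rw [← pr_const]
      simp only [Complex.ofReal_zero, zero_mul, add_zero]
    rw [h3] at h
    exact h
  have h3 := tendsto_nhds_unique h1 h2
  have h4 := mul_right_cancel₀ hκ' h3
  rw [div_eq_iff hfac] at h4
  rw [h4, mul_comm]

end Pool.Agent.KPW
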