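import Pool.Agent.KPW.Targets2

set_option autoImplicit false

/-!
# KPW-SD0: disconjugacy with multiplicities
-/

open scoped BigOperators

namespace Pool.Agent.KPW

noncomputable section

namespace SD0_

/-- a point outside an interval is on one side of it -/
theorem side {J : Set ℝ} (hJ : J.OrdConnected) {a b w : ℝ} (ha : a ∈ J) (hb : b ∈ J)
    (hw : w ∉ J) : 0 < (b - w) * (a - w) := by
  rcases lt_trichotomy a w with h | h | h
  · have hb' : b < w := by
      by_contra hc
      exact hw (hJ.out ha hb ⟨h.le, not_lt.1 hc⟩)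
    exact mul_pos_of_neg_of_neg (by linarith) (by linarith)
  · exact absurd (h ▸ ha) hw
  · have hb' : w < b := by
      by_contra hc
      exact hw (hJ.out hb ha ⟨not_lt.1 hc, h.le⟩)
    exact mul_pos (by linarith) (by linarith)

end SD0_

theorem p_SD0 (h_CMP : T_CMP) (h_REV : T_REV) (h_WXZ : T_WXZ) : T_SD0 := by
  intro e m c w hR J hJ hw x hx
  obtain ⟨v, hv⟩ := h_CMP e m c _ hR
  obtain ⟨μ, h0, h1, -, -, hW⟩ := h_REV e m c _ v hv
  have key : Wx c (fun k => (x k : ℂ)) ≠ 0 := by
    have e1 : Wx c (fun k => (x k : ℂ)) = ((∑ i, μ i * ∏ l, (x (i l) - w l) : ℝ) : ℂ) := by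
      rw [hW]
      push_cast
      rfl
    rw [e1]
    refine Complex.ofReal_ne_zero.2 ?_
    intro hz
    have e2 : (∑ i, μ i * ∏ l, (x (i l) - w l)) * ∏ l, (x 0 - w l) =
        ∑ i, μ i * ∏ l, ((x (i l) - w l) * (x 0 - w l)) := by
      rw [Finset.sum_mul]
      refine Finset.sum_congr rfl fun i _ => ?_
      rw [Finset.prod_mul_distrib, mul_assoc]
    rw [hz, zero_mul] at e2
    have hpos : ∀ i : Fin ((e + 1) * m) → Fin (e + 1),
        0 < ∏ l, ((x (i l) - w l) * (x 0 - w l)) := fun i =>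
      Finset.prod_pos fun l _ => SD0_.side hJ (hx 0) (hx (i l)) (hw l)
    have hall := (Finset.sum_eq_zero_iff_of_nonneg
      (fun i _ => mul_nonneg (h0 i) (hpos i).le)).1 e2.symm
    have hμ : ∀ i, μ i = 0 := by
      intro i
      have h := hall i (Finset.mem_univ i)
      rcases mul_eq_zero.1 h with h | h
      · exact h
      · exact absurd h (hpos i).ne'
    have h2 : ∑ i, μ i = 0 := Finset.sum_eq_zero fun i _ => hμ i
    rw [h1] at h2
    exact one_ne_zero h2
  exact ⟨key, fun β hβ hd => key (h_WXZ e m c _ β hβ hd)⟩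

end

end Pool.Agent.KPW
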