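import Pool.Agent.KPW.Targets

/-!
# KPW: symmetry of the diagonal operators
-/

set_option autoImplicit false

namespace Pool.Agent.KPW

/-- symmetry in `x` -/
theorem p_SYM (h_CNJ : T_CNJ) (h_DIA : T_DIA) : T_SYM := by
  intro d m N w x σ φ hφ v hv
  let G : Matrix (Fin d) (Fin d) ℂ := Matrix.of fun a b => if σ a = b then 1 else 0
  have hG : G = σ.permMatrix ℂ := by
    ext a b
    simp [G, Equiv.Perm.permMatrix, PEquiv.toMatrix_apply, Equiv.toPEquiv_apply, eq_comm]
  have hdet : G.det ≠ 0 := by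
    rw [hG, Matrix.det_permutation]
    rcases Int.units_eq_one_or (Equiv.Perm.sign σ) with h | h
    · rw [h]; simp
    · rw [h]; simp
  have h1 := h_CNJ d m N G
    (fun l => Matrix.diagonal x - w l • (1 : Matrix (Fin d) (Fin d) ℂ))
    (fun l => Matrix.diagonal (x ∘ σ) - w l • (1 : Matrix (Fin d) (Fin d) ℂ)) (fun l => by
      have h2 : G * Matrix.diagonal x = Matrix.diagonal (x ∘ σ) * G := by
        ext a b
        rw [Matrix.mul_diagonal, Matrix.diagonal_mul]
        by_cases h : σ a = b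
        · simp [G, h]
        · simp [G, h]
      change G * (Matrix.diagonal x - w l • (1 : Matrix (Fin d) (Fin d) ℂ)) =
        (Matrix.diagonal (x ∘ σ) - w l • (1 : Matrix (Fin d) (Fin d) ℂ)) * G
      rw [mul_sub, sub_mul, h2]
      simp) φ hφ v hv
  rw [← (h_DIA d N w x φ v).1, ← (h_DIA d N w (x ∘ σ) φ v).1] at h1
  rcases mul_eq_zero.1 h1 with h | h
  · exact absurd h (pow_ne_zero _ hdet)
  · exact (sub_eq_zero.1 h).symm

end Pool.Agent.KPW
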