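import Pool.Agent.KPW.Targets

set_option autoImplicit false

/-!
# KPW-TWO: the two point formula
-/

open scoped BigOperators

namespace Pool.Agent.KPW

noncomputable section

namespace TWO_

/-- the intertwiner -/
def G {e : ℕ} (r : Fin (e + 1) → ℂ) : Matrix (Fin (e + 1)) (Fin (e + 1)) ℂ :=
  Matrix.of fun i j => if i = 0 then 1 else
    r 0 * (if i = j then 1 else 0) - r i * (if j = 0 then 1 else 0)

lemma G_mul {e : ℕ} (r : Fin (e + 1) → ℂ) (z : ℂ) :
    G r * (Matrix.vecMulVec r (fun _ => 1) - z • (1 : Matrix (Fin (e + 1)) (Fin (e + 1)) ℂ)) =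
      (Matrix.diagonal (pt (∑ k, r k) 0) - z • (1 : Matrix (Fin (e + 1)) (Fin (e + 1)) ℂ)) *
        G r := by
  have h : G r * Matrix.vecMulVec r (fun _ => 1) =
      Matrix.diagonal (pt (∑ k, r k) 0) * G r := by
    ext i j
    rw [Matrix.diagonal_mul, Matrix.mul_apply]
    simp only [Matrix.vecMulVec_apply, mul_one]
    by_cases hi : i = 0
    · subst hi
      simp [G, pt]
    · simp only [G, pt, Matrix.of_apply, if_neg hi, zero_mul, sub_mul]
      rw [Finset.sum_sub_distrib]
      simp only [mul_assoc, ← Finset.mul_sum, ite_mul, one_mul, zero_mul, Finset.sum_ite_eq,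
        Finset.sum_ite_eq', Finset.mem_univ, if_true]
      ring
  rw [mul_sub, sub_mul, h, mul_smul_comm, smul_mul_assoc, mul_one, one_mul]

lemma G_det {e : ℕ} (r : Fin (e + 1) → ℂ) (h0 : r 0 ≠ 0) (hs : ∑ k, r k ≠ 0) :
    (G r).det ≠ 0 := by
  intro hd
  obtain ⟨y, hy, h⟩ := Matrix.exists_mulVec_eq_zero_iff.2 hd
  have h1 : ∑ k, y k = 0 := by
    have := congrFun h 0
    simpa [Matrix.mulVec, dotProduct, G] using this
  have h2 : ∀ k, r 0 * y k = r k * y 0 := by
    intro k
    by_cases hk : k = 0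
    · rw [hk]
    · have h3 := congrFun h k
      simp only [Matrix.mulVec, dotProduct, G, Matrix.of_apply, if_neg hk, sub_mul,
        Pi.zero_apply] at h3
      rw [Finset.sum_sub_distrib] at h3
      simp only [mul_assoc, ← Finset.mul_sum, ite_mul, one_mul, zero_mul, Finset.sum_ite_eq,
        Finset.sum_ite_eq', Finset.mem_univ, if_true] at h3
      exact sub_eq_zero.1 h3
  have h4 : (∑ k, r k) * y 0 = 0 := by
    rw [Finset.sum_mul]
    simp only [← h2]
    rw [← Finset.mul_sum, h1, mul_zero]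
  have h5 : y 0 = 0 := (mul_eq_zero.1 h4).resolve_left hs
  refine hy (funext fun k => ?_)
  have h6 := h2 k
  rw [h5, mul_zero] at h6
  exact (mul_eq_zero.1 h6).resolve_left h0

/-- the polynomial `g` -/
def q {e N : ℕ} (w : Fin N → ℂ) (φ v : Tn (e + 1) N) : Polynomial ℂ :=
  ∑ i, Polynomial.C (φ i * v i) *
    ∏ l, ((if i l = 0 then Polynomial.X else 0) - Polynomial.C (w l))

lemma q_eval {e N : ℕ} (w : Fin N → ℂ) (φ v : Tn (e + 1) N) (s : ℂ) :
    (q w φ v).eval s = pr φ (Tx w (pt s 0) v) := by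
  unfold q pr Tx
  rw [Polynomial.eval_finsetSum]
  refine Finset.sum_congr rfl fun i _ => ?_
  rw [Polynomial.eval_mul, Polynomial.eval_C, Polynomial.eval_prod]
  have h : ∀ l, ((if i l = 0 then Polynomial.X else 0) - Polynomial.C (w l)).eval s =
      pt s 0 (i l) - w l := by
    intro l
    unfold pt
    by_cases hl : i l = 0
    · simp [hl]
    · simp [hl]
  simp only [h]
  ring

lemma claim {e m N : ℕ} (h_CNJ : T_CNJ) (h_DEN : T_DEN) (h_DIA : T_DIA) (w : Fin N → ℂ)
    (φ v : Tn (e + 1) N) (hφ : φ ∈ Inv (e + 1) m N) (hv : v ∈ Inv (e + 1) m N)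
    (r : Fin (e + 1) → ℂ) :
    pr φ (act (fun l => Matrix.vecMulVec r (fun _ => 1) -
      w l • (1 : Matrix (Fin (e + 1)) (Fin (e + 1)) ℂ)) v) = (q w φ v).eval (∑ k, r k) := by
  have h1 : ∀ r : Fin (e + 1) → ℂ, r 0 * (∑ k, r k) *
      (pr φ (act (fun l => Matrix.vecMulVec r (fun _ => 1) -
      w l • (1 : Matrix (Fin (e + 1)) (Fin (e + 1)) ℂ)) v) - (q w φ v).eval (∑ k, r k)) = 0 := by
    intro r
    by_cases h0 : r 0 = 0
    · rw [h0, zero_mul, zero_mul]
    by_cases hs : ∑ k, r k = 0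
    · rw [hs, mul_zero, zero_mul]
    have h2 := h_CNJ (e + 1) m N (G r)
      (fun l => Matrix.vecMulVec r (fun _ => 1) -
        w l • (1 : Matrix (Fin (e + 1)) (Fin (e + 1)) ℂ))
      (fun l => Matrix.diagonal (pt (∑ k, r k) 0) -
        w l • (1 : Matrix (Fin (e + 1)) (Fin (e + 1)) ℂ))
      (fun l => G_mul r (w l)) φ hφ v hv
    have h3 := (mul_eq_zero.1 h2).resolve_left (pow_ne_zero m (G_det r h0 hs))
    rw [q_eval, (h_DIA (e + 1) N w (pt (∑ k, r k) 0) φ v).1, h3, mul_zero]
  have h4 := h_DEN ((Polynomial.C (r 0) + Polynomial.X) *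
    (Polynomial.C (∑ k, r k) + Polynomial.C ((e : ℂ) + 1) * Polynomial.X)) (by
      refine mul_ne_zero ?_ ?_
      · intro h
        have := congrArg (fun p => Polynomial.coeff p 1) h
        simp at this
      · intro h
        have := congrArg (fun p => Polynomial.coeff p 1) h
        simp only [Polynomial.coeff_add, Polynomial.coeff_C_succ, Polynomial.coeff_C_mul,
          Polynomial.coeff_X_one, mul_one, zero_add, Polynomial.coeff_zero] at this
        exact Nat.cast_add_one_ne_zero e this)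
    (fun s => pr φ (act (fun l => Matrix.vecMulVec (fun k => r k + s) (fun _ => 1) -
      w l • (1 : Matrix (Fin (e + 1)) (Fin (e + 1)) ℂ)) v))
    (fun s => (q w φ v).eval (∑ k, (r k + s)))
    (by
      simp only [pr, act, Matrix.sub_apply, Matrix.vecMulVec_apply]
      fun_prop)
    (by
      refine (q w φ v).continuous.comp ?_
      fun_prop)
    (by
      intro s
      have h5 := h1 (fun k => r k + s)
      simp only [Polynomial.eval_mul, Polynomial.eval_add, Polynomial.eval_C,
        Polynomial.eval_X]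
      have h6 : ∑ k, (r k + s) = (∑ k, r k) + ((e : ℂ) + 1) * s := by
        rw [Finset.sum_add_distrib]
        simp
      rw [← h6]
      exact h5)
  have h7 := congrFun h4 0
  simpa using h7

end TWO_

open TWO_ in
/-- the two point formula -/
theorem p_TWO (h_LAM : T_LAM) (h_LMS : T_LMS) (h_CNJ : T_CNJ) (h_DEN : T_DEN) (h_BAL : T_BAL)
    (h_DIA : T_DIA) (h_FIN : T_FIN) : T_TWO := by
  intro e m N w u x φ hφ v hv
  obtain ⟨-, -, -, -, h5, h6⟩ := h_FIN e N w u x
  rw [h5 v, h6 (pt x u) v]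
  have h7 : (fun k => pt x u k - u : Fin (e + 1) → ℂ) = pt (x - u) 0 := by
    funext k
    unfold pt
    by_cases hk : k = 0
    · simp [hk]
    · simp [hk]
  rw [h7]
  generalize (fun l => w l - u) = w'
  generalize x - u = t
  obtain ⟨p, hp1, hp2⟩ := h_LAM e m N w' t φ v (h_BAL _ m N φ hφ) (h_BAL _ m N v hv)
  have h8 : p = Polynomial.aeval (∑ k, (MvPolynomial.X k : MvPolynomial (Fin (e + 1)) ℂ))
      (q w' φ v) := by
    refine MvPolynomial.funext fun r => ?_
    have h9 := hp1 r (fun _ => 1)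
    simp only [mul_one] at h9
    rw [h9, claim h_CNJ h_DEN h_DIA w' φ v hφ hv r]
    have h10 : MvPolynomial.eval r (Polynomial.aeval
        (∑ k, (MvPolynomial.X k : MvPolynomial (Fin (e + 1)) ℂ)) (q w' φ v)) =
        (q w' φ v).eval (MvPolynomial.eval r (∑ k, MvPolynomial.X k)) := by
      rw [Polynomial.aeval_def, Polynomial.hom_eval₂]
      have h11 : (MvPolynomial.eval r).comp (algebraMap ℂ (MvPolynomial (Fin (e + 1)) ℂ)) =
          RingHom.id ℂ := by
        ext z
        simp
      rw [h11, Polynomial.eval₂_id]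
    rw [h10, map_sum]
    simp only [MvPolynomial.eval_X]
  rw [← hp2, h8, (h_LMS e t).2, q_eval]

end

end Pool.Agent.KPW
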