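import Pool.Agent.KPW.Targets

/-!
# KPW-VRM: Vandermonde determinant with one point removed
-/

set_option autoImplicit false

open scoped BigOperators

namespace Pool.Agent.KPW

noncomputable section

/-- the Vandermonde determinant of `Fin.cons a y` -/
theorem VRM_cons {n : ℕ} (a : ℂ) (y : Fin n → ℂ) :
    vdm (Fin.cons a y : Fin (n + 1) → ℂ) = (∏ k, (y k - a)) * vdm y := by
  rw [vdm, vdm, Matrix.det_vandermonde, Matrix.det_vandermonde, Fin.prod_univ_succ]
  congr 1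
  · rw [Fin.prod_Ioi_zero]
    simp
  · refine Finset.prod_congr rfl fun i _ => ?_
    rw [Fin.prod_Ioi_succ]
    simp

/-- permutation of the points -/
theorem VRM_perm {n : ℕ} (x : Fin n → ℂ) (σ : Equiv.Perm (Fin n)) :
    vdm (fun k => x (σ k)) = ((Equiv.Perm.sign σ : ℤ) : ℂ) * vdm x := by
  rw [vdm, vdm, ← Matrix.det_permute]
  rfl

theorem p_VRM : T_VRM := by
  intro e x i
  have h1 := VRM_perm x i.cycleRange.symm
  have h2 : (fun k => x (i.cycleRange.symm k)) = (Fin.cons (x i) (rm x i) : Fin (e + 2) → ℂ) := by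
    funext k
    refine Fin.cases ?_ (fun j => ?_) k
    · rw [Fin.cycleRange_symm_zero]
      rfl
    · rw [Fin.cycleRange_symm_succ]
      rfl
  rw [h2, VRM_cons] at h1
  have h3 : ((Equiv.Perm.sign i.cycleRange.symm : ℤ) : ℂ) = (-1) ^ (i : ℕ) := by
    rw [Equiv.Perm.sign_symm, Fin.sign_cycleRange]
    simp
  rw [h3] at h1
  have h4 : ∏ k, (rm x i k - x i) = (-1) ^ (e + 1) * ∏ k, (x i - rm x i k) := by
    have : ∏ k : Fin (e + 1), (rm x i k - x i) = ∏ k, ((-1) * (x i - rm x i k)) :=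
      Finset.prod_congr rfl fun k _ => by ring
    rw [this, Finset.prod_mul_distrib]
    simp
  rw [h4] at h1
  have h5 : ((-1 : ℂ) ^ (i : ℕ)) * (-1) ^ (i : ℕ) = 1 := by
    rw [← mul_pow]
    simp
  have h6 : ((-1 : ℂ) ^ (e + 1)) * (-1) ^ (e + 1) = 1 := by
    rw [← mul_pow]
    simp
  linear_combination (-1 : ℂ) ^ (e + 1) * (-1) ^ (i : ℕ) * h1 -
    (-1 : ℂ) ^ (i : ℕ) * vdm (rm x i) * (∏ k, (x i - rm x i k)) * h6 + (-1 : ℂ) ^ (e + 1) * vdm x * h5

end

end Pool.Agent.KPW
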