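import Pool.Agent.KPW.Targets2

/-!
# KPW-WXC: continuity of `Wx`
-/

set_option autoImplicit false

open scoped BigOperators

namespace Pool.Agent.KPW

noncomputable section

/-- families of polynomials of bounded degree with continuous coefficients -/
def WXC_Good {T : Type} [TopologicalSpace T] (F : T → Polynomial ℂ) : Prop :=
  (∃ n : ℕ, ∀ t, (F t).natDegree ≤ n) ∧ ∀ j : ℕ, Continuous fun t => (F t).coeff j

theorem WXC_eval {T : Type} [TopologicalSpace T] {F : T → Polynomial ℂ} (hF : WXC_Good F)
    {a : T → ℂ} (ha : Continuous a) : Continuous fun t => (F t).eval (a t) := by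
  obtain ⟨⟨n, hn⟩, hc⟩ := hF
  have h : (fun t => (F t).eval (a t)) = fun t => ∑ i ∈ Finset.range (n + 1), (F t).coeff i * a t ^ i := by
    funext t
    exact Polynomial.eval_eq_sum_range' (Nat.lt_succ_of_le (hn t)) _
  rw [h]
  exact continuous_finsetSum _ fun i _ => (hc i).mul (ha.pow i)

theorem WXC_div {T : Type} [TopologicalSpace T] {F : T → Polynomial ℂ} (hF : WXC_Good F)
    {a : T → ℂ} (ha : Continuous a) :
    WXC_Good fun t => F t /ₘ (Polynomial.X - Polynomial.C (a t)) := by
  obtain ⟨⟨n, hn⟩, hc⟩ := hF
  have hd : ∀ t, (F t /ₘ (Polynomial.X - Polynomial.C (a t))).natDegree ≤ n := by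
    intro t
    rw [Polynomial.natDegree_divByMonic _ (Polynomial.monic_X_sub_C _)]
    exact (Nat.sub_le _ _).trans (hn t)
  refine ⟨⟨n, hd⟩, ?_⟩
  have key : ∀ k j : ℕ, n < j + k → Continuous fun t =>
      (F t /ₘ (Polynomial.X - Polynomial.C (a t))).coeff j := by
    intro k
    induction k with
    | zero =>
      intro j hj
      have h0 : (fun t => (F t /ₘ (Polynomial.X - Polynomial.C (a t))).coeff j) = fun _ => 0 := by
        funext t
        exact Polynomial.coeff_eq_zero_of_natDegree_lt (lt_of_le_of_lt (hd t) (by omega))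
      rw [h0]
      exact continuous_const
    | succ k ih =>
      intro j hj
      have h0 : (fun t => (F t /ₘ (Polynomial.X - Polynomial.C (a t))).coeff j) = fun t =>
          (F t).coeff (j + 1) + a t * (F t /ₘ (Polynomial.X - Polynomial.C (a t))).coeff (j + 1) := by
        funext t
        exact Polynomial.coeff_divByMonic_X_sub_C_rec _ _ _
      rw [h0]
      exact (hc (j + 1)).add (ha.mul (ih (j + 1) (by omega)))
  intro j
  exact key (n + 1) j (by omega)

theorem WXC_fp (e m : ℕ) (a : Fin (e + 1)) :
    WXC_Good fun p : (Fin (e + 1) → Fin m → ℂ) × (Fin (e + 1) → ℂ) => fp p.1 a := by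
  refine ⟨⟨m + (a : ℕ), fun p => ?_⟩, fun j => ?_⟩
  · unfold fp
    refine (Polynomial.natDegree_add_le _ _).trans (max_le (Polynomial.natDegree_X_pow_le _) ?_)
    refine Polynomial.natDegree_sum_le_of_forall_le _ _ fun l _ => ?_
    refine (Polynomial.natDegree_C_mul_X_pow_le _ _).trans ?_
    have := l.2
    omega
  · unfold fp
    simp only [Polynomial.coeff_add, Polynomial.finsetSum_coeff, Polynomial.coeff_C_mul_X_pow,
      Polynomial.coeff_X_pow]
    refine continuous_const.add (continuous_finsetSum _ fun l _ => ?_)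
    by_cases h : j = (l : ℕ)
    · simp only [h, if_true]
      exact (continuous_apply l).comp ((continuous_apply a).comp continuous_fst)
    · simp only [h, if_false]
      exact continuous_const

theorem WXC_ext (e m k : ℕ) : Continuous
    fun p : (Fin (e + 1) → Fin m → ℂ) × (Fin (e + 1) → ℂ) => ext p.2 k := by
  unfold ext
  by_cases h : k < e + 1
  · simp only [h, dif_pos]
    exact (continuous_apply _).comp continuous_snd
  · simp only [h, dif_neg, not_false_iff]
    exact continuous_const

theorem WXC_dq (e m : ℕ) (a : Fin (e + 1)) (k : ℕ) :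
    WXC_Good fun p : (Fin (e + 1) → Fin m → ℂ) × (Fin (e + 1) → ℂ) => dq (ext p.2) (fp p.1 a) k := by
  induction k with
  | zero => exact WXC_fp e m a
  | succ k ih => exact WXC_div ih (WXC_ext e m k)

theorem p_WXC : T_WXC := by
  intro e m
  unfold Wx
  refine Continuous.matrix_det ?_
  refine continuous_matrix fun a b => ?_
  exact WXC_eval (WXC_dq e m a b) ((continuous_apply b).comp continuous_snd)

end

end Pool.Agent.KPW
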