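import Pool.Agent.KPW.P_WXV

/-!
# KPW: target WXZ (divisible combination gives a zero of `Wx`)
-/

set_option autoImplicit false

open scoped BigOperators
open Polynomial

namespace Pool.Agent.KPW

/-- uniqueness of the division by `X - C a` -/
theorem WXZ_uniq (f q : Polynomial ℂ) (a r : ℂ) (h : f = C r + (X - C a) * q) :
    f /ₘ (X - C a) = q := by
  have h1 : f.eval a = r := by
    rw [h]
    simp
  have h2 := WXV_step f a
  rw [h1] at h2
  have h3 : (X - C a) * (f /ₘ (X - C a)) = (X - C a) * q := by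
    have h4 := h2.symm.trans h
    exact add_left_cancel h4
  exact mul_left_cancel₀ (X_sub_C_ne_zero a) h3

/-- linearity of the divided differences -/
theorem WXZ_lin {ι : Type} (s : Finset ι) (y : ℕ → ℂ) (β : ι → ℂ) (f : ι → Polynomial ℂ) (k : ℕ) :
    dq y (∑ a ∈ s, C (β a) * f a) k = ∑ a ∈ s, C (β a) * dq y (f a) k := by
  induction k with
  | zero => rfl
  | succ k ih =>
    change (dq y (∑ a ∈ s, C (β a) * f a) k) /ₘ (X - C (y k)) = _
    rw [ih]
    refine WXZ_uniq _ _ _ (∑ a ∈ s, β a * (dq y (f a) k).eval (y k)) ?_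
    rw [map_sum, Finset.mul_sum, ← Finset.sum_add_distrib]
    refine Finset.sum_congr rfl fun a _ => ?_
    have h1 : dq y (f a) k = C ((dq y (f a) k).eval (y k)) + (X - C (y k)) * dq y (f a) (k + 1) :=
      WXV_step _ _
    conv_lhs => rw [h1]
    rw [C_mul]
    ring

/-- divided differences of a multiple of the product -/
theorem WXZ_prod (y : ℕ → ℂ) (h : Polynomial ℂ) (n k : ℕ) (hk : k ≤ n) :
    dq y ((∏ j ∈ Finset.range n, (X - C (y j))) * h) k =
      (∏ j ∈ Finset.Ico k n, (X - C (y j))) * h := by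
  induction k with
  | zero => rw [Finset.range_eq_Ico]; rfl
  | succ k ih =>
    change (dq y ((∏ j ∈ Finset.range n, (X - C (y j))) * h) k) /ₘ (X - C (y k)) = _
    rw [ih (by omega)]
    refine WXZ_uniq _ _ _ 0 ?_
    rw [Finset.prod_eq_prod_Ico_succ_bot (by omega : k < n), C_0, zero_add, mul_assoc]

theorem p_WXZ : T_WXZ := by
  intro e m c x β hβ hdiv
  obtain ⟨h, hh⟩ := hdiv
  have h1 : ∏ b, (X - C (x b)) = ∏ j ∈ Finset.range (e + 1), (X - C (ext x j)) := by
    rw [Finset.prod_range]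
    exact Finset.prod_congr rfl fun i _ => by rw [WXV_ext]
  rw [h1] at hh
  unfold Wx
  rw [← Matrix.exists_vecMul_eq_zero_iff]
  refine ⟨β, hβ, ?_⟩
  funext b
  have h2 : (dq (ext x) (∑ a, C (β a) * fp c a) b).eval (x b) = 0 := by
    rw [hh, WXZ_prod _ _ _ _ (by omega), Finset.prod_eq_prod_Ico_succ_bot b.2, WXV_ext]
    simp
  rw [WXZ_lin, eval_finsetSum] at h2
  rw [Pi.zero_apply, ← h2]
  unfold Matrix.vecMul dotProduct
  refine Finset.sum_congr rfl fun a _ => ?_
  rw [eval_C_mul]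
  rfl

end Pool.Agent.KPW
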