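import Pool.Agent.KPW.Targets

set_option autoImplicit false

open scoped BigOperators

namespace Pool.Agent.KPW

noncomputable section

namespace YDC_

lemma cont {d N : ℕ} (φ v : Tn d N) (L : ℂ → Fin N → Matrix (Fin d) (Fin d) ℂ)
    (hL : ∀ l, Continuous fun s => L s l) : Continuous fun s => pr φ (act (L s) v) := by
  unfold pr act
  exact continuous_finsetSum _ fun i _ => continuous_const.mul
    (continuous_finsetSum _ fun j _ => (continuous_finsetProd _ fun l _ =>
      (hL l).matrix_elem _ _).mul continuous_const)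

lemma expand {d : ℕ} (A B : Matrix (Fin d) (Fin d) ℂ) (z : ℂ) :
    (A - z • 1) * (B - z • 1) = A * B - z • (A + B) + (z * z) • 1 := by
  simp only [mul_sub, sub_mul, Matrix.smul_mul, Matrix.mul_smul, mul_one, one_mul, smul_smul,
    smul_add]
  abel

lemma conj {d : ℕ} (Y D : Matrix (Fin d) (Fin d) ℂ) (τ z : ℂ) (hY : Y * Y = τ • Y) :
    (D + Y - τ • 1) * ((Y - z • 1) * (D - z • 1)) =
      ((D - z • 1) * (Y - z • 1)) * (D + Y - τ • 1) := by
  have h1 : (D + Y - τ • 1) * (Y * D) = D * Y * D := by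
    have : (D + Y - τ • 1) * (Y * D) = D * Y * D + (Y * Y) * D - τ • (Y * D) := by
      simp only [sub_mul, add_mul, Matrix.smul_mul, one_mul, mul_assoc]
    rw [this, hY, Matrix.smul_mul]
    abel
  have h2 : (D * Y) * (D + Y - τ • 1) = D * Y * D := by
    have : (D * Y) * (D + Y - τ • 1) = D * Y * D + D * (Y * Y) - τ • (D * Y) := by
      simp only [mul_sub, mul_add, Matrix.mul_smul, mul_one, mul_assoc]
    rw [this, hY, Matrix.mul_smul]
    abel
  have h3 : (D + Y - τ • 1) * (Y + D) = (D + Y) * (D + Y - τ • 1) := by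
    rw [add_comm Y D]
    simp only [sub_mul, mul_sub, Matrix.smul_mul, Matrix.mul_smul, mul_one, one_mul]
  rw [expand, expand]
  generalize D + Y - τ • (1 : Matrix (Fin d) (Fin d) ℂ) = G at h1 h2 h3 ⊢
  rw [mul_add, mul_sub, add_mul, sub_mul, h1, h2, Matrix.mul_smul, h3,
    Matrix.mul_smul, Matrix.smul_mul, Matrix.smul_mul, mul_one, one_mul]

end YDC_

open YDC_ in
theorem p_YDC (h_CNJ : T_CNJ) (h_DEN : T_DEN) : T_YDC := by
  intro d m N w Y D τ hY φ hφ v hv
  have key := h_DEN ((-(D + Y - τ • (1 : Matrix (Fin d) (Fin d) ℂ))).charpoly ^ m)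
    (pow_ne_zero _ (Matrix.charpoly_monic _).ne_zero)
    (fun s => pr φ (act (fun l => (Y - w l • 1) * ((D + s • 1) - w l • 1)) v))
    (fun s => pr φ (act (fun l => ((D + s • 1) - w l • 1) * (Y - w l • 1)) v))
    (cont φ v _ fun l => by fun_prop) (cont φ v _ fun l => by fun_prop) (by
      intro s
      have h := h_CNJ d m N ((D + s • 1) + Y - τ • 1)
        (fun l => (Y - w l • 1) * ((D + s • 1) - w l • 1))
        (fun l => ((D + s • 1) - w l • 1) * (Y - w l • 1))
        (fun l => conj Y (D + s • 1) τ (w l) hY) φ hφ v hv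
      have hdet : (-(D + Y - τ • (1 : Matrix (Fin d) (Fin d) ℂ))).charpoly.eval s =
          ((D + s • 1) + Y - τ • 1).det := by
        rw [Matrix.eval_charpoly]
        congr 1
        rw [Matrix.scalar_apply, ← Matrix.smul_one_eq_diagonal]
        abel
      rw [Polynomial.eval_pow, hdet]
      exact h)
  have h0 := congrFun key 0
  simpa using h0

end

end Pool.Agent.KPW
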