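import Pool.Agent.KPW.Defs

set_option autoImplicit false

/-!
# KPW targets, steps (1) to (5) of ideas row 1737 (MP_0c25eb_ag, project SEC)

Every target has its complete proof in the docstring. The list after the word uses gives the targets that may be taken as hypotheses (any
other target may be taken too, as long as no circle arises; steps (6) to (9) are in Targets2). The pairing `pr` is
bilinear and symmetric, no conjugation. `d = e + 1` colours.
-/

open scoped BigOperators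

namespace Pool.Agent.KPW

noncomputable section

/-! ## (1) Tensors and matrices -/

/-- KPW-ACC. Composition. Exchange the sums; for fixed `i, k`:
`∑ j, ∏ l, L l (i l) (j l) * L' l (j l) (k l) = ∏ l, ∑ a, L l (i l) a * L' l a (k l)` (`Finset.prod_univ_sum`,
`Fintype.piFinset_univ`). -/
def T_ACC : Prop := ∀ (d N : ℕ) (L L' : Fin N → Matrix (Fin d) (Fin d) ℂ) (v : Tn d N),
  act L (act L' v) = act (fun l => L l * L' l) v

/-- KPW-ATR. Transposition: exchange the two sums. -/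
def T_ATR : Prop := ∀ (d N : ℕ) (L : Fin N → Matrix (Fin d) (Fin d) ℂ) (φ v : Tn d N),
  pr φ (act L v) = pr (act (fun l => (L l).transpose) φ) v

/-- KPW-DIA. The diagonal operator is `act` of diagonal matrices: in the sum over `j` only `j = i` survives (if
`j l ≠ i l` for some `l`, the factor `l` is zero). Also `Tx` is symmetric, and commutation of `pm` with the constant
family, and symmetry of `pm`. (1) `Tx w x v = act ..`; (2) `pr φ (Tx w x v) = pr (Tx w x φ) v`; (3)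
`act (fun _ => g) (pm σ v) = pm σ (act (fun _ => g) v)` (reindex `j` by `σ`, and the product by `σ`); (4)
`pr φ (pm σ v) = pr (pm σ⁻¹ φ) v` (reindex `i` by `i ∘ σ`); (5) products: `pr φ (act L (Tx w x v))` and
`pr φ (Tx w x (act L v))` are `pr φ (act ..)` of the products of matrices (from T_ACC and (1)). -/
def T_DIA : Prop := ∀ (d N : ℕ) (w : Fin N → ℂ) (x : Fin d → ℂ) (φ v : Tn d N),
  Tx w x v = act (fun l => Matrix.diagonal x - w l • (1 : Matrix (Fin d) (Fin d) ℂ)) v ∧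
  pr φ (Tx w x v) = pr (Tx w x φ) v ∧
  (∀ (g : Matrix (Fin d) (Fin d) ℂ) (σ : Equiv.Perm (Fin N)),
    act (fun _ => g) (pm σ v) = pm σ (act (fun _ => g) v)) ∧
  (∀ σ : Equiv.Perm (Fin N), pr φ (pm σ v) = pr (pm σ⁻¹ φ) v) ∧
  (∀ L : Fin N → Matrix (Fin d) (Fin d) ℂ,
    act L (Tx w x v) = act (fun l => L l * (Matrix.diagonal x - w l • (1 : Matrix (Fin d) (Fin d) ℂ))) v ∧
    Tx w x (act L v) = act (fun l => (Matrix.diagonal x - w l • (1 : Matrix (Fin d) (Fin d) ℂ)) * L l) v)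

/-- KPW-CNJ (uses T_ACC, T_ATR). Conjugation principle. `pr φ (act (G * L l) v) = pr φ (act G (act L v)) =
pr (act Gᵀ φ) (act L v) = (det G)^m pr φ (act L v)`, and
`pr φ (act (L' l * G) v) = pr φ (act L' (act G v)) = (det G)^m pr φ (act L' v)`. -/
def T_CNJ : Prop := ∀ (d m N : ℕ) (G : Matrix (Fin d) (Fin d) ℂ) (L L' : Fin N → Matrix (Fin d) (Fin d) ℂ),
  (∀ l, G * L l = L' l * G) → ∀ φ ∈ Inv d m N, ∀ v ∈ Inv d m N,
    G.det ^ m * (pr φ (act L v) - pr φ (act L' v)) = 0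

/-- KPW-DEN. Density in one variable: a nonzero polynomial has finitely many zeros, so its nonzero set is dense
(`Set.Finite.dense_compl` or `Dense.diff_finite`; or `Polynomial.rootSet_finite`), and two continuous functions
which agree on a dense set are equal (`Continuous.ext_on`). -/
def T_DEN : Prop := ∀ (p : Polynomial ℂ), p ≠ 0 → ∀ A B : ℂ → ℂ, Continuous A → Continuous B →
  (∀ s, p.eval s * (A s - B s) = 0) → A = B

/-- KPW-YDC (uses T_CNJ, T_DEN). For `s : ℂ` put `D' = D + s • 1` and `G = D' + Y - τ • 1`. Then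
`G (Y - z)(D' - z) = (D' - z)(Y - z) G`: both products are `.. - z (Y + D') + z^2`, `G` commutes with `Y + D'`,
`G Y D' = D' Y D' + Y^2 D' - τ Y D' = D' Y D'` and `D' Y G = D' Y D' + D' Y^2 - τ D' Y = D' Y D'`. T_CNJ gives
`(det G)^m (A s - B s) = 0`, `A s`, `B s` = the two sides for `D'`, continuous in `s`; `det G`, `G = s • 1 + M`, is
the value at `s` of the monic polynomial `charpoly (-M)` (`Matrix.eval_charpoly`-like lemma: `Matrix.eval_det`). So
T_DEN applies; take `s = 0`. -/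
def T_YDC : Prop := ∀ (d m N : ℕ) (w : Fin N → ℂ) (Y D : Matrix (Fin d) (Fin d) ℂ) (τ : ℂ), Y * Y = τ • Y →
  ∀ φ ∈ Inv d m N, ∀ v ∈ Inv d m N,
    pr φ (act (fun l => (Y - w l • 1) * (D - w l • 1)) v) =
      pr φ (act (fun l => (D - w l • 1) * (Y - w l • 1)) v)

/-- KPW-BAL. Invariants are balanced: for `a : Fin d` take `g` diagonal with entry `2` at `a` and `1` elsewhere:
`act (fun _ => g) v i = 2^(number of l with i l = a) * v i` and `det g = 2`. If `v i ≠ 0` then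
`2^(number) = 2^m` in `ℂ`, so number `= m`. -/
def T_BAL : Prop := ∀ (d m N : ℕ), ∀ v ∈ Inv d m N, BalT m v

/-- KPW-CJI. Complex conjugate of an invariant: conjugate `act (fun _ => conj g) v = (det (conj g))^m • v`. The second
part: `pr (conj v) v = ∑ |v i|^2`, so it is not zero if `v ≠ 0`. Third: nondegeneracy, from the first two. -/
def T_CJI : Prop := ∀ (d m N : ℕ), ∀ v ∈ Inv d m N,
  ((fun i => star (v i)) ∈ Inv d m N) ∧ (v ≠ 0 → pr (fun i => star (v i)) v ≠ 0) ∧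
  ((∀ φ ∈ Inv d m N, pr φ v = 0) → v = 0)

/-- KPW-EXI. A nonzero invariant. Slots are `Fin (d * m) ≃ Fin d × Fin m` (`finProdFinEquiv`). Let
`v i = ∏ c : Fin m, det (fun a b : Fin d => if i (a, c) = b then 1 else 0)`. For fixed `c`,
`∑ over the values j (·, c) of ∏ a, g (i (a,c)) (j (a,c)) * det (δ_{j (a,c), b})` is
`det (fun a b => g (i (a, c)) b)` (expansion of a determinant whose rows are `∑_j g (i (a,c)) j • e_j`, multilinearity:
`Matrix.detRowAlternating.map_sum`-like, or `Matrix.det_apply` and exchange), which is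
`det (δ_{i(a,c),b}) * det g` (product of matrices). The value at `i (a, c) = a` is `1`. -/
def T_EXI : Prop := ∀ (d m : ℕ), ∃ v ∈ Inv d m (d * m), v ≠ 0

/-- KPW-SYM (uses T_CNJ, T_DIA). Symmetry in `x`: `G` the permutation matrix of `σ`, `G * diagonal (x ∘ σ) =
diagonal x * G` or the inverse permutation (choose the right one), `det G = ± 1 ≠ 0`. -/
def T_SYM : Prop := ∀ (d m N : ℕ) (w : Fin N → ℂ) (x : Fin d → ℂ) (σ : Equiv.Perm (Fin d)),
  ∀ φ ∈ Inv d m N, ∀ v ∈ Inv d m N, pr φ (Tx w (x ∘ σ) v) = pr φ (Tx w x v)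

/-! ## (2) The row operators and the functional `Lam` -/

/-- KPW-FIN (uses T_DIA). `Fr` is linear, symmetric and preserves the invariants; shifts. (1) `Fr` is additive and
homogeneous in `v`; (2) `pr φ (Fr w u x v) = pr (Fr w u x φ) v`: the set of the permutations of `B` is stable under
inversion; (3) `pm σ v ∈ Inv` for `v ∈ Inv` by T_DIA (3); (4) `Fr w u x = Fr (w - u) 0 (x - u)` and the same for
`Tx`: the definitions agree literally. -/
def T_FIN : Prop := ∀ (e N : ℕ) (w : Fin N → ℂ) (u x : ℂ),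
  (∀ v v' : Tn (e + 1) N, Fr w u x (v + v') = Fr w u x v + Fr w u x v') ∧
  (∀ (s : ℂ) (v : Tn (e + 1) N), Fr w u x (s • v) = s • Fr w u x v) ∧
  (∀ φ v : Tn (e + 1) N, pr φ (Fr w u x v) = pr (Fr w u x φ) v) ∧
  (∀ m : ℕ, ∀ v ∈ Inv (e + 1) m N, Fr w u x v ∈ Inv (e + 1) m N) ∧
  (∀ v : Tn (e + 1) N, Fr w u x v = Fr (fun l => w l - u) 0 (x - u) v) ∧
  (∀ (y : Fin (e + 1) → ℂ) (v : Tn (e + 1) N), Tx w y v = Tx (fun l => w l - u) (fun k => y k - u) v)

/-- KPW-CNT. Number of permutations `σ` of `B` (fixing everything outside `B`) with `i ∘ σ = j`. If there is one then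
`i = j` outside `B`. If `i = j` outside `B` and every colour occurs equally often in `i|B` and `j|B`, there is a
`σ0` (bijections between the fibres, for example from `Fintype.card_eq` on `{l // l ∈ B ∧ i l = k}`), and
`σ ↦ σ * σ0⁻¹` is a bijection onto the `ρ` of `B` with `i ∘ ρ = i`, whose number is the product of the factorials of
the sizes of the fibres: `DomMulAct.stabilizer_card` (or `stabilizer_card'`) on the type `B`, with
`Equiv.Perm.subtypeEquivSubtypePerm`. -/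
def T_CNT : Prop := ∀ (d N : ℕ) (B : Finset (Fin N)) (i j : Fin N → Fin d),
  (∀ l, l ∉ B → i l = j l) → (∀ k : Fin d, (B.filter fun l => i l = k).card = (B.filter fun l => j l = k).card) →
  (Finset.univ.filter fun σ : Equiv.Perm (Fin N) => (∀ l, l ∉ B → σ l = l) ∧ i ∘ σ = j).card =
    ∏ k : Fin d, Nat.factorial (B.filter fun l => i l = k).card

/-- KPW-LAM (uses T_CNT). Put
`p = ∑ i, ∑ j, ∑ B, if (i = j off B) and i, j balanced then C (φ i * ξ j * ∏ l ∈ Bᶜ, (- w l)) * ∏ l ∈ B, X (i l)`.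
(1) Expand `∏ l, (a (i l) * b (j l) - w l δ(i l, j l))` over the subsets `B` (`Finset.prod_add` with
`- w l δ`): the term of `B` is `0` unless `i = j` off `B`, and if `i, j` are balanced then every colour occurs equally
often in `i|B` and `j|B` (`m` minus the number outside `B`), so `∏ l ∈ B, b (j l) = ∏ l ∈ B, b (i l)` (both are
`∏ k, b k ^ (number)`, `Finset.prod_fiberwise`/`Finset.prod_comp`). If `i` or `j` is not balanced then
`φ i = 0` or `ξ j = 0`. (2) `∏ l ∈ B, X (i l)` is the monomial `ν k = number of l ∈ B with i l = k`, `∑ ν = |B|`, so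
`Lam` of it is `(∏ k, (ν k)!) t^(|B|+e)/(|B|+e)!`; `∏ (ν k)!` is the number of permutations `σ` of `B` with
`i ∘ σ = j` (T_CNT), and `pr φ (pm σ ξ) = ∑ i, φ i ξ (i ∘ σ) = ∑ i, ∑ j, [i ∘ σ = j] φ i ξ j`. -/
def T_LAM : Prop := ∀ (e m N : ℕ) (w : Fin N → ℂ) (t : ℂ) (φ ξ : Tn (e + 1) N), BalT m φ → BalT m ξ →
  ∃ p : MvPolynomial (Fin (e + 1)) ℂ,
    (∀ a b : Fin (e + 1) → ℂ, MvPolynomial.eval (fun k => a k * b k) p =
      pr φ (act (fun l => Matrix.vecMulVec a b - w l • (1 : Matrix (Fin (e + 1)) (Fin (e + 1)) ℂ)) ξ)) ∧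
    Lam e t p = pr φ (Fr w 0 t ξ)

/-- KPW-LMS. (1) On monomials: `Lam (X^ν (∑ X k)) = ∑ k (ν k + 1) (∏ ν!) t^(|ν|+1+e)/(|ν|+1+e)!
= t (∏ ν!) t^(|ν|+e)/(|ν|+e)!`, because `∑ k (ν k + 1) = |ν| + e + 1`. (2) from (1) by induction on the degree of
`q`, `Lam 1 = t^e/e!`: for `q = X^n`, `Lam ((∑ X k)^n) = t^n t^e/e!`, then linearity. -/
def T_LMS : Prop := ∀ (e : ℕ) (t : ℂ),
  (∀ p : MvPolynomial (Fin (e + 1)) ℂ, Lam e t ((∑ k, MvPolynomial.X k) * p) = t * Lam e t p) ∧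
  (∀ q : Polynomial ℂ, Lam e t (Polynomial.aeval (∑ k, (MvPolynomial.X k : MvPolynomial (Fin (e + 1)) ℂ)) q) =
    t ^ e / (Nat.factorial e : ℂ) * q.eval t)

/-- KPW-LMH (uses T_LMS). `Lam e t` only sees the hyperplane `∑ r = t`. With `h = p - q` and
`MvPolynomial.finSuccEquiv ℂ e h = H`, a polynomial over `MvPolynomial (Fin e) ℂ`, and `ρ = C t - ∑ k, X k`:
`H.eval ρ` is zero since all its values are values of `h` at points `(t - ∑ r', r')` (`MvPolynomial.funext`,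
`MvPolynomial.eval_eq_eval_mv_eval'`), so `X - C ρ` divides `H` (`Polynomial.dvd_iff_isRoot`), that is
`h = (∑ X k - C t) * g`, and T_LMS (1) gives `Lam e t h = 0`. -/
def T_LMH : Prop := ∀ (e : ℕ) (t : ℂ) (p q : MvPolynomial (Fin (e + 1)) ℂ),
  (∀ r : Fin (e + 1) → ℂ, ∑ k, r k = t → MvPolynomial.eval r p = MvPolynomial.eval r q) → Lam e t p = Lam e t q

/-! ## (3), (4) Two point formula and commutation -/

/-- KPW-TWO (uses T_LAM, T_LMS, T_CNJ, T_DEN, T_BAL, T_DIA, T_FIN). WLOG `u = 0` (T_FIN (5),(6); `pt x u - u = pt (x-u) 0`). `p` from T_LAM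
for `ξ = v`. Let `g s = pr φ (Tx w (pt s 0) v) = pr φ (act (fun l => s • E_00 - w l) v)`, a polynomial function of `s`:
`g s = q.eval s`. CLAIM: `eval r p = g (∑ r)`. With `a = r`, `b = 1`, `Y = vecMulVec r 1`, `τ = ∑ r`: the matrix `G`
with rows `G 0 = (1, .., 1)` and `G k = r 0 • e_k - r k • e_0` for `k ≥ 1` satisfies `G Y = (τ E_00) G`, hence
`G (Y - w l) = (τ E_00 - w l) G`. If `r 0 ≠ 0` and `τ ≠ 0` then `det G ≠ 0` (if `G y = 0` then `r 0 y_k = r k y_0`,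
so `r 0 ∑ y = τ y_0 = 0`, `y_0 = 0`, `y = 0`), so T_CNJ gives the claim; in general replace `r` by `r + s (1..1)` and use
T_DEN with the polynomial `(r 0 + s)(τ + (e+1) s)`. So `p = aeval (∑ X k) q` (`MvPolynomial.funext`) and T_LMS (2). -/
def T_TWO : Prop := ∀ (e m N : ℕ) (w : Fin N → ℂ) (u x : ℂ), ∀ φ ∈ Inv (e + 1) m N, ∀ v ∈ Inv (e + 1) m N,
  pr φ (Fr w u x v) = (x - u) ^ e / (Nat.factorial e : ℂ) * pr φ (Tx w (pt x u) v)

/-- KPW-COM (uses T_LAM, T_YDC, T_BAL, T_DIA, T_FIN). WLOG `u = 0` (T_FIN). `φ` and `Tx w y v` are balanced, `p1` from T_LAM for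
`(φ, Tx w y v)`: `eval (a b) p1 = pr φ (act ((a bᵀ - w l)(D - w l)) v)`, `D = diagonal y`. `p2` from T_LAM for
`(Tx w y φ, v)`: `eval (a b) p2 = pr (Tx w y φ) (act (a bᵀ - w l) v) = pr φ (act ((D - w l)(a bᵀ - w l)) v)`. With
`a = r`, `b = 1`, `Y = r 1ᵀ`, `Y^2 = (∑ r) Y`, T_YDC: `eval r p1 = eval r p2` for all `r`, so `p1 = p2`
(`MvPolynomial.funext`), and `Lam` gives `pr φ (Fr w 0 x (Tx w y v)) = pr (Tx w y φ) (Fr w 0 x v)`. -/
def T_COM : Prop := ∀ (e m N : ℕ) (w : Fin N → ℂ) (u x : ℂ) (y : Fin (e + 1) → ℂ),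
  ∀ φ ∈ Inv (e + 1) m N, ∀ v ∈ Inv (e + 1) m N,
    pr φ (Fr w u x (Tx w y v)) = pr φ (Tx w y (Fr w u x v))

/-- KPW-CFF (uses T_TWO, T_COM, T_FIN, T_CJI). For `φ ∈ Inv`, writing `F = Fr w u x`, `F' = Fr w u' x'`,
`k = (x'-u')^e/e!`: `pr φ (F (F' v)) = pr (F φ) (F' v) = k pr (F φ) (Tx w (pt x' u') v) = k pr φ (F (Tx .. v)) =
k pr φ (Tx .. (F v)) = pr φ (F' (F v))` (symmetry of `F`, T_TWO for `F φ ∈ Inv`, symmetry, T_COM, T_TWO for
`F v ∈ Inv`). Nondegeneracy (T_CJI, third part) for `F (F' v) - F' (F v) ∈ Inv`. -/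
def T_CFF : Prop := ∀ (e m N : ℕ) (w : Fin N → ℂ) (u x u' x' : ℂ), ∀ v ∈ Inv (e + 1) m N,
  Fr w u x (Fr w u' x' v) = Fr w u' x' (Fr w u x v)

/-! ## (5) The identity (H)

For `x, c : Fin (e + 2) → ℂ` and `i : Fin (e + 2)`: `D_i = diagonal (rm x i)`, `Y_i = a bᵀ` with `a k = rm c i k`,
`b k = x i - rm x i k`, and `Gm x c i` with entries `(rm x i k - x i) * (δ(j+1, i.succAbove k) - c (j+1))`. -/

/-- the rank one matrix `Y_i` -/
def Ym {e : ℕ} (x c : Fin (e + 2) → ℂ) (i : Fin (e + 2)) : Matrix (Fin (e + 1)) (Fin (e + 1)) ℂ :=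
  Matrix.vecMulVec (rm c i) (fun k => x i - rm x i k)

/-- the diagonal matrix `D_i` -/
def Dm {e : ℕ} (x : Fin (e + 2) → ℂ) (i : Fin (e + 2)) : Matrix (Fin (e + 1)) (Fin (e + 1)) ℂ :=
  Matrix.diagonal (rm x i)

/-- the intertwiner `G_i` -/
def Gm {e : ℕ} (x c : Fin (e + 2) → ℂ) (i : Fin (e + 2)) : Matrix (Fin (e + 1)) (Fin (e + 1)) ℂ :=
  Matrix.of fun j k => (rm x i k - x i) * ((if j.succ = i.succAbove k then 1 else 0) - c j.succ)

/-- KPW-INT. Write `p = i.succAbove k` for the column `k`, `c' j = c (j+1)`, `D_0 = diagonal (x (j+1))` (as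
`rm x 0 j = x j.succ`), `b k = x i - x p`, `b0 j = x 0 - x (j+1)`. Sums over all of `Fin (e+2)` split off the index
`i` or `0` by `Fin.sum_univ_succAbove`, `Fin.sum_univ_succ`.
(1) `Gm * Ym_i = (D_0 c') bᵀ`: `∑_k (x p - x i)(δ(j+1,p) - c (j+1)) c p = (x (j+1) - x i) c (j+1) - c (j+1) ∑_p (x p - x i) c p`
(the first term is right also if `j + 1 = i`), and `∑ over all p of (x p - x i) c p = 0 - x i`: total `x (j+1) c (j+1)`.
(2) `Ym_0 * Gm = c' ((x i - x p) x p)ᵀ`: `∑_q (x 0 - x (q+1)) (x p - x i)(δ(q+1,p) - c (q+1)) =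
(x p - x i)((x 0 - x p) - x 0)` (the first term is right also if `p = 0`), as `∑_q (x 0 - x (q+1)) c (q+1) = x 0`.
(3) `D_0 * Gm - Gm * D_i = D_0 c' bᵀ - c' bᵀ D_i` entrywise: `(x (j+1) - x p)(x p - x i)(δ - c (j+1))`, the `δ` term
vanishes. Expanding both sides of the claim in powers of `z` with (1), (2) the claim is (3). -/
def T_INT : Prop := ∀ (e : ℕ) (x c : Fin (e + 2) → ℂ), ∑ k, c k = 1 → ∑ k, c k * x k = 0 →
  ∀ (i : Fin (e + 2)) (z : ℂ),
    Gm x c i * ((Ym x c i - z • 1) * (Dm x i - z • 1)) = ((Dm x 0 - z • 1) * (Ym x c 0 - z • 1)) * Gm x c i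

/-- KPW-IDT. If `Gm y = 0`, put `lam k = (rm x i k - x i) * y k`: `∑_k lam k (δ(q, i.succAbove k) - c q) = 0` for
`q = j + 1`, and for `q = 0` too since the sum over all `q` is zero (`∑ c = 1`). At `q = i`: `(∑ lam) c i = 0`, so
`∑ lam = 0`, then at `q = i.succAbove k`: `lam k = 0`, so `y k = 0` (`x` injective). Use
`Matrix.exists_mulVec_eq_zero_iff`. -/
def T_IDT : Prop := ∀ (e : ℕ) (x c : Fin (e + 2) → ℂ), ∑ k, c k = 1 → Function.Injective x →
  ∀ i : Fin (e + 2), c i ≠ 0 → (Gm x c i).det ≠ 0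

/-- KPW-NFM (uses T_INT, T_IDT, T_CNJ, T_DEN). If `c i ≠ 0`: T_CNJ with `G = Gm x c i` and T_INT for `z = w l`. If
`c i = 0` choose `p ≠ i` and the point `c1` supported on `{i, p}`, `c1 i = - x p/(x i - x p)`,
`c1 p = x i/(x i - x p)`: `∑ c1 = 1`, `∑ c1 x = 0`, `c1 i ≠ 0`. On the line `c + s (c1 - c)` the `i`-th coordinate is
`s c1 i`; T_DEN with the polynomial `X` gives the claim at `s = 0` (both sides are continuous in `s`). -/
def T_NFM : Prop := ∀ (e m N : ℕ) (w : Fin N → ℂ) (x c : Fin (e + 2) → ℂ), ∑ k, c k = 1 → ∑ k, c k * x k = 0 →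
  Function.Injective x → (∀ k, x k ≠ 0) → ∀ i : Fin (e + 2), ∀ φ ∈ Inv (e + 1) m N, ∀ v ∈ Inv (e + 1) m N,
    pr φ (act (fun l => (Ym x c i - w l • 1) * (Dm x i - w l • 1)) v) =
      pr φ (act (fun l => (Dm x 0 - w l • 1) * (Ym x c 0 - w l • 1)) v)

/-- complete homogeneous symmetric polynomial as coefficient of a power series -/
def hq {n : ℕ} (q : ℕ) (η : Fin n → ℂ) : ℂ :=
  PowerSeries.coeff q (∏ k, (PowerSeries.mk fun j => η k ^ j : PowerSeries ℂ))

/-- KPW-LPW. Multinomial theorem (`Finset.sum_pow_eq_sum_piAntidiag` or similar):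
`(∑ η k X k)^q = ∑_{|ν| = q} q!/∏ ν! η^ν X^ν`, `Lam` of it is `∑_{|ν|=q} q! η^ν t^(q+e)/(q+e)!`, and
`hq q η = ∑_{|ν|=q} η^ν` (`PowerSeries.coeff_prod`). -/
def T_LPW : Prop := ∀ (e q : ℕ) (t : ℂ) (η : Fin (e + 1) → ℂ),
  Lam e t ((∑ k, MvPolynomial.C (η k) * MvPolynomial.X k) ^ q) =
    (Nat.factorial q : ℂ) * t ^ (q + e) / (Nat.factorial (q + e) : ℂ) * hq q η

/-- KPW-LGR. Lagrange. If all `y k ≠ 0` put `lam k = x k / y k`; `x i y k - x k y i = y i y k (lam i - lam k)`; the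
`lam k` are distinct; the sum is `(∏ y)⁻¹ ∑_i lam i^e / ∏_{k ≠ i} (lam i - lam k)`
(`∏_{k≠i} y i y k = y i^e ∏ y`), and `∑_i lam i^e / ∏_{k ≠ i}(lam i - lam k)` is the coefficient of `X^(e+1)` in the
Lagrange interpolation polynomial (at `e + 2` points) of `X^e`, which is `X^e` itself: zero. (Mathlib:
`Lagrange.interpolate`, `Lagrange.sum_nodalWeight...`, `Lagrange.eq_interpolate`, or
`Lagrange.leadingCoeff_eq_sum`/`Lagrange.coeff_eq_sum`.) -/
def T_LGR : Prop := ∀ (e : ℕ) (x y : Fin (e + 2) → ℂ), (∀ k, y k ≠ 0) →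
  (∀ i k, i ≠ k → x i * y k - x k * y i ≠ 0) →
  ∑ i, x i ^ e / ∏ k, (x i * rm y i k - rm x i k * y i) = 0

/-- the numbers `E_{ik}`, `k` an index of `Fin (e+1)` -/
def En {e : ℕ} (x θ : Fin (e + 2) → ℂ) (i : Fin (e + 2)) (k : Fin (e + 1)) : ℂ :=
  (rm θ i k * x i - θ i * rm x i k) / (x i - rm x i k)

/-- KPW-HQZ (uses T_LGR). Let `E i p = (θ p x i - θ i x p)/(x i - x p)`, symmetric in `i ≠ p`, and
`A i = x i ^ e / ∏ k, (x i - rm x i k)`. For every `s ∈ ℂ` with `1 - s θ p ≠ 0` and `1 - s E i p ≠ 0` for all `i ≠ p`: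
`∑ i, A i ∏ k, (1 - s En i k)⁻¹ = ∑ i, x i^e/∏ k, (x i y_k - x_k y i)`, `y p = 1 - s θ p`, which is `0` by T_LGR
(`(x i - x p)(1 - s E i p) = x i y p - x p y i ≠ 0`). Multiply by `Q(s) = ∏_{i<p} (1 - s E i p)`: the polynomial
`R = ∑ i, A i ∏_{pairs not containing i} (1 - X E j p)` vanishes at all `s` outside a finite set, so `R = 0`. In
`ℂ[[s]]`: `Q * ∑ i, A i ∏ k, (mk (En i k)^j) = R = 0` because `(1 - s η)(∑ η^j s^j) = 1`; `Q ≠ 0` (constant
coefficient `1`), so `∑ i, A i ∏ k .. = 0`; take the coefficient of `s^q`. (Alternative: avoid unordered pairs by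
multiplying with the product over all ordered pairs.) -/
def T_HQZ : Prop := ∀ (e q : ℕ) (x θ : Fin (e + 2) → ℂ), Function.Injective x →
  ∑ i, x i ^ e / (∏ k, (x i - rm x i k)) * hq q (En x θ i) = 0

/-- KPW-POL. A linear form `K` on polynomials which kills all `(∑ θ p X p)^q` is zero: multinomial theorem,
`∑_{|ν|=q} (q!/∏ν!) θ^ν K(X^ν) = 0` for all `θ`; this is a polynomial in `θ` with all values zero, so all its
coefficients are zero (`MvPolynomial.funext`), `K(X^ν) = 0` for all `ν`. -/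
def T_POL : Prop := ∀ (n : ℕ) (K : MvPolynomial (Fin n) ℂ →ₗ[ℂ] ℂ),
  (∀ (q : ℕ) (θ : Fin n → ℂ), K ((∑ p, MvPolynomial.C (θ p) * MvPolynomial.X p) ^ q) = 0) → K = 0

/-- the linear forms `c^(i)_p` in `r`: `c_p = r_k/(x_i - x_p)` for `p = i.succAbove k`,
`c_i = - ∑ k, x_p r_k/(x_i (x_i - x_p))` -/
def cf {e : ℕ} (x : Fin (e + 2) → ℂ) (i : Fin (e + 2)) : Fin (e + 2) → MvPolynomial (Fin (e + 1)) ℂ :=
  i.insertNth (∑ k, MvPolynomial.C (- rm x i k / (x i * (x i - rm x i k))) * MvPolynomial.X k)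
    (fun k => MvPolynomial.C (1 / (x i - rm x i k)) * MvPolynomial.X k)

/-- KPW-KKK (uses T_LPW, T_HQZ, T_POL). The left side is a linear form in `P`; by T_POL take
`P = (∑ θ p X p)^q`: `aeval (cf x i) P = (∑ k, C (En x θ i k / x i) X k)^q` (`Fin.sum_univ_succAbove`:
`θ_p/(x_i - x_p) - θ_i x_p/(x_i (x_i - x_p)) = (θ_p x_i - θ_i x_p)/(x_i (x_i - x_p))`), T_LPW gives
`q! (x i)^(q+e)/(q+e)! hq q (En/x i)`, `hq q (η / x i) = hq q η / (x i)^q` (the coefficient of `s^q` scales), so the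
sum is `q!/(q+e)! ∑ i, x i ^ e/∏ k (..) hq q (En x θ i) = 0` by T_HQZ. -/
def T_KKK : Prop := ∀ (e : ℕ) (x : Fin (e + 2) → ℂ), Function.Injective x → (∀ k, x k ≠ 0) →
  ∀ P : MvPolynomial (Fin (e + 2)) ℂ,
    ∑ i, 1 / (∏ k, (x i - rm x i k)) * Lam e (x i) (MvPolynomial.aeval (cf x i) P) = 0

/-- KPW-VRM. `vdm x = ∏_{j<k} (x k - x j)` (`Matrix.det_vandermonde`); the factors containing `x i` are
`(x k - x i)` for `k > i`, `(x i - x k)` for `k < i`, so `vdm x = vdm (rm x i) (-1)^(e+1-i) ∏_{k≠i} (x i - x k)`.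
(Or: cofactor expansion; or move `i` to the front by `Fin.cycleRange` and use `Matrix.det_permute`.) -/
def T_VRM : Prop := ∀ (e : ℕ) (x : Fin (e + 2) → ℂ) (i : Fin (e + 2)),
  (-1 : ℂ) ^ (i : ℕ) * vdm (rm x i) * ∏ k, (x i - rm x i k) = (-1) ^ (e + 1) * vdm x

/-- KPW-HHX (uses T_LAM, T_NFM, T_LMH, T_KKK, T_BAL, T_DIA). `Φ c := pr φ (act (fun l => (Dm x 0 - w l)(Ym x c 0 - w l)) v)` is
a polynomial in `c`: `Φ c = eval c P`. For every `i`, `p_i` from T_LAM for `(φ, Tx w (rm x i) v)`, `t = x i`. For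
`r` with `∑ r = x i` put `c p = eval r (cf x i p)`: then `∑ c = 1`, `∑ c x = 0`, and `a k = c (i.succAbove k)`,
`b k = x i - rm x i k` satisfy `a k b k = r k`, `a bᵀ = Ym x c i`, so
`eval r p_i = pr φ (act ((Ym x c i - w l)(Dm x i - w l)) v) = Φ c = eval r (aeval (cf x i) P)` (T_NFM). T_LMH:
`Lam e (x i) p_i = Lam e (x i) (aeval (cf x i) P)`; sum with T_KKK. -/
def T_HHX : Prop := ∀ (e m N : ℕ) (w : Fin N → ℂ) (x : Fin (e + 2) → ℂ), Function.Injective x → (∀ k, x k ≠ 0) →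
  ∀ φ ∈ Inv (e + 1) m N, ∀ v ∈ Inv (e + 1) m N,
    ∑ i, 1 / (∏ k, (x i - rm x i k)) * pr φ (Fr w 0 (x i) (Tx w (rm x i) v)) = 0

/-- KPW-HHH (uses T_HHX, T_VRM, T_DEN, T_FIN). WLOG `u = 0` (T_FIN: shift `w` and `x` by `u`; `vdm` is shift
invariant by `Matrix.det_vandermonde`). If `x` is injective with nonzero coordinates: multiply T_HHX by
`(-1)^(e+1) vdm x` and use T_VRM. In general replace `x k` by `x k + s (k + 1)`: the polynomial
`∏_{i<k} (x k - x i + s (k - i)) ∏_k (x k + s (k+1))` in `s` is not zero, T_DEN at `s = 0` (both sides continuous). -/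
def T_HHH : Prop := ∀ (e m N : ℕ) (w : Fin N → ℂ) (u : ℂ) (x : Fin (e + 2) → ℂ),
  ∀ φ ∈ Inv (e + 1) m N, ∀ v ∈ Inv (e + 1) m N,
    ∑ i : Fin (e + 2), (-1 : ℂ) ^ (i : ℕ) * vdm (rm x i) * pr φ (Fr w u (x i) (Tx w (rm x i) v)) = 0

end

end Pool.Agent.KPW
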