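import Pool.Agent.KPW.Targets

set_option autoImplicit false

/-!
# KPW targets, steps (6) to (8) of ideas row 1737 (MP_0c25eb_ag, project SEC), by helper49

Every target has its complete proof in the docstring. Uses lists the targets that may be taken as hypotheses (any
other target may be taken too, as long as no circle arises). `N = (e + 1) * m` where the number of slots matters.
Main results: `T_CMP` (for EVERY `c` there is a joint eigenvector), `T_REA` (real roots give real coefficients),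
`T_SD0` (disconjugacy with multiplicities).
-/

open scoped BigOperators
open Filter Topology

namespace Pool.Agent.KPW

noncomputable section

/-- joint eigenvector of all the row operators -/
def JE {e N : ℕ} (m : ℕ) (w : Fin N → ℂ) (v : Tn (e + 1) N) : Prop :=
  v ∈ Inv (e + 1) m N ∧ v ≠ 0 ∧ ∀ u x : ℂ, ∃ lam : ℂ, Fr w u x v = lam • v

/-- Wronskian of `n` polynomials -/
def WrN {n : ℕ} (g : Fin n → Polynomial ℂ) : Polynomial ℂ :=
  Matrix.det (Matrix.of fun a b : Fin n => Polynomial.derivative^[(b : ℕ)] (g a))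

/-- `det g_a(x_b)` -/
def dG {n : ℕ} (g : Fin n → Polynomial ℂ) (x : Fin n → ℂ) : ℂ :=
  Matrix.det (Matrix.of fun a b : Fin n => (g a).eval (x b))

/-- the eigenvalue of `Fr w u x` on the vector of `V_c`: the determinant with the columns
`f_a(u), f_a'(u), .., f_a^(e-1)(u), f_a(x)`, divided by `prod k!` -/
def lm {e m : ℕ} (c : Fin (e + 1) → Fin m → ℂ) (u x : ℂ) : ℂ :=
  Matrix.det (Matrix.of fun a b : Fin (e + 1) =>
    if b = Fin.last e then (fp c a).eval x else (Polynomial.derivative^[(b : ℕ)] (fp c a)).eval u) /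
    ∏ a : Fin (e + 1), (Nat.factorial (a : ℕ) : ℂ)

/-- divided differences: `dq y f k` is `f` divided `k` times by `X - y 0, X - y 1, ..` -/
def dq (y : ℕ → ℂ) (f : Polynomial ℂ) : ℕ → Polynomial ℂ
  | 0 => f
  | k + 1 => (dq y f k) /ₘ (Polynomial.X - Polynomial.C (y k))

/-- extension of a finite sequence -/
def ext {e : ℕ} (x : Fin (e + 1) → ℂ) : ℕ → ℂ := fun k => if h : k < e + 1 then x ⟨k, h⟩ else 0

/-- `W_c(x) = det f_a(x_b) / Vdm(x)` for all `x`, repetitions allowed: determinant of divided differences -/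
def Wx {e m : ℕ} (c : Fin (e + 1) → Fin m → ℂ) (x : Fin (e + 1) → ℂ) : ℂ :=
  Matrix.det (Matrix.of fun a b : Fin (e + 1) => (dq (ext x) (fp c a) b).eval (x b))

/-- complex conjugate of a tensor -/
def cj {d N : ℕ} (v : Tn d N) : Tn d N := fun i => star (v i)

/-! ## (6) From the joint eigenvector to `c` -/

/-- KPW-CVN. Common eigenvector of commuting endomorphisms. Induction on the dimension. If every `A i` is a scalar
take any `v ≠ 0`. Otherwise some `A i` is not a scalar; it has an eigenvalue `μ` (`Module.End.exists_eigenvalue`),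
the eigenspace is not everything, it is invariant under every `A j` (commutation); restrict. (Strong induction on
`finrank`, for all `E` in `Type`.) -/
def T_CVN : Prop := ∀ (E : Type) [AddCommGroup E] [Module ℂ E] [FiniteDimensional ℂ E] [Nontrivial E]
  (I : Type) (A : I → Module.End ℂ E), (∀ i j, A i * A j = A j * A i) →
    ∃ v : E, v ≠ 0 ∧ ∀ i, ∃ lam : ℂ, A i v = lam • v

/-- KPW-JEV (uses T_CVN, T_EXI, T_CFF, T_FIN). The operators `Fr w u x` restricted to `Inv` (T_FIN (1),(2),(4)) commute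
(T_CFF) and `Inv ≠ 0` (T_EXI). Index type `ℂ × ℂ`. -/
def T_JEV : Prop := ∀ (e m : ℕ) (w : Fin ((e + 1) * m) → ℂ), ∃ v : Tn (e + 1) ((e + 1) * m), JE m w v

/-- KPW-PSI (uses T_TWO, T_COM, T_HHH, T_CJI, T_FIN, T_BAL). Let `v0 = cj v`, `κ = pr v0 v ≠ 0` (T_CJI) and
`om x u = pr v0 (Tx w (pt x u) v)`, a polynomial in `x` and `u`:
`om x u = ∑ i, v0 i * v i * ∏_{i l = 0} (x - w l) * ∏_{i l ≠ 0} (u - w l)`, for balanced `i` exactly `m` factors of the
first kind and `e m` of the second (`N = (e+1) m`). EIGENVALUE: if `Fr w u x v = lam • v` then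
`lam κ = pr v0 (Fr w u x v) = (x-u)^e/e! om x u` (T_TWO). WEDGE: for `φ ∈ Inv`:
`pr φ (Fr w u (x i) (Tx w y v)) = pr φ (Tx w y (Fr w u (x i) v)) = lam * pr φ (Tx w y v)` (T_COM), so T_HHH
multiplied by `κ e!` gives `∑ i, (-1)^i (x i - u)^e om (x i) u * (vdm (rm x i) * pr φ (Tx w (rm x i) v)) = 0` for all
`u`. The left side is a polynomial in `u`, so all its coefficients vanish. Let `ψ k ∈ ℂ[x]` be the coefficient of
`u^(e(m+1)-k)` in (x-u)^e om x u = ∑_j C(e,j) x^j (-u)^(e-j) om x u`: it is `∑_{j ≤ k} C(e,j)(-1)^(e-j) x^j` times the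
coefficient of `u^(em-(k-j))` in `om`, which has degree `≤ m` in `x` and for `k = j` it is `κ x^m +` lower. So
`ψ k` has degree exactly `m + k`. (Work in `Polynomial (Polynomial ℂ)`, outer variable `u`, or with
`Polynomial.coeff` of explicit products.) -/
def T_PSI : Prop := ∀ (e m : ℕ) (w : Fin ((e + 1) * m) → ℂ) (v : Tn (e + 1) ((e + 1) * m)), JE m w v →
  ∃ ψ : Fin (e + 1) → Polynomial ℂ,
    (∀ k, ψ k ≠ 0 ∧ (ψ k).natDegree = m + (k : ℕ)) ∧
    ∀ k, ∀ φ ∈ Inv (e + 1) m ((e + 1) * m), ∀ x : Fin (e + 2) → ℂ,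
      ∑ i : Fin (e + 2), (-1 : ℂ) ^ (i : ℕ) * (ψ k).eval (x i) *
        (vdm (rm x i) * pr φ (Tx w (rm x i) v)) = 0

/-- KPW-TRI. Triangular elimination. By strong induction on `a` the span `S` of `ψ 0, .., ψ a` contains `fp c a` for
suitable `c a`: subtract from `ψ a / leadingCoeff` the multiples of the previous `fp c k` which kill the
coefficients of `X^(m+k)`, `k < a`. -/
def T_TRI : Prop := ∀ (e m : ℕ) (ψ : Fin (e + 1) → Polynomial ℂ), (∀ k, ψ k ≠ 0 ∧ (ψ k).natDegree = m + (k : ℕ)) →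
  ∃ c : Fin (e + 1) → Fin m → ℂ, ∀ a, ∃ β : Fin (e + 1) → ℂ, fp c a = ∑ k, Polynomial.C (β k) * ψ k

/-- KPW-CRM. Cramer. Apply the hypothesis to the point (x, y 0, .., y e)` (`Fin.cons x y`). The term `i = 0` is
`g a x * Ψ y`; the term `i = k + 1` is (-1)^(k+1) g a (y k) Ψ(x, y without y k)`, and
`Ψ (x, y without y k) = (-1)^k Ψ (Function.update y k x)` (a cycle of length `k + 1`; `Fin.cycleRange`, its sign is
`Fin.sign_cycleRange`). So `∑ k, g a (y k) * Ψ (update y k x) = g a x * Ψ y` for all `a`: with `Γ a k = g a (y k)` and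
`X k = Ψ (update y k x)`: `Γ *ᵥ X = Ψ y • (g · x)`. Multiply by the adjugate:
`det Γ * X b = Ψ y * det (Γ with column b replaced by g · x)` (`Matrix.cramer_apply`,
`Matrix.cramer_eq_adjugate_mulVec`), which is the claim. -/
def T_CRM : Prop := ∀ (e : ℕ) (g : Fin (e + 1) → ℂ → ℂ) (Ψ : (Fin (e + 1) → ℂ) → ℂ),
  (∀ (σ : Equiv.Perm (Fin (e + 1))) (y : Fin (e + 1) → ℂ), Ψ (y ∘ σ) = ((Equiv.Perm.sign σ : ℤ) : ℂ) * Ψ y) →
  (∀ (a : Fin (e + 1)) (x : Fin (e + 2) → ℂ), ∑ i : Fin (e + 2), (-1 : ℂ) ^ (i : ℕ) * g a (x i) * Ψ (rm x i) = 0) →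
  ∀ (y : Fin (e + 1) → ℂ) (b : Fin (e + 1)) (x : ℂ),
    Matrix.det (Matrix.of fun a k => g a (y k)) * Ψ (Function.update y b x) =
      Matrix.det (Matrix.of fun a k => g a (Function.update y b x k)) * Ψ y

/-- KPW-GLO (uses T_DEN). Put `s = Ψ y0 / dt c y0`. By induction on `j ≤ e + 1`: `Ψ y = s * dt c y` for all `y` with
`y k = y0 k` for all `k ≥ j`. Step: `y` with `y k = y0 k` for `k ≥ j + 1`, `b = j`; let `y'' = update y b (y0 b)`,
`x = y b`, so `update y'' b x = y`. The hypothesis gives `dt c y'' * Ψ y = dt c y * Ψ y'' = s * dt c y * dt c y''`, so the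
claim holds if `dt c y'' ≠ 0`. In general replace `y` by `z t = y0 + t (y - y0)` (it has the same property, `z 1 = y`):
`dt c (update (z t) b (y0 b))` is a polynomial in `t`, not zero at `t = 0`; by T_DEN (or: a nonzero polynomial has
finitely many zeros and both sides are continuous in `t`) the claim holds at `t = 1`. -/
def T_GLO : Prop := ∀ (e m : ℕ) (c : Fin (e + 1) → Fin m → ℂ) (Ψ : (Fin (e + 1) → ℂ) → ℂ), Continuous Ψ →
  (∀ (y : Fin (e + 1) → ℂ) (b : Fin (e + 1)) (x : ℂ),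
    dt c y * Ψ (Function.update y b x) = dt c (Function.update y b x) * Ψ y) →
  ∀ y0 : Fin (e + 1) → ℂ, dt c y0 ≠ 0 → ∀ y, dt c y0 * Ψ y = Ψ y0 * dt c y

/-- KPW-LIM. Divide the row `a` of the matrix `f_a(R η_k)` by `R^(m+a)`: the entry is
`η_k^(m+a) + ∑_l c a l η_k^l R^(l-m-a) → η_k^(m+a)`. The determinant is continuous, and
`det (η_k^(m+a)) = (∏ η_k)^m det(η_k^a) = (∏ η_k)^m vdm η` (transpose of the Vandermonde matrix). The product of the
`R^(m+a)` is `R^(∑ a, (m+a))`. (`Matrix.det_mul_column`/`Matrix.det_mul_row` or `Matrix.det_diagonal`.) -/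
def T_LIM : Prop := ∀ (e m : ℕ) (c : Fin (e + 1) → Fin m → ℂ) (η : Fin (e + 1) → ℂ),
  Tendsto (fun R : ℝ => dt c (fun k => (R : ℂ) * η k) / (R : ℂ) ^ (∑ a : Fin (e + 1), (m + (a : ℕ)))) atTop
    (𝓝 ((∏ k, η k) ^ m * vdm η))

/-- KPW-LTX. For a balanced `i`: `∏ l, (R η (i l) - w l)/R^N → ∏ l, η (i l) = (∏ k, η k)^m`. For the others
`φ i * v i = 0`. Also `vdm (R η) = R^(∑ a) vdm η`. -/
def T_LTX : Prop := ∀ (e m : ℕ) (w : Fin ((e + 1) * m) → ℂ) (η : Fin (e + 1) → ℂ)
  (φ v : Tn (e + 1) ((e + 1) * m)), BalT m v →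
  Tendsto (fun R : ℝ => pr φ (Tx w (fun k => (R : ℂ) * η k) v) / (R : ℂ) ^ ((e + 1) * m)) atTop
    (𝓝 ((∏ k, η k) ^ m * pr φ v)) ∧
  ∀ R : ℂ, vdm (fun k => R * η k) = R ^ (∑ a : Fin (e + 1), (a : ℕ)) * vdm η

/-- KPW-CFL. Confluent limit. `g_a(u + s b) = ∑_k G a k s^k b^k`, `G a k` = the `k`-th coefficient of
`Polynomial.taylor u (g a)` (`k! G a k = g_a^(k)(u)`). Let `B k b = b^k`, `k, b < n`, invertible (Vandermonde with distinct
nodes). The matrix (g_a(u + s b))_{a,b} * B⁻¹` has the entry `G a j s^j + ∑_{k ≥ n} G a k s^k β k j`, so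
`det (g_a(u+sb)) = det B * ∏_j s^j * det (G a j + O(s))`, and `vdm (u + s b) = ∏_j s^j * det B`. The quotient tends to
`det (G a j)_{j<n} = (WrN g).eval u / ∏ j!`. (Equivalently: `WrN g` evaluated at `u` is `det (j! G a j)`.) -/
def T_CFL : Prop := ∀ (n : ℕ) (g : Fin n → Polynomial ℂ) (u : ℂ),
  Tendsto (fun s : ℝ => dG g (fun b => u + (s : ℂ) * ((b : ℕ) : ℂ)) / vdm (fun b : Fin n => u + (s : ℂ) * ((b : ℕ) : ℂ)))
    (𝓝[≠] 0) (𝓝 ((WrN g).eval u / ∏ a : Fin n, (Nat.factorial (a : ℕ) : ℂ)))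

/-- KPW-EVC (uses T_PSI, T_TRI, T_CRM, T_GLO, T_LIM, T_LTX, T_SYM, T_BAL). `ψ` from T_PSI, `c` from T_TRI. The functions
`g_a = fp c a` satisfy the wedge condition of T_PSI (linear combinations of the `ψ k`) with
`Ψ y = vdm y * pr φ (Tx w y v)`, which is alternating (`vdm` alternating: `Matrix.det_permute`; T_SYM). T_CRM gives
the hypothesis of T_GLO. With `η k = k + 1` T_LIM shows that `dt c (R η) ≠ 0` for large `R`, so `Ψ y = s * dt c y` for
all `y` with one constant `s`. Divide by `R^(∑ (m + a)) = R^(∑ a) R^N` at `y = R η` and let `R → ∞`: T_LTX and T_LIM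
give `vdm η (∏ η)^m pr φ v = s (∏ η)^m vdm η`, so `s = pr φ v`. -/
def T_EVC : Prop := ∀ (e m : ℕ) (w : Fin ((e + 1) * m) → ℂ) (v : Tn (e + 1) ((e + 1) * m)), JE m w v →
  ∃ c : Fin (e + 1) → Fin m → ℂ, Eig c w v

/-- KPW-RTS (uses T_CFL, T_CJI). `φ = cj v`. At `y_b = u + s b`: `vdm y * pr φ (Tx w y v) = dt c y * pr φ v`, divide by
`vdm y ≠ 0` and let `s → 0`: the left side tends to `pr φ (Tx w (u..u) v) = ∏ l, (u - w l) * pr φ v` (continuity),
the right side to (Wp c).eval u / ∏ a! * pr φ v` by T_CFL (`dt c = dG (fp c)`, `Wp c = WrN (fp c)` by definition).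
So the two polynomials agree at all `u` (`Polynomial.funext`). -/
def T_RTS : Prop := ∀ (e m : ℕ) (w : Fin ((e + 1) * m) → ℂ) (v : Tn (e + 1) ((e + 1) * m))
  (c : Fin (e + 1) → Fin m → ℂ), Eig c w v → Rt c w

/-- KPW-LMC (uses T_CFL, T_TWO, T_CJI, T_FIN). By nondegeneracy (T_CJI, `Fr w u x v ∈ Inv`) it is enough to compare
`pr φ`. T_TWO: `pr φ (Fr w u x v) = (x-u)^e/e! pr φ (Tx w (pt x u) v)`. Take `y_0 = x`, `y_{k+1} = u + s k`, `k < e`, and
`z_k = u + s k` (`Fin e`): `vdm y = vdm z * ∏_{k<e} (z_k - x)` (expand `Matrix.det_vandermonde`), and by expansion of the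
determinant along the column `0`, `dt c y = ∑ a, (-1)^a f_a(x) dG (f without f_a) z`. Divide `Eig` by `vdm z`
(`s ≠ 0`) and let `s → 0` (T_CFL for `n = e`): (u-x)^e pr φ (Tx w (pt x u) v) = ∑ a, (-1)^a f_a(x)
WrN(f without f_a)(u) / ∏_{k<e} k! * pr φ v`. The expansion of the determinant in `lm` along its last column is
`∑ a, (-1)^(a+e) f_a(x) WrN(f without f_a)(u)`. So (x-u)^e/e! pr φ (Tx ..) = lm c u x * pr φ v`. -/
def T_LMC : Prop := ∀ (e m : ℕ) (w : Fin ((e + 1) * m) → ℂ) (v : Tn (e + 1) ((e + 1) * m))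
  (c : Fin (e + 1) → Fin m → ℂ), Eig c w v → ∀ u x : ℂ, Fr w u x v = lm c u x • v

/-! ## (7) Completeness: every `c` has a joint eigenvector -/

/-- KPW-KAP. Suppose `β ≠ 0` and let `a0` be the smallest index with `β a0 ≠ 0`. For real `u = R → ∞` divide the row
`a` by `R^(m+a)`, multiply the column `b < e` by `R^b` and the last column by `R^(m+a0)`: the entries tend to
(m+a)(m+a-1)..(m+a-b+1) = (m+a).descFactorial b` for `b < e`, and to `β a0` (row `a0`) resp. `0` in the last column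
(rows `a < a0` have `β a = 0`). The limit determinant is `± β a0 det ((m+a).descFactorial b)_{a ≠ a0, b < e}`, which
is not zero: `descFactorial b` is a monic polynomial of degree `b` in `m + a`, so it is the Vandermonde determinant
of the distinct numbers `m + a` (`Matrix.det_eval_matrixOfPolynomials_eq_det_vandermonde` with `descPochhammer`). -/
def T_KAP : Prop := ∀ (e m : ℕ) (c : Fin (e + 1) → Fin m → ℂ) (β : Fin (e + 1) → ℂ),
  (∀ u : ℂ, Matrix.det (Matrix.of fun a b : Fin (e + 1) =>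
    if b = Fin.last e then β a else (Polynomial.derivative^[(b : ℕ)] (fp c a)).eval u) = 0) → β = 0

/-- KPW-LMU (uses T_KAP). Let `ℓ` be a linear functional on `Polynomial ℂ` that vanishes on the span `V'` of the
`fp c' a`. Expanding along the last column, `lm c u x` is a linear combination of the `f_a(x)`, so
`∑_a κ_a(u) f_a = ∑_a κ'_a(u) f'_a` as polynomials in `x` and applying `ℓ`: the determinant with last column
`β a = ℓ (f_a)` vanishes for all `u`, so `ℓ (f_a) = 0` (T_KAP). Hence `fp c a ∈ V'` for all `a` (a subspace of a vector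
space is the intersection of the kernels of the functionals vanishing on it: `Submodule.exists_le_ker_of_notMem`
or `Subspace.forall_mem_dualAnnihilator_apply_eq_zero_iff`). Write `fp c a = ∑ β_k fp c' k` and compare the
coefficients of `X^(m+k)`: `β_k = δ`, so `fp c a = fp c' a`, `c = c'` (coefficients of `X^l`, `l < m`). -/
def T_LMU : Prop := ∀ (e m : ℕ) (c c' : Fin (e + 1) → Fin m → ℂ), (∀ u x : ℂ, lm c u x = lm c' u x) → c = c'

/-- KPW-FPM. Slot permutations: `pm σ (pm τ v) = pm (σ * τ) v`, and `σ * τ * σ⁻¹` runs over the permutations of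
`B.map σ` when `τ` runs over those of `B`; reindex `B ↦ B.map σ` in `Fr`. (1) `Inv` is stable (T_DIA (3)). (2) the
formula for `Fr`. (3) `pr (pm σ φ) (pm σ v) = pr φ v`. -/
def T_FPM : Prop := ∀ (e m N : ℕ) (σ : Equiv.Perm (Fin N)) (w : Fin N → ℂ) (φ v : Tn (e + 1) N),
  (v ∈ Inv (e + 1) m N → pm σ v ∈ Inv (e + 1) m N) ∧
  (∀ u x : ℂ, pm σ (Fr w u x v) = Fr (w ∘ σ.symm) u x (pm σ v)) ∧ pr (pm σ φ) (pm σ v) = pr φ v

/-- KPW-SMP. Fundamental theorem of symmetric polynomials, in the form needed: `R` a commutative `ℂ`-algebra domain is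
not needed, take coefficients in a commutative ring `R`. Mathlib: `MvPolynomial.esymmAlgEquiv`
((Fintype.card σ = n)`), or `MvPolynomial.mem_symmetricSubalgebra` and surjectivity of `esymmAlgHom`. -/
def T_SMP : Prop := ∀ (R : Type) [CommRing R] (N : ℕ) (p : MvPolynomial (Fin N) R),
  (∀ σ : Equiv.Perm (Fin N), MvPolynomial.rename σ p = p) →
  ∃ q : MvPolynomial (Fin N) R, p = MvPolynomial.aeval (fun i : Fin N => MvPolynomial.esymm (Fin N) R (i + 1)) q

/-- KPW-HPL (uses T_FPM, T_SMP, T_FIN, T_CJI). Let `b_1, .., b_r` be a basis of `Inv (e+1) m N`, `N = (e+1) m` (finite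
dimensional, a subspace of functions on a finite type), `Q = (pr b_i b_j)`: invertible (T_CJI (3): `v` in the
kernel is orthogonal to all of `Inv`). Consider
`H(c, w) = det (∑_t y_t (pr b_i (Fr w u_t x_t b_j) - lm c u_t x_t * Q_ij))`. The matrix is `Q` times the matrix of the
endomorphism `∑_t y_t (Fr w u_t x_t - lm)` of `Inv`, so `H = 0` iff there is `v ≠ 0` in `Inv` with
`∑ y_t (Fr .. v - lm • v) = 0`. `H` is a polynomial in `w` with coefficients in `R = MvPolynomial (Fin (e+1) × Fin m) ℂ`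
(`lm c u x` is a polynomial in `c`: the determinant of a matrix of polynomials in `c`). Invariance under `w ↦ w ∘ σ`:
by T_FPM `pm σ` is an automorphism `P` of `Inv` which preserves `pr` and carries the form of `w` to that of
`w ∘ σ⁻¹`; the Gram matrices are `Pᵀ (..) P` and `Q = Pᵀ Q P`, so (det P)^2 = 1`. T_SMP: `H = q(e_1(w), .., e_N(w))`.
If `Rt c w` then (∏ a!) (-1)^k e_k(w)` is the coefficient of `X^(N-k)` in `Wp c` (Vieta:
`Multiset.prod_X_sub_C_coeff`-like, `Finset.prod_X_sub_C..`), a polynomial in `c`. Substituting gives `F`. -/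
def T_HPL : Prop := ∀ (e m K : ℕ) (u x y : Fin K → ℂ), ∃ F : MvPolynomial (Fin (e + 1) × Fin m) ℂ,
  ∀ (c : Fin (e + 1) → Fin m → ℂ) (w : Fin ((e + 1) * m) → ℂ), Rt c w →
    (MvPolynomial.eval (fun p => c p.1 p.2) F = 0 ↔
      ∃ v ∈ Inv (e + 1) m ((e + 1) * m), v ≠ 0 ∧
        ∑ t, y t • (Fr w (u t) (x t) v - lm c (u t) (x t) • v) = 0)

/-- KPW-NUL. A polynomial map cannot carry a hypersurface onto everything. `n` = number of variables; the `n + 1`
polynomials `F, P i` in `n` variables are algebraically dependent (`MvPolynomial` has transcendence degree `n`: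
`AlgebraicIndependent.cardinalMk_le_trdeg`-like lemmas with `MvPolynomial.trdeg_of_isDomain`, index `Option ι`). Take
`A ≠ 0` in `MvPolynomial (Option ι) ℂ` with `A(F, P) = 0` of least total degree (or least degree in the variable
`none`): `X none` does not divide `A`, since `A = X none * A'` gives `F * A'(F, P) = 0`, so `A'(F, P) = 0` (domain,
`F ≠ 0`). So `A` with `X none := 0` is a nonzero polynomial in the variables `ι`; take `t` where it does not vanish
(`MvPolynomial.funext`). If `P i` has the value `t i` at `c` and `F` the value `0` then `A(0, t) = 0`: contradiction.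
(Alternative: measure theory, the zero set of `F` is null and `C^1` images of null sets are null.) -/
def T_NUL : Prop := ∀ (ι : Type) [Fintype ι] [DecidableEq ι] (F : MvPolynomial ι ℂ) (P : ι → MvPolynomial ι ℂ), F ≠ 0 →
  ∃ t : ι → ℂ, ∀ c : ι → ℂ, (∀ i, MvPolynomial.eval c (P i) = t i) → MvPolynomial.eval c F ≠ 0

/-- KPW-LAC. Commuting endomorphisms all of whose linear combinations are singular have a common kernel vector.
`Module.End.iSup_iInf_maxGenEigenspace_eq_top_of_forall_mapsTo` / `.._of_commute`: `E` is the sum of the spaces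
`E_χ = ⨅ i, maxGenEigenspace (A i) (χ i)`, `χ : Fin K → ℂ`; finitely many `χ` have `E_χ ≠ 0` (independence,
`Module.End.independent_iInf_maxGenEigenspace_of_forall_mapsTo`). If `E_0 = 0` choose `y` with `∑ y_i χ_i ≠ 0` for these
finitely many `χ ≠ 0` (a vector space over an infinite field is not a finite union of proper subspaces). On
`E_χ` the operator `∑ y_i A_i` has the only eigenvalue `∑ y_i χ_i ≠ 0`, so it is injective there and (the sum being
direct and the `E_χ` invariant) on `E`: contradiction. So `E_0 ≠ 0`, the `A i` restricted to `E_0` are nilpotent and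
commute: a common eigenvector (T_CVN) has eigenvalues `0`. -/
def T_LAC : Prop := ∀ (E : Type) [AddCommGroup E] [Module ℂ E] [FiniteDimensional ℂ E]
  (K : ℕ) (A : Fin K → Module.End ℂ E), (∀ i j, A i * A j = A j * A i) →
    (∀ y : Fin K → ℂ, ∃ v : E, v ≠ 0 ∧ ∑ i, y i • A i v = 0) → ∃ v : E, v ≠ 0 ∧ ∀ i, A i v = 0

/-- KPW-CMG (uses T_HPL, T_NUL, T_LAC, T_JEV, T_EVC, T_RTS, T_LMC, T_CFF, T_FIN). For every `y` let `F` be as in T_HPL. CLAIM
`F = 0`. Otherwise T_NUL with `ι = Fin (e+1) × Fin m ≃ Fin N` and `P i` = the polynomial in `c` whose value is the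
coefficient of `X^(number of i)` in `Wp c`, divided by `∏ a!`, gives `t`. The monic polynomial
`X^N + ∑ t_i X^i` has roots `w` (`IsAlgClosed.splits`, list of its roots as a function on `Fin N`). T_JEV, T_EVC, T_RTS:
`v`, `c'` with `Eig c' w v`, `Rt c' w`, so `P i` has the value `t i` at `c'` and `F(c') ≠ 0`; but `v` shows `F(c') = 0`
(T_HPL and T_LMC). So `F = 0`, and for the given `c`, `w`: for all `y` there is `v ≠ 0` in `Inv` with
`∑ y_t (Fr .. v - lm c .. v) = 0`. T_LAC on `E = Inv` (T_CFF, T_FIN). -/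
def T_CMG : Prop := ∀ (e m : ℕ) (c : Fin (e + 1) → Fin m → ℂ) (w : Fin ((e + 1) * m) → ℂ), Rt c w →
  ∀ (K : ℕ) (u x : Fin K → ℂ), ∃ v ∈ Inv (e + 1) m ((e + 1) * m), v ≠ 0 ∧
    ∀ t, Fr w (u t) (x t) v = lm c (u t) (x t) • v

/-- KPW-CMP (uses T_CMG, T_EVC, T_LMC, T_LMU, T_FIN). For a finite set (or list) of points let `E` be the space of the
`v ∈ Inv` with `Fr w u x v = lm c u x • v` at these points; it is not zero by T_CMG. Take a finite set for which the
dimension of `E` is least: adding one more point does not change `E`. So every `v ∈ E` satisfies the equation at all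
points. Take `v ≠ 0` in `E`: `JE m w v`; T_EVC: `Eig c' w v`; T_LMC: `lm c' u x • v = Fr w u x v = lm c u x • v`, so
`lm c = lm c'`, and `c = c'` by T_LMU. -/
def T_CMP : Prop := ∀ (e m : ℕ) (c : Fin (e + 1) → Fin m → ℂ) (w : Fin ((e + 1) * m) → ℂ), Rt c w →
  ∃ v : Tn (e + 1) ((e + 1) * m), Eig c w v

/-- KPW-RTE. Existence of the roots: `Wp c` has degree `N = (e+1) m` and leading coefficient `∏ a!`. PROOF: by T_CFL
and T_LIM-like scaling, or directly: the determinant `∑_σ sign σ ∏_b (f_{σ b})^(b)` has degree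
`≤ ∑ (m + σ b - b) = N`, and the coefficient of `X^N` is `∑_σ sign σ ∏_b (m + σ b).descFactorial b`
`= det ((m+a).descFactorial b) = vdm (m + a) = ∏ a!` (`Matrix.det_eval_matrixOfPolynomials_eq_det_vandermonde`,
`Matrix.det_vandermonde_id_eq_superFactorial`, translation invariance). (Columns `b > m + a` are zero, consistent with
truncated subtraction: `natDegree (derivative^[b] f) + b ≤ natDegree f` if it is not zero.) Then `IsAlgClosed.splits`. -/
def T_RTE : Prop := ∀ (e m : ℕ) (c : Fin (e + 1) → Fin m → ℂ), ∃ w : Fin ((e + 1) * m) → ℂ, Rt c w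

/-! ## (8) Repeated points, reality, disconjugacy -/

/-- KPW-WXV. Newton interpolation: for `b ≤ e`, `f(x_b) = ∑_{k ≤ b} (dq x f k)(x_k) ∏_{j<k} (x_b - x_j)`, because
`dq k = C (dq k (x_k)) + (X - C x_k) * dq (k+1)` (`Polynomial.modByMonic_X_sub_C_eq_C_eval`,
`Polynomial.modByMonic_add_div`). So the matrix (f_a(x_b))` is the matrix of `Wx` times the upper triangular matrix
(∏_{j<k} (x_b - x_j))_{k,b}`, whose determinant is `∏_b ∏_{j<b} (x_b - x_j) = vdm x`
(`Matrix.det_vandermonde`). -/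
def T_WXV : Prop := ∀ (e m : ℕ) (c : Fin (e + 1) → Fin m → ℂ) (x : Fin (e + 1) → ℂ), vdm x * Wx c x = dt c x

/-- KPW-WXC. Continuity of (c, x) ↦ Wx c x`. The coefficients of `f /ₘ (X - C a)` are
`∑_{i > j} f_i a^(i-j-1)` (e.g. by `Polynomial.divByMonic`/`divX` lemmas, or prove by induction on the degree that the
polynomial `∑_j (∑_{i>j} f_i a^(i-j-1)) X^j` satisfies `f = C (f a) + (X - C a) q` and use uniqueness
`Polynomial.div_modByMonic_unique`). So by induction on `k` all coefficients of `dq (ext x) (fp c a) k` are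
continuous in (c, x)` (the degree stays `≤ m + a`), also the values, and the determinant. -/
def T_WXC : Prop := ∀ (e m : ℕ),
  Continuous (fun p : (Fin (e + 1) → Fin m → ℂ) × (Fin (e + 1) → ℂ) => Wx p.1 p.2)

/-- KPW-WXZ. If a nonzero combination of the `f_a` is divisible by `∏ (X - x_b)` then `Wx c x = 0`. For
`f = h * ∏_b (X - C (x b))`: `dq (ext x) f k = h * ∏_{b ≥ k} (X - C (x b))` for `k ≤ e + 1` (induction:
`Polynomial.mul_divByMonic_cancel_left`), so (dq .. f b).eval (x b) = 0` for all `b`; `dq` is linear in `f`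
(`Polynomial.add_divByMonic`, `smul_divByMonic`), so the rows of the matrix are linearly dependent
(`Matrix.exists_vecMul_eq_zero_iff`). -/
def T_WXZ : Prop := ∀ (e m : ℕ) (c : Fin (e + 1) → Fin m → ℂ) (x : Fin (e + 1) → ℂ) (β : Fin (e + 1) → ℂ), β ≠ 0 →
  (∏ b, (Polynomial.X - Polynomial.C (x b))) ∣ (∑ a, Polynomial.C (β a) * fp c a) → Wx c x = 0

/-- KPW-EGX (uses T_WXV, T_WXC, T_DEN). If `x` is injective divide `Eig` by `vdm x ≠ 0`. In general replace `x k` by
`x k + s k`: `vdm` of it is a nonzero polynomial in `s` (it is `∏_{i<k} (x k - x i + s (k - i))`), both sides are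
continuous in `s`, T_DEN (or density of the complement of a finite set) at `s = 0`. -/
def T_EGX : Prop := ∀ (e m : ℕ) (c : Fin (e + 1) → Fin m → ℂ) (w : Fin ((e + 1) * m) → ℂ)
  (v : Tn (e + 1) ((e + 1) * m)), Eig c w v → ∀ φ ∈ Inv (e + 1) m ((e + 1) * m), ∀ x : Fin (e + 1) → ℂ,
    pr φ (Tx w x v) = Wx c x * pr φ v

/-- KPW-REV (uses T_EGX, T_CJI). `φ = cj v ∈ Inv`: `Wx c x * ∑ |v i|^2 = ∑ |v i|^2 ∏ l, (x (i l) - w l)`, and
`∑ |v i|^2 > 0`. So there are weights `μ i ≥ 0`, `∑ μ = 1` (namely `|v i|^2 / ∑`), with `μ i ≠ 0` only for balanced `i`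
(T_BAL), with the stated formula for all `x`. Moreover `μ (σ ∘ i) = μ i` for every permutation `σ` of the colours: the
permutation matrix `g` of `σ` acts on `v ∈ Inv` by (det g)^m = ± 1`, and `act (fun _ => g) v i = v (σ ∘ i)` or
`v (σ⁻¹ ∘ i)`. -/
def T_REV : Prop := ∀ (e m : ℕ) (c : Fin (e + 1) → Fin m → ℂ) (w : Fin ((e + 1) * m) → ℂ)
  (v : Tn (e + 1) ((e + 1) * m)), Eig c w v → ∃ μ : (Fin ((e + 1) * m) → Fin (e + 1)) → ℝ,
    (∀ i, 0 ≤ μ i) ∧ ∑ i, μ i = 1 ∧ (∀ i, μ i ≠ 0 → Bal m i) ∧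
    (∀ (σ : Equiv.Perm (Fin (e + 1))) (i : Fin ((e + 1) * m) → Fin (e + 1)), μ (σ ∘ i) = μ i) ∧
    ∀ x : Fin (e + 1) → ℂ, Wx c x = ∑ i, (μ i : ℂ) * ∏ l, (x (i l) - w l)

/-- KPW-DTI. `dt c` determines `c`, also from real points only. If `dt c x = dt c' x` for all real `x` then the
polynomials `det (aeval (X b) (fp c a))` and the same for `c'` in `MvPolynomial (Fin (e+1)) ℂ` agree (vanishing on
real points: `MvPolynomial.funext_set`-like, or induct by `Polynomial` infinitely many zeros). The coefficient of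
`X_a^l ∏_{b ≠ a} X_b^(m+b)`, `l < m`, in `∑_σ sign σ ∏_b f_{σ b}(X_b)` is `c a l`: the exponent `m + b` of `X_b`, `b ≠ a`,
can only come from `σ b = b`. (Alternative without coefficients: fix `x_b = R^(..)`, limits.) -/
def T_DTI : Prop := ∀ (e m : ℕ) (c c' : Fin (e + 1) → Fin m → ℂ),
  (∀ x : Fin (e + 1) → ℝ, dt c (fun k => (x k : ℂ)) = dt c' (fun k => (x k : ℂ))) → c = c'

/-- KPW-REA (uses T_CMP, T_REV, T_WXV, T_DTI). For real `x` the right side of T_REV is real, so `Wx c x` and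
`dt c x = vdm x * Wx c x` are real. The conjugate `c'` of `c` has `dt c' x = conj (dt c x) = dt c x` for real `x`,
so `c' = c`. -/
def T_REA : Prop := ∀ (e m : ℕ) (c : Fin (e + 1) → Fin m → ℂ) (w : Fin ((e + 1) * m) → ℝ),
  Rt c (fun l => (w l : ℂ)) → ∀ a l, (c a l).im = 0

/-- KPW-SD0 (uses T_CMP, T_REV, T_WXZ). Disconjugacy: `J` an interval without roots. For `x` in `J` (repetitions
allowed) all the products `∏ l, (x (i l) - w l)` are real, not zero and of the same sign `∏ l, sign (J - w l)`, so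
`Wx c x ≠ 0` by T_REV. With T_WXZ: no nonzero element of `V_c` is divisible by `∏_b (X - x_b)`. -/
def T_SD0 : Prop := ∀ (e m : ℕ) (c : Fin (e + 1) → Fin m → ℂ) (w : Fin ((e + 1) * m) → ℝ),
  Rt c (fun l => (w l : ℂ)) → ∀ J : Set ℝ, J.OrdConnected → (∀ l, w l ∉ J) →
  ∀ x : Fin (e + 1) → ℝ, (∀ k, x k ∈ J) → Wx c (fun k => (x k : ℂ)) ≠ 0 ∧
    ∀ β : Fin (e + 1) → ℂ, β ≠ 0 →
      ¬ (∏ b, (Polynomial.X - Polynomial.C (x b : ℂ))) ∣ (∑ a, Polynomial.C (β a) * fp c a)

end

end Pool.Agent.KPW
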